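import Pool.Agent.K3B.Words

/-!
# Words of the first kind and the second family of words
-/

set_option autoImplicit false

namespace Pool.Agent.K3B

open Classical in
section

variable {ι : Type}

/-- relative complement -/
noncomputable def cp (J E : Finset ι) : Finset ι := J.filter fun i => i ∉ E

/-- words of the first kind -/
def IsX (U L : Finset (Finset ι)) (J E : Finset ι) (w : ι → ℤ) : Prop :=
  ((∀ b ∈ L, (∃ i ∈ b, i ∈ J) → ∃ j ∈ b, j ∈ J ∧ j ∉ E) ∧ w = W1 U L E) ∨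
  ∃ z ∈ E, (∃ b ∈ L, z ∈ b ∧ ∀ j ∈ b, j ∈ J → j ∈ E) ∧
    (((∀ b ∈ U, z ∈ b → ∃ e ∈ b, e ∈ E ∧ e ≠ z) ∧ w = Wc U L E z 0) ∨
     ((∃ b ∈ U, z ∈ b ∧ ∀ e ∈ b, e ∈ E → e = z) ∧ (∃ b ∈ U, z ∈ b ∧ ∃ e ∈ b, e ∈ E ∧ e ≠ z) ∧
        w = Wc U L E z 2) ∨
     ((∃ b ∈ U, z ∈ b) ∧ (∀ b ∈ U, z ∈ b → ∀ e ∈ b, e ∈ E → e = z) ∧ w = Wr U L E z))

/-- a chosen word of the first kind -/
noncomputable def Xw (U L : Finset (Finset ι)) (J E : Finset ι) : ι → ℤ :=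
  if h : ∃ w, IsX U L J E w then h.choose else 0

/-- the alternative words -/
noncomputable def A1 (U L : Finset (Finset ι)) (J E : Finset ι) : ι → ℤ :=
  if ∀ i ∈ E, ¬ cov U i then Wf U L J E else
    if ∀ i ∈ J, cov L i → i ∈ E then -Wf L U J E else Xw U L J E

/-- there is a second family of words on `J` -/
def Alt (U L : Finset (Finset ι)) (J : Finset ι) : Prop :=
  ∃ g : Finset ι → ι → ℤ, (∀ E ⊆ J, Val U L J (g E)) ∧
    (∀ E ⊆ J, ∀ E' ⊆ J, Inv U L J (g E) (g E') → E = E') ∧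
    ∀ E ⊆ J, ∀ E' ⊆ J, ¬ Inv U L J (g E) (G0 U L E')

/-- no pure closed part -/
def Np (U L : Finset (Finset ι)) (J : Finset ι) : Prop :=
  ¬ ∃ C, C ⊆ J ∧ C.Nonempty ∧ (∀ i ∈ C, ¬ cov L i) ∧
    ∀ b ∈ U, (∃ i ∈ b, i ∈ C) → ∀ j ∈ b, j ∈ J → j ∈ C

end

section

variable {ι : Type} {U L : Finset (Finset ι)} {J E E' F S S' : Finset ι} {i z : ι}
  {w v w' : ι → ℤ}

theorem mem_cp : i ∈ cp J E ↔ i ∈ J ∧ i ∉ E := by
  simp only [cp, Finset.mem_filter]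

theorem cp_sub (J E : Finset ι) : cp J E ⊆ J := fun _ h => (mem_cp.1 h).1

theorem cp_inj (hE : E ⊆ J) (hE' : E' ⊆ J) (h : cp J E = cp J E') : E = E' := by
  ext i
  constructor
  · intro hi
    by_contra hc
    have : i ∈ cp J E' := mem_cp.2 ⟨hE hi, hc⟩
    rw [← h] at this
    exact (mem_cp.1 this).2 hi
  · intro hi
    by_contra hc
    have : i ∈ cp J E := mem_cp.2 ⟨hE' hi, hc⟩
    rw [h] at this
    exact (mem_cp.1 this).2 hi

theorem Inv.symm (h : Inv U L J w w') : Inv U L J w' w := by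
  refine ⟨fun i hi => ?_, h.2.1.symm, h.2.2.symm⟩
  have := h.1 i hi
  exact ⟨this.1.symm, this.2.1.symm, this.2.2.1.symm, this.2.2.2.symm⟩

theorem Nf_congr (h : ∀ i ∈ J, w i = w' i) (hn : Nf U J w) : Nf U J w' := by
  obtain ⟨b, hb, ⟨i, hi, hiJ, h2⟩, ⟨e, he, heJ, h3⟩, hall⟩ := hn
  refine ⟨b, hb, ⟨i, hi, hiJ, ?_⟩, ⟨e, he, heJ, ?_⟩, ?_⟩
  · rw [← h i hiJ]
    exact h2
  · rw [← h e heJ]
    exact h3
  · intro j hj hjJ
    rw [← h j hjJ]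
    exact hall j hj hjJ

theorem Inv_congr (h : ∀ i ∈ J, w' i = v i) (hn : Inv U L J w w') : Inv U L J w v := by
  refine ⟨fun i hi => ?_, ?_, ?_⟩
  · rw [← h i hi]
    exact hn.1 i hi
  · exact hn.2.1.trans ⟨Nf_congr h, Nf_congr fun i hi => (h i hi).symm⟩
  · refine hn.2.2.trans ⟨Nf_congr fun i hi => ?_, Nf_congr fun i hi => ?_⟩
    · simp only [Pi.neg_apply]
      rw [h i hi]
    · simp only [Pi.neg_apply]
      rw [h i hi]

theorem exX (_hE : E ⊆ J) : ∃ w, IsX U L J E w := by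
  by_cases hG : ∀ b ∈ L, (∃ i ∈ b, i ∈ J) → ∃ j ∈ b, j ∈ J ∧ j ∉ E
  · exact ⟨_, Or.inl ⟨hG, rfl⟩⟩
  · push Not at hG
    obtain ⟨b, hb, ⟨z, hz, hzJ⟩, hall⟩ := hG
    have hzE : z ∈ E := hall z hz hzJ
    by_cases h1 : ∀ b ∈ U, z ∈ b → ∃ e ∈ b, e ∈ E ∧ e ≠ z
    · exact ⟨_, Or.inr ⟨z, hzE, ⟨b, hb, hz, hall⟩, Or.inl ⟨h1, rfl⟩⟩⟩
    · push Not at h1
      obtain ⟨b', hb', hzb', h2⟩ := h1
      by_cases h3 : ∃ b ∈ U, z ∈ b ∧ ∃ e ∈ b, e ∈ E ∧ e ≠ z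
      · exact ⟨_, Or.inr ⟨z, hzE, ⟨b, hb, hz, hall⟩, Or.inr (Or.inl ⟨⟨b', hb', hzb', h2⟩, h3, rfl⟩)⟩⟩
      · push Not at h3
        exact ⟨_, Or.inr ⟨z, hzE, ⟨b, hb, hz, hall⟩, Or.inr (Or.inr ⟨⟨b', hb', hzb'⟩, h3, rfl⟩)⟩⟩

theorem isX_Xw (hE : E ⊆ J) : IsX U L J E (Xw U L J E) := by
  unfold Xw
  rw [dif_pos (exX hE)]
  exact (exX hE).choose_spec

theorem IsX.val (hE : E ⊆ J) (h : IsX U L J E w) : Val U L J w := by
  rcases h with ⟨h, rfl⟩ | ⟨z, hz, hb, ⟨h, rfl⟩ | ⟨h, h', rfl⟩ | ⟨h, h', rfl⟩⟩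
  · exact val_W1 h
  · exact val_Wz hE hz hb h
  · exact val_Wm hz h
  · exact val_Wr h'

/-- entries outside of `E` covered from below are negative -/
theorem IsX.neg_of (h : IsX U L J E w) (hi : i ∉ E) (hc : cov L i) : w i < 0 := by
  rcases h with ⟨h, rfl⟩ | ⟨z, hz, hb, ⟨h, rfl⟩ | ⟨h, h', rfl⟩ | ⟨h, h', rfl⟩⟩
  · rcases W1_cases U L E i with ⟨h1, -, -⟩ | ⟨h1, -, -⟩ | ⟨-, -, h'⟩ | ⟨-, -, h'⟩
    · exact absurd h1 hi
    · exact absurd h1 hi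
    · omega
    · omega
  · have hiz : i ≠ z := fun h' => hi (h' ▸ hz)
    rw [Wc_ne _ hiz]
    rcases G0_cases U L E i with ⟨h1, -, -⟩ | ⟨h1, -, -⟩ | ⟨-, -, h'⟩ | ⟨-, -, h'⟩
    · exact absurd h1 hi
    · exact absurd h1 hi
    · omega
    · omega
  · have hiz : i ≠ z := fun h' => hi (h' ▸ hz)
    rw [Wc_ne _ hiz]
    rcases G0_cases U L E i with ⟨h1, -, -⟩ | ⟨h1, -, -⟩ | ⟨-, -, h'⟩ | ⟨-, -, h'⟩
    · exact absurd h1 hi
    · exact absurd h1 hi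
    · omega
    · omega
  · rcases Wr_cases U L E z i with ⟨h1, -⟩ | ⟨-, h1, -⟩ | ⟨-, h1, -⟩ | ⟨-, -, h1⟩
    · exact absurd (h1 ▸ hz) hi
    · exact absurd hc h1
    · exact absurd hc h1
    · rw [h1]
      rcases G0_cases U L E i with ⟨h1, -, -⟩ | ⟨h1, -, -⟩ | ⟨-, -, h'⟩ | ⟨-, -, h'⟩
      · exact absurd h1 hi
      · exact absurd h1 hi
      · omega
      · omega

theorem IsX.ge (h : IsX U L J E w) (hc : cov L i) : -3 ≤ w i := by
  rcases h with ⟨h, rfl⟩ | ⟨z, hz, hb, ⟨h, rfl⟩ | ⟨h, h', rfl⟩ | ⟨h, h', rfl⟩⟩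
  · rcases W1_cases U L E i with ⟨-, -, h'⟩ | ⟨-, -, h'⟩ | ⟨-, -, h'⟩ | ⟨-, h1, -⟩
    · omega
    · omega
    · omega
    · exact absurd hc h1
  · by_cases hiz : i = z
    · rw [hiz, Wc_self]
      omega
    · rw [Wc_ne _ hiz]
      exact G0_ge hc
  · by_cases hiz : i = z
    · rw [hiz, Wc_self]
      omega
    · rw [Wc_ne _ hiz]
      exact G0_ge hc
  · exact Wr_ge hc

theorem X_G0 (hE : E ⊆ J) (hE1 : ∃ i ∈ E, cov U i) (h : IsX U L J E w) :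
    ¬ Inv U L J w (G0 U L E') := by
  intro hI
  rcases h with ⟨h, rfl⟩ | ⟨z, hz, hb, ⟨h, rfl⟩ | ⟨h, h', rfl⟩ | ⟨⟨b, hb, hzb⟩, h', rfl⟩⟩
  · obtain ⟨i, hi, hc⟩ := hE1
    have h1 := hI.1 i (hE hi)
    have h2 : W1 U L E i = 0 := by
      rcases W1_cases U L E i with ⟨-, -, h'⟩ | ⟨-, h1, -⟩ | ⟨h1, -, -⟩ | ⟨h1, -, -⟩
      · exact h'
      · exact absurd hc h1
      · exact absurd hi h1
      · exact absurd hi h1
    rcases G0_cases U L E' i with ⟨-, -, h'⟩ | ⟨-, -, h'⟩ | ⟨-, -, h'⟩ | ⟨-, -, h'⟩ <;> omega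
  · have h1 := hI.1 z (hE hz)
    rw [Wc_self] at h1
    rcases G0_cases U L E' z with ⟨-, -, h'⟩ | ⟨-, -, h'⟩ | ⟨-, -, h'⟩ | ⟨-, -, h'⟩ <;> omega
  · obtain ⟨b, -, ⟨j, -, -, hj⟩, -⟩ := hI.2.1.1 (nf_Wm hE hz h')
    rcases G0_cases U L E' j with ⟨-, -, h'⟩ | ⟨-, -, h'⟩ | ⟨-, -, h'⟩ | ⟨-, -, h'⟩ <;> omega
  · have h1 := (hI.1 z (hE hz)).1
    have h2 : Wr U L E z z = 4 := by
      rcases Wr_cases U L E z z with ⟨-, h⟩ | ⟨h, -⟩ | ⟨h, -⟩ | ⟨h, -⟩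
      · exact h
      · exact absurd rfl h
      · exact absurd rfl h
      · exact absurd rfl h
    exact (G0_four (h1.1 h2)).2 ⟨b, hb, hzb⟩

theorem Wr_self : Wr U L E z z = 4 := if_pos rfl

/-- for the words of the first kind other than the raised ones -/
theorem X_mem (h : IsX U L J E w) :
    (∀ i, (i ∈ E ↔ ¬ w i < 0) ∧ (w i = 4 → ¬ cov U i)) ∨
    ∃ z ∈ E, (∃ b ∈ L, z ∈ b ∧ ∀ j ∈ b, j ∈ J → j ∈ E) ∧ (∃ b ∈ U, z ∈ b) ∧
      (∀ b ∈ U, z ∈ b → ∀ e ∈ b, e ∈ E → e = z) ∧ w = Wr U L E z := by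
  rcases h with ⟨h, rfl⟩ | ⟨z, hz, hb, ⟨h, rfl⟩ | ⟨h, h', rfl⟩ | ⟨h, h', rfl⟩⟩
  · left
    intro i
    rcases W1_cases U L E i with ⟨h1, h2, h'⟩ | ⟨h1, h2, h'⟩ | ⟨h1, h2, h'⟩ | ⟨h1, h2, h'⟩
    · exact ⟨⟨fun _ => by omega, fun _ => h1⟩, fun _ => by omega⟩
    · exact ⟨⟨fun _ => by omega, fun _ => h1⟩, fun _ => h2⟩
    · exact ⟨⟨fun h3 => absurd h3 h1, fun h3 => absurd (by omega) h3⟩, fun _ => by omega⟩
    · exact ⟨⟨fun h3 => absurd h3 h1, fun h3 => absurd (by omega) h3⟩, fun _ => by omega⟩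
  · left
    intro i
    by_cases hiz : i = z
    · subst hiz
      rw [Wc_self]
      exact ⟨⟨fun _ => by omega, fun _ => hz⟩, fun _ => by omega⟩
    · rw [Wc_ne _ hiz]
      have h1 := G0_pos (U := U) (L := L) (E := E) (i := i)
      refine ⟨?_, fun h2 => (G0_four h2).2⟩
      rw [← h1]
      rcases G0_cases U L E i with ⟨-, -, h'⟩ | ⟨-, -, h'⟩ | ⟨-, -, h'⟩ | ⟨-, -, h'⟩ <;> omega
  · left
    intro i
    by_cases hiz : i = z
    · subst hiz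
      rw [Wc_self]
      exact ⟨⟨fun _ => by omega, fun _ => hz⟩, fun _ => by omega⟩
    · rw [Wc_ne _ hiz]
      have h1 := G0_pos (U := U) (L := L) (E := E) (i := i)
      refine ⟨?_, fun h2 => (G0_four h2).2⟩
      rw [← h1]
      rcases G0_cases U L E i with ⟨-, -, h'⟩ | ⟨-, -, h'⟩ | ⟨-, -, h'⟩ | ⟨-, -, h'⟩ <;> omega
  · right
    exact ⟨z, hz, hb, h, h', rfl⟩

theorem X_X (hE : E ⊆ J) (hE' : E' ⊆ J) (h : IsX U L J E w) (h' : IsX U L J E' w')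
    (hI : Inv U L J w w') : E = E' := by
  rcases X_mem h with h1 | ⟨z, hz, ⟨b, hb, hzb, -⟩, ⟨c, hc, hzc⟩, h1, rfl⟩
  · rcases X_mem h' with h2 | ⟨z, hz, ⟨b, hb, hzb, -⟩, ⟨c, hc, hzc⟩, h2, rfl⟩
    · ext i
      constructor
      · intro hi
        have := (hI.1 i (hE hi)).2.2.2
        rw [(h2 i).1, ← this]
        exact (h1 i).1.1 hi
      · intro hi
        have := (hI.1 i (hE' hi)).2.2.2
        rw [(h1 i).1, this]
        exact (h2 i).1.1 hi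
    · have := (hI.1 z (hE' hz)).1.2 Wr_self
      exact absurd ⟨c, hc, hzc⟩ ((h1 z).2 this)
  · rcases X_mem h' with h2 | ⟨z', hz', ⟨b', hb', hzb', -⟩, ⟨c', hc', hzc'⟩, h2, rfl⟩
    · have := (hI.1 z (hE hz)).1.1 Wr_self
      exact absurd ⟨c, hc, hzc⟩ ((h2 z).2 this)
    · have hzz : z = z' := by
        have h3 := (hI.1 z (hE hz)).1.1 Wr_self
        rcases Wr_cases U L E' z' z with ⟨h4, -⟩ | ⟨-, h4, -⟩ | ⟨-, h4, -⟩ | ⟨-, -, h4⟩
        · exact h4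
        · exact absurd ⟨b, hb, hzb⟩ h4
        · exact absurd ⟨b, hb, hzb⟩ h4
        · rw [h3] at h4
          exact absurd ⟨c, hc, hzc⟩ (G0_four h4.symm).2
      subst hzz
      have key : ∀ i ∈ J, (i ∈ E ↔ i ∈ E') := by
        intro i hi
        by_cases hiz : i = z
        · rw [hiz]
          exact ⟨fun _ => hz', fun _ => hz⟩
        by_cases hb : ∃ b ∈ U, z ∈ b ∧ i ∈ b
        · obtain ⟨b, hb, hzb, hib⟩ := hb
          exact ⟨fun h3 => absurd (h1 b hb hzb i hib h3) hiz,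
            fun h3 => absurd (h2 b hb hzb i hib h3) hiz⟩
        · have e1 : Wr U L E z i = G0 U L E i := by
            rcases Wr_cases U L E z i with ⟨h4, -⟩ | ⟨-, -, h4, -⟩ | ⟨-, -, h4, -⟩ | ⟨-, -, h4⟩
            · exact absurd h4 hiz
            · exact absurd h4 hb
            · exact absurd h4 hb
            · exact h4
          have e2 : Wr U L E' z i = G0 U L E' i := by
            rcases Wr_cases U L E' z i with ⟨h4, -⟩ | ⟨-, -, h4, -⟩ | ⟨-, -, h4, -⟩ | ⟨-, -, h4⟩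
            · exact absurd h4 hiz
            · exact absurd h4 hb
            · exact absurd h4 hb
            · exact h4
          have := (hI.1 i hi).2.2.1
          rw [e1, e2, G0_pos, G0_pos] at this
          exact this
      ext i
      exact ⟨fun hi => (key i (hE hi)).1 hi, fun hi => (key i (hE' hi)).2 hi⟩

/-- the first and the second kind -/
theorem X_X2 (hE : E ⊆ J) (hF : F ⊆ J) (hE2 : ∃ i ∈ J, cov L i ∧ i ∉ E)
    (hF2 : ∃ i ∈ J, cov U i ∧ i ∉ F) (h : IsX U L J E w) (h' : IsX L U J F v)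
    (hI : Inv U L J w (-v)) : False := by
  have s1 := hI.1
  obtain ⟨i₁, hi₁, hc₁, hn₁⟩ := hE2
  obtain ⟨i₂, hi₂, hc₂, hn₂⟩ := hF2
  have n1 := h.neg_of hn₁ hc₁
  have n2 := h'.neg_of hn₂ hc₂
  have t1 := s1 i₁ hi₁
  have t2 := s1 i₂ hi₂
  simp only [Pi.neg_apply] at t1 t2
  have p1 : 0 < v i₁ := by omega
  have p2 : 0 < w i₂ := by omega
  have hge := fun i (hc : cov L i) => h.ge hc
  have hge' := fun i (hc : cov U i) => h'.ge hc
  rcases h with ⟨h, rfl⟩ | ⟨z, hz, hb, ⟨h, rfl⟩ | ⟨h, hm, rfl⟩ | ⟨⟨b, hb', hzb⟩, hm, rfl⟩⟩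
  · rcases W1_cases U L E i₂ with ⟨-, -, h3⟩ | ⟨-, h4, -⟩ | ⟨-, -, h3⟩ | ⟨-, -, h3⟩
    · omega
    · exact h4 hc₂
    · omega
    · omega
  · rcases h' with ⟨h', rfl⟩ | ⟨y, hy, hb', ⟨h', rfl⟩ | ⟨h', hm', rfl⟩ | ⟨⟨b, hb'', hzb⟩, hm', rfl⟩⟩
    · rcases W1_cases L U F i₁ with ⟨-, -, h3⟩ | ⟨-, h4, -⟩ | ⟨-, -, h3⟩ | ⟨-, -, h3⟩
      · omega
      · exact h4 hc₁
      · omega
      · omega
    · have hzy : z = y := by
        by_contra hne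
        have h3 := s1 z (hE hz)
        simp only [Pi.neg_apply] at h3
        rw [Wc_self, Wc_ne _ hne] at h3
        rcases G0_cases L U F z with ⟨-, -, h4⟩ | ⟨-, -, h4⟩ | ⟨-, -, h4⟩ | ⟨-, -, h4⟩ <;> omega
      subst hzy
      obtain ⟨b, hbL, hzb, hall⟩ := hb
      obtain ⟨e, he, heF, hez⟩ := h' b hbL hzb
      have heE : e ∈ E := hall e he (hF heF)
      have h3 := s1 e (hF heF)
      simp only [Pi.neg_apply] at h3
      rw [Wc_ne _ hez, Wc_ne _ hez] at h3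
      have h4 := (G0_pos (U := U) (L := L) (E := E)).2 heE
      have h5 := (G0_pos (U := L) (L := U) (E := F)).2 heF
      omega
    · have h3 := hI.2.2.2
      rw [neg_neg] at h3
      obtain ⟨b, -, ⟨j, -, -, hj⟩, -⟩ := h3 (nf_Wm hF hy hm')
      simp only [Pi.neg_apply] at hj
      by_cases hjz : j = z
      · rw [hjz, Wc_self] at hj
        omega
      · rw [Wc_ne _ hjz] at hj
        rcases G0_cases U L E j with ⟨-, -, h4⟩ | ⟨-, -, h4⟩ | ⟨-, -, h4⟩ | ⟨-, -, h4⟩ <;> omega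
    · have h3 := (s1 y (hF hy)).2.1
      simp only [Pi.neg_apply] at h3
      rw [Wr_self] at h3
      have h4 := hge y ⟨b, hb'', hzb⟩
      have h5 := h3.2 rfl
      omega
  · have h3 := hI.2.1.1 (nf_Wm hE hz hm)
    rcases h' with ⟨h', rfl⟩ | ⟨y, hy, hb', ⟨h', rfl⟩ | ⟨h', hm', rfl⟩ | ⟨⟨b, hb'', hzb⟩, hm', rfl⟩⟩
    · obtain ⟨b, -, ⟨j, -, -, hj⟩, -⟩ := h3
      simp only [Pi.neg_apply] at hj
      rcases W1_cases L U F j with ⟨-, -, h4⟩ | ⟨-, -, h4⟩ | ⟨-, -, h4⟩ | ⟨-, -, h4⟩ <;> omega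
    · obtain ⟨b, -, ⟨j, -, -, hj⟩, -⟩ := h3
      simp only [Pi.neg_apply] at hj
      by_cases hjz : j = y
      · rw [hjz, Wc_self] at hj
        omega
      · rw [Wc_ne _ hjz] at hj
        rcases G0_cases L U F j with ⟨-, -, h4⟩ | ⟨-, -, h4⟩ | ⟨-, -, h4⟩ | ⟨-, -, h4⟩ <;> omega
    · obtain ⟨b, -, ⟨j, -, -, hj⟩, -⟩ := h3
      simp only [Pi.neg_apply] at hj
      by_cases hjz : j = y
      · rw [hjz, Wc_self] at hj
        omega
      · rw [Wc_ne _ hjz] at hj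
        rcases G0_cases L U F j with ⟨-, -, h4⟩ | ⟨-, -, h4⟩ | ⟨-, -, h4⟩ | ⟨-, -, h4⟩ <;> omega
    · have h3 := (s1 y (hF hy)).2.1
      simp only [Pi.neg_apply] at h3
      rw [Wr_self] at h3
      have h4 := hge y ⟨b, hb'', hzb⟩
      have h5 := h3.2 rfl
      omega
  · have h3 := (s1 z (hE hz)).1
    simp only [Pi.neg_apply] at h3
    have h4 := h3.1 Wr_self
    have h5 := hge' z ⟨b, hb', hzb⟩
    omega

/-- a full entry of `Wf` -/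
theorem Wf_full (h : ∃ j ∈ J, cov U j) : ∃ j ∈ J, cov U j ∧ Wf U L J S j = 4 := by
  by_cases hq : ∃ j ∈ J, cov U j ∧ ¬ cov L j
  · obtain ⟨j, hj, h1, h2⟩ := hq
    refine ⟨j, hj, h1, ?_⟩
    rcases Wf_cases U L J S j with ⟨-, h3, -, -⟩ | ⟨-, -, h3⟩ | ⟨h3, -⟩ | ⟨h3, -⟩
    · exact absurd h3 h2
    · exact h3
    · exact absurd h1 h3
    · exact absurd h1 h3
  · obtain ⟨j, hj, h1⟩ := h
    refine ⟨j, hj, h1, ?_⟩
    rcases Wf_cases U L J S j with ⟨-, -, h3, -⟩ | ⟨-, -, h3⟩ | ⟨h3, -⟩ | ⟨h3, -⟩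
    · exact absurd h3 hq
    · exact h3
    · exact absurd h1 h3
    · exact absurd h1 h3

theorem X_Wf (hE : E ⊆ J) (h0 : ∃ j ∈ J, cov U j) (h2 : ∀ z, ∃ j ∈ J, cov U j ∧ j ≠ z)
    (h : IsX U L J E w) : ¬ Inv U L J w (Wf U L J S) := by
  intro hI
  rcases X_mem h with h1 | ⟨z, hz, ⟨b, hb, hzb, -⟩, ⟨c, hc, hzc⟩, -, rfl⟩
  · obtain ⟨i, hi, hcov, h4⟩ := Wf_full (U := U) (L := L) (S := S) h0
    exact (h1 i).2 ((hI.1 i hi).1.2 h4) hcov
  · by_cases hq : ∃ j ∈ J, cov U j ∧ ¬ cov L j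
    · have h3 := (hI.1 z (hE hz)).1.1 Wr_self
      rcases Wf_cases U L J S z with ⟨-, -, -, h4⟩ | ⟨-, h4, -⟩ | ⟨h4, -⟩ | ⟨h4, -⟩
      · omega
      · exact h4 ⟨⟨b, hb, hzb⟩, hq⟩
      · exact h4 ⟨c, hc, hzc⟩
      · exact h4 ⟨c, hc, hzc⟩
    · obtain ⟨j, hj, hcj, hjz⟩ := h2 z
      have hLj : cov L j := by
        by_contra hcon
        exact hq ⟨j, hj, hcj, hcon⟩
      have h3 : Wf U L J S j = 4 := by
        rcases Wf_cases U L J S j with ⟨-, -, h4, -⟩ | ⟨-, -, h4⟩ | ⟨h4, -⟩ | ⟨h4, -⟩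
        · exact absurd h4 hq
        · exact h4
        · exact absurd hcj h4
        · exact absurd hcj h4
      have h4 := (hI.1 j hj).1.2 h3
      rcases Wr_cases U L E z j with ⟨h5, -⟩ | ⟨-, h5, -⟩ | ⟨-, h5, -⟩ | ⟨-, -, h5⟩
      · exact hjz h5
      · exact h5 hLj
      · exact h5 hLj
      · rw [h4] at h5
        exact (G0_four h5.symm).2 hcj

theorem X_F1 (h0 : ∃ j ∈ J, cov L j) (h : IsX U L J E w) :
    ¬ Inv U L J w (-Wf L U J S) := by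
  intro hI
  obtain ⟨i, hi, hcov, h4⟩ := Wf_full (U := L) (L := U) (S := S) h0
  have h3 := (hI.1 i hi).2.1
  simp only [Pi.neg_apply] at h3
  have := h.ge hcov
  omega

theorem Wf_G0 (h0 : ∃ j ∈ J, cov U j) : ¬ Inv U L J (Wf U L J S) (G0 U L E) := by
  intro hI
  obtain ⟨i, hi, hcov, h4⟩ := Wf_full (U := U) (L := L) (S := S) h0
  exact (G0_four ((hI.1 i hi).1.1 h4)).2 hcov

theorem F1_G0 (h0 : ∃ j ∈ J, cov L j) : ¬ Inv U L J (-Wf L U J S) (G0 U L E) := by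
  intro hI
  obtain ⟨i, hi, hcov, h4⟩ := Wf_full (U := L) (L := U) (S := S) h0
  have h3 := (hI.1 i hi).2.1
  simp only [Pi.neg_apply] at h3
  exact (G0_nfour (h3.1 (by omega))).2 hcov

theorem Wf_Wf (hE : E ⊆ J) (hE' : E' ⊆ J) (h : ∀ i ∈ E, ¬ cov U i) (h' : ∀ i ∈ E', ¬ cov U i)
    (hI : Inv U L J (Wf U L J E) (Wf U L J E')) : E = E' := by
  ext i
  constructor
  · intro hi
    have h1 : Wf U L J E i = -3 := by
      rcases Wf_cases U L J E i with ⟨h4, -⟩ | ⟨h4, -⟩ | ⟨-, -, h4⟩ | ⟨-, h4, -⟩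
      · exact absurd h4 (h i hi)
      · exact absurd h4 (h i hi)
      · exact h4
      · exact absurd hi h4
    have h2 := (hI.1 i (hE hi)).2.2.2.1 (by omega)
    rcases Wf_cases U L J E' i with ⟨h4, -⟩ | ⟨h4, -⟩ | ⟨-, h4, -⟩ | ⟨-, -, h4⟩
    · exact absurd h4 (h i hi)
    · exact absurd h4 (h i hi)
    · exact h4
    · omega
  · intro hi
    have h1 : Wf U L J E' i = -3 := by
      rcases Wf_cases U L J E' i with ⟨h4, -⟩ | ⟨h4, -⟩ | ⟨-, -, h4⟩ | ⟨-, h4, -⟩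
      · exact absurd h4 (h' i hi)
      · exact absurd h4 (h' i hi)
      · exact h4
      · exact absurd hi h4
    have h2 := (hI.1 i (hE' hi)).2.2.2.2 (by omega)
    rcases Wf_cases U L J E i with ⟨h4, -⟩ | ⟨h4, -⟩ | ⟨-, h4, -⟩ | ⟨-, -, h4⟩
    · exact absurd h4 (h' i hi)
    · exact absurd h4 (h' i hi)
    · exact h4
    · omega

theorem F1_F1 (hE : E ⊆ J) (hE' : E' ⊆ J) (h : ∀ i ∈ J, cov L i → i ∈ E)
    (h' : ∀ i ∈ J, cov L i → i ∈ E') (hI : Inv U L J (-Wf L U J E) (-Wf L U J E')) :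
    E = E' := by
  have key : ∀ i ∈ J, ¬ cov L i → (i ∈ E ↔ i ∈ E') := by
    intro i hi hc
    have h3 := (hI.1 i hi).2.2.1
    simp only [Pi.neg_apply] at h3
    rcases Wf_cases L U J E i with ⟨h4, -⟩ | ⟨h4, -⟩ | ⟨-, h4, h5⟩ | ⟨-, h4, h5⟩
    · exact absurd h4 hc
    · exact absurd h4 hc
    · rcases Wf_cases L U J E' i with ⟨h6, -⟩ | ⟨h6, -⟩ | ⟨-, h6, h7⟩ | ⟨-, h6, h7⟩
      · exact absurd h6 hc
      · exact absurd h6 hc
      · exact ⟨fun _ => h6, fun _ => h4⟩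
      · omega
    · rcases Wf_cases L U J E' i with ⟨h6, -⟩ | ⟨h6, -⟩ | ⟨-, h6, h7⟩ | ⟨-, h6, h7⟩
      · exact absurd h6 hc
      · exact absurd h6 hc
      · omega
      · exact ⟨fun h8 => absurd h8 h4, fun h8 => absurd h8 h6⟩
  ext i
  constructor
  · intro hi
    by_cases hc : cov L i
    · exact h' i (hE hi) hc
    · exact (key i (hE hi) hc).1 hi
  · intro hi
    by_cases hc : cov L i
    · exact h i (hE' hi) hc
    · exact (key i (hE' hi) hc).2 hi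

theorem Wf_F1 (h0 : ∃ j ∈ J, cov L j) : ¬ Inv U L J (Wf U L J S) (-Wf L U J S') := by
  intro hI
  obtain ⟨i, hi, hcov, h4⟩ := Wf_full (U := L) (L := U) (S := S') h0
  have h3 := (hI.1 i hi).2.1
  simp only [Pi.neg_apply] at h3
  rcases Wf_or U L J S i with h5 | h5 <;> omega

/-- the three cases of the alternative words -/
theorem A1_cases (hE : E ⊆ J) :
    ((∀ i ∈ E, ¬ cov U i) ∧ A1 U L J E = Wf U L J E) ∨
    ((∃ i ∈ E, cov U i) ∧ (∀ i ∈ J, cov L i → i ∈ E) ∧ A1 U L J E = -Wf L U J E) ∨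
    ((∃ i ∈ E, cov U i) ∧ (∃ i ∈ J, cov L i ∧ i ∉ E) ∧ IsX U L J E (A1 U L J E)) := by
  unfold A1
  by_cases h1 : ∀ i ∈ E, ¬ cov U i
  · exact Or.inl ⟨h1, if_pos h1⟩
  · rw [if_neg h1]
    push Not at h1
    by_cases h2 : ∀ i ∈ J, cov L i → i ∈ E
    · exact Or.inr (Or.inl ⟨h1, h2, if_pos h2⟩)
    · rw [if_neg h2]
      push Not at h2
      exact Or.inr (Or.inr ⟨h1, h2, isX_Xw hE⟩)

theorem A1_val (hc : ∀ i ∈ J, cov U i ∨ cov L i) (hE : E ⊆ J) : Val U L J (A1 U L J E) := by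
  rcases A1_cases (U := U) (L := L) hE with ⟨-, h⟩ | ⟨-, -, h⟩ | ⟨-, -, h⟩
  · rw [h]
    exact val_Wf hc
  · rw [h]
    exact (val_Wf fun i hi => (hc i hi).symm).neg
  · exact h.val hE

theorem A1_G0 (hU : ∃ j ∈ J, cov U j) (hL : ∃ j ∈ J, cov L j) (hE : E ⊆ J) :
    ¬ Inv U L J (A1 U L J E) (G0 U L E') := by
  rcases A1_cases (U := U) (L := L) hE with ⟨-, h⟩ | ⟨-, -, h⟩ | ⟨h1, -, h⟩
  · rw [h]
    exact Wf_G0 hU
  · rw [h]
    exact F1_G0 hL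
  · exact X_G0 hE h1 h

theorem A1_inj (hU : ∃ j ∈ J, cov U j) (hL : ∃ j ∈ J, cov L j)
    (h2 : ∀ z, ∃ j ∈ J, cov U j ∧ j ≠ z) (hE : E ⊆ J) (hE' : E' ⊆ J)
    (hI : Inv U L J (A1 U L J E) (A1 U L J E')) : E = E' := by
  rcases A1_cases (U := U) (L := L) hE with ⟨h1, h⟩ | ⟨-, h1, h⟩ | ⟨-, -, h⟩
  · rcases A1_cases (U := U) (L := L) hE' with ⟨h1', h'⟩ | ⟨-, h1', h'⟩ | ⟨-, -, h'⟩
    · rw [h, h'] at hI
      exact Wf_Wf hE hE' h1 h1' hI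
    · rw [h, h'] at hI
      exact absurd hI (Wf_F1 hL)
    · rw [h] at hI
      exact absurd hI.symm (X_Wf hE' hU h2 h')
  · rcases A1_cases (U := U) (L := L) hE' with ⟨h1', h'⟩ | ⟨-, h1', h'⟩ | ⟨-, -, h'⟩
    · rw [h, h'] at hI
      exact absurd hI.symm (Wf_F1 hL)
    · rw [h, h'] at hI
      exact F1_F1 hE hE' h1 h1' hI
    · rw [h] at hI
      exact absurd hI.symm (X_F1 hL h')
  · rcases A1_cases (U := U) (L := L) hE' with ⟨h1', h'⟩ | ⟨-, h1', h'⟩ | ⟨-, -, h'⟩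
    · rw [h'] at hI
      exact absurd hI (X_Wf hE hU h2 h)
    · rw [h'] at hI
      exact absurd hI (X_F1 hL h)
    · exact X_X hE hE' h h' hI

theorem G0_cp (hi : i ∈ J) : G0 L U (cp J E) i = - G0 U L E i :=
  G0_compl (by rw [mem_cp]; exact ⟨fun h => h.2, fun h => ⟨hi, h⟩⟩)

theorem Alt.swap (h : Alt L U J) : Alt U L J := by
  obtain ⟨g, h1, h2, h3⟩ := h
  refine ⟨fun E => -g (cp J E), fun E _ => (h1 _ (cp_sub J E)).neg, ?_, ?_⟩
  · intro E hE E' hE' hI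
    have := hI.neg
    rw [neg_neg, neg_neg] at this
    exact cp_inj hE hE' (h2 _ (cp_sub J E) _ (cp_sub J E') this)
  · intro E hE E' hE' hI
    have := hI.neg
    rw [neg_neg] at this
    refine h3 _ (cp_sub J E) _ (cp_sub J E') (Inv_congr ?_ this)
    intro i hi
    rw [G0_cp hi]
    rfl

theorem Np.common (h : Np U L J) (h' : Np L U J) (hne : J.Nonempty)
    (hc : ∀ i ∈ J, cov U i ∨ cov L i) : ∃ i ∈ J, cov U i ∧ cov L i := by
  classical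
  by_contra hcon
  push Not at hcon
  obtain ⟨a, ha⟩ := hne
  rcases hc a ha with h1 | h1
  · refine h ⟨J.filter fun i => cov U i, Finset.filter_subset _ _, ⟨a, ?_⟩, ?_, ?_⟩
    · exact Finset.mem_filter.2 ⟨ha, h1⟩
    · intro i hi
      rw [Finset.mem_filter] at hi
      exact hcon i hi.1 hi.2
    · rintro b hb - j hj hjJ
      exact Finset.mem_filter.2 ⟨hjJ, ⟨b, hb, hj⟩⟩
  · refine h' ⟨J.filter fun i => cov L i, Finset.filter_subset _ _, ⟨a, ?_⟩, ?_, ?_⟩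
    · exact Finset.mem_filter.2 ⟨ha, h1⟩
    · intro i hi
      rw [Finset.mem_filter] at hi
      exact fun h3 => hcon i hi.1 h3 hi.2
    · rintro b hb - j hj hjJ
      exact Finset.mem_filter.2 ⟨hjJ, ⟨b, hb, hj⟩⟩

theorem alt_np (h : Np U L J) (h' : Np L U J) (hne : J.Nonempty)
    (hc : ∀ i ∈ J, cov U i ∨ cov L i) : Alt U L J := by
  classical
  obtain ⟨a, ha, haU, haL⟩ := h.common h' hne hc
  by_cases h2 : ∀ z, ∃ j ∈ J, cov U j ∧ j ≠ z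
  · exact ⟨A1 U L J, fun E hE => A1_val hc hE,
      fun E hE E' hE' hI => A1_inj ⟨a, ha, haU⟩ ⟨a, ha, haL⟩ h2 hE hE' hI,
      fun E hE E' _ => A1_G0 ⟨a, ha, haU⟩ ⟨a, ha, haL⟩ hE⟩
  by_cases h3 : ∀ z, ∃ j ∈ J, cov L j ∧ j ≠ z
  · have hc' : ∀ i ∈ J, cov L i ∨ cov U i := fun i hi => (hc i hi).symm
    exact Alt.swap ⟨A1 L U J, fun E hE => A1_val hc' hE,
      fun E hE E' hE' hI => A1_inj ⟨a, ha, haL⟩ ⟨a, ha, haU⟩ h3 hE hE' hI,
      fun E hE E' _ => A1_G0 ⟨a, ha, haL⟩ ⟨a, ha, haU⟩ hE⟩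
  push Not at h2 h3
  obtain ⟨z, hz⟩ := h2
  obtain ⟨y, hy⟩ := h3
  have hza : a = z := hz a ha haU
  have hya : a = y := hy a ha haL
  have hJ : ∀ i ∈ J, i = a := by
    intro i hi
    rcases hc i hi with h1 | h1
    · rw [hz i hi h1, hza]
    · rw [hy i hi h1, hya]
  have hE01 : ∀ E ⊆ J, E ≠ ∅ → E = {a} := by
    intro E hE hne
    obtain ⟨i, hi⟩ := Finset.nonempty_iff_ne_empty.2 hne
    have h4 : ∀ j ∈ E, j = a := fun j hj => hJ j (hE hj)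
    ext j
    rw [Finset.mem_singleton]
    exact ⟨h4 j, fun h5 => by rw [h5, ← h4 i hi]; exact hi⟩
  refine ⟨fun E => if E = ∅ then fun _ => 4 else fun _ => -4, ?_, ?_, ?_⟩
  · intro E hE
    have hval : ∀ c : ℤ, (c = 4 ∨ c = -4) → Val U L J (fun _ => c) := by
      intro c hc
      have hc' : ∀ i : ι, (fun _ : ι => c) i = c := fun _ => rfl
      refine ⟨fun i _ => ?_, ?_, ?_, ?_, ?_, ?_⟩
      · omega
      · intro b _ i _ j _ _ _ h1 h2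
        rw [hc' i] at h1
        rw [hc' j] at h2
        omega
      · intro b _ i _ j _ _ _ h1 h2
        rw [hc' i] at h1
        rw [hc' j] at h2
        omega
      · intro i _ h0
        rw [hc' i] at h0 ⊢
        exact Or.inl (by omega)
      · intro i _ h0
        simp only [Pi.neg_apply] at h0 ⊢
        exact Or.inl (by omega)
      · intro i _ h0
        omega
    change Val U L J (if E = ∅ then fun _ => 4 else fun _ => -4)
    by_cases h4 : E = ∅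
    · rw [if_pos h4]
      exact hval 4 (Or.inl rfl)
    · rw [if_neg h4]
      exact hval (-4) (Or.inr rfl)
  · intro E hE E' hE' hI
    change Inv U L J (if E = ∅ then fun _ => 4 else fun _ => -4)
      (if E' = ∅ then fun _ => 4 else fun _ => -4) at hI
    by_cases h4 : E = ∅
    · by_cases h5 : E' = ∅
      · rw [h4, h5]
      · rw [if_pos h4, if_neg h5] at hI
        have := (hI.1 a ha).1.1 rfl
        exact absurd this (by norm_num)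
    · by_cases h5 : E' = ∅
      · rw [if_neg h4, if_pos h5] at hI
        have := (hI.1 a ha).1.2 rfl
        exact absurd this (by norm_num)
      · rw [hE01 E hE h4, hE01 E' hE' h5]
  · intro E hE E' hE' hI
    change Inv U L J (if E = ∅ then fun _ => 4 else fun _ => -4) (G0 U L E') at hI
    have h5 := hI.1 a ha
    by_cases h4 : E = ∅
    · rw [if_pos h4] at h5
      exact (G0_four (h5.1.1 rfl)).2 haU
    · rw [if_neg h4] at h5
      exact (G0_nfour (h5.2.1.1 rfl)).2 haL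

end

end Pool.Agent.K3B
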