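import Pool.Agent.K3B.Pts
import Pool.Agent.K3R.HanF

/-!
# Hansen polytopes of complements of bipartite graphs
-/

set_option autoImplicit false

namespace Pool.Agent.K3B

open Pool.Agent.K3R (IsF Fc NF Fc_finite IsF.self HS Stb ind ind_apply cx cx_apply HS_finite
  HS_sym HS_ne pt_mem npt_mem)

section general

variable {V : Type} [AddCommGroup V] [Module ℝ V]

/-- the points of `S` with value `c`, or everything if there are none -/
noncomputable def fc (S : Set V) (φ : V →ₗ[ℝ] ℝ) (c : ℝ) : Set V :=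
  {x | x ∈ S ∧ (φ x = c ∨ ∀ y ∈ S, φ y ≠ c)}

theorem fc_isF {S : Set V} (hne : S.Nonempty) {φ : V →ₗ[ℝ] ℝ} {c : ℝ}
    (hle : ∀ x ∈ S, φ x ≤ c) : IsF S (fc S φ c) := by
  by_cases h : ∃ y ∈ S, φ y = c
  · obtain ⟨y, hy, hyc⟩ := h
    refine ⟨fun x hx => hx.1, ⟨y, hy, Or.inl hyc⟩, φ, c, ?_, ?_⟩
    · rintro x ⟨hx, h | h⟩
      · exact h
      · exact absurd hyc (h y hy)
    · intro x hx hx'
      exact lt_of_le_of_ne (hle x hx) fun h => hx' ⟨hx, Or.inl h⟩
  · push Not at h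
    have h1 : fc S φ c = S := by
      ext x
      exact ⟨fun hx => hx.1, fun hx => ⟨hx, Or.inr h⟩⟩
    rw [h1]
    exact IsF.self hne

theorem fc_inj {S : Set V} (hsym : ∀ x ∈ S, -x ∈ S) {φ ψ : V →ₗ[ℝ] ℝ} {c : ℝ}
    (hc : 0 < c) (h : fc S φ c = fc S ψ c) {x : V} (hx : x ∈ S) (hφ : φ x = c) : ψ x = c := by
  have h1 : x ∈ fc S ψ c := by
    rw [← h]
    exact ⟨hx, Or.inl hφ⟩
  rcases h1.2 with h2 | h2
  · exact h2
  · exfalso
    have h3 : -x ∈ fc S φ c := by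
      rw [h]
      exact ⟨hsym x hx, Or.inr h2⟩
    rcases h3.2 with h4 | h4
    · rw [map_neg, hφ] at h4
      linarith
    · exact h4 x hx hφ

end general

section

variable {ι : Type} [DecidableEq ι]

/-- the functional of a point -/
noncomputable def fn (X Y : Finset ι) (q : ℤ × (ι → ℤ) × (ι → ℤ)) : ℝ × (ι → ℝ) →ₗ[ℝ] ℝ :=
  (q.1 : ℝ) • LinearMap.fst ℝ ℝ (ι → ℝ) + ∑ i ∈ Y, ((q.2.1 i : ℝ) - (q.1 : ℝ)) • cx i +
    ∑ a ∈ X, (q.2.2 a : ℝ) • cx a

theorem fn_pt (X Y : Finset ι) (q : ℤ × (ι → ℤ) × (ι → ℤ)) (T : Finset ι) :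
    fn X Y q (K3R.pt T) = (q.1 : ℝ) + (∑ i ∈ Y, if i ∈ T then ((q.2.1 i : ℝ) - (q.1 : ℝ)) else 0) +
      ∑ a ∈ X, if a ∈ T then (q.2.2 a : ℝ) else 0 := by
  unfold fn
  simp only [LinearMap.add_apply, LinearMap.smul_apply, LinearMap.sum_apply, LinearMap.fst_apply,
    K3R.cx_pt, K3R.pt_fst, smul_eq_mul, mul_one, mul_ite, mul_zero]

theorem fn_empty (X Y : Finset ι) (q : ℤ × (ι → ℤ) × (ι → ℤ)) :
    fn X Y q (K3R.pt ∅) = ((q.1 : ℤ) : ℝ) := by
  rw [fn_pt]
  simp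

theorem fn_left {X Y : Finset ι} (hd : Disjoint X Y) (q : ℤ × (ι → ℤ) × (ι → ℤ)) {a : ι}
    (ha : a ∈ X) : fn X Y q (K3R.pt {a}) = ((q.2.2 a + q.1 : ℤ) : ℝ) := by
  have h : a ∉ Y := Finset.disjoint_left.1 hd ha
  rw [fn_pt]
  simp only [Finset.mem_singleton, Finset.sum_ite_eq', if_pos ha, if_neg h]
  push_cast
  ring

theorem fn_right {X Y : Finset ι} (hd : Disjoint X Y) (q : ℤ × (ι → ℤ) × (ι → ℤ)) {i : ι}
    (hi : i ∈ Y) : fn X Y q (K3R.pt {i}) = ((q.2.1 i : ℤ) : ℝ) := by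
  have h : i ∉ X := Finset.disjoint_right.1 hd hi
  rw [fn_pt]
  simp only [Finset.mem_singleton, Finset.sum_ite_eq', if_pos hi, if_neg h]
  ring

theorem fn_both {X Y : Finset ι} (hd : Disjoint X Y) (q : ℤ × (ι → ℤ) × (ι → ℤ)) {a i : ι}
    (ha : a ∈ X) (hi : i ∈ Y) :
    fn X Y q (K3R.pt {a, i}) = ((q.2.2 a + q.2.1 i : ℤ) : ℝ) := by
  rw [fn_pt]
  have h1 : ∀ j ∈ Y, (if j ∈ ({a, i} : Finset ι) then ((q.2.1 j : ℝ) - (q.1 : ℝ)) else 0) =
      if j = i then ((q.2.1 j : ℝ) - (q.1 : ℝ)) else 0 := by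
    intro j hj
    have hja : j ≠ a := fun h => Finset.disjoint_right.1 hd hj (h ▸ ha)
    simp only [Finset.mem_insert, Finset.mem_singleton, hja, false_or]
  have h2 : ∀ j ∈ X, (if j ∈ ({a, i} : Finset ι) then (q.2.2 j : ℝ) else 0) =
      if j = a then (q.2.2 j : ℝ) else 0 := by
    intro j hj
    have hji : j ≠ i := fun h => Finset.disjoint_left.1 hd hj (h ▸ hi)
    simp only [Finset.mem_insert, Finset.mem_singleton, hji, or_false]
  rw [Finset.sum_congr rfl h1, Finset.sum_congr rfl h2]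
  simp only [Finset.sum_ite_eq', if_pos hi, if_pos ha]
  push_cast
  ring

theorem stb_cases {G : SimpleGraph ι} {X Y T : Finset ι}
    (hX : ∀ a ∈ X, ∀ b ∈ X, a ≠ b → G.Adj a b) (hY : ∀ a ∈ Y, ∀ b ∈ Y, a ≠ b → G.Adj a b)
    (hT : T ⊆ X ∪ Y) (hs : Stb G T) :
    T = ∅ ∨ (∃ i ∈ Y, T = {i}) ∨ (∃ a ∈ X, T = {a}) ∨
      ∃ a ∈ X, ∃ i ∈ Y, ¬ G.Adj a i ∧ T = {a, i} := by
  by_cases h1 : ∃ a ∈ T, a ∈ X
  · obtain ⟨a, haT, haX⟩ := h1
    by_cases h2 : ∃ i ∈ T, i ∈ Y ∧ i ≠ a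
    · obtain ⟨i, hiT, hiY, hia⟩ := h2
      refine Or.inr (Or.inr (Or.inr ⟨a, haX, i, hiY, hs a haT i hiT, ?_⟩))
      ext j
      rw [Finset.mem_insert, Finset.mem_singleton]
      constructor
      · intro hj
        by_contra hcon
        push Not at hcon
        rcases Finset.mem_union.1 (hT hj) with h | h
        · exact hs j hj a haT (hX j h a haX hcon.1)
        · exact hs j hj i hiT (hY j h i hiY hcon.2)
      · rintro (rfl | rfl)
        · exact haT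
        · exact hiT
    · refine Or.inr (Or.inr (Or.inl ⟨a, haX, ?_⟩))
      ext j
      rw [Finset.mem_singleton]
      constructor
      · intro hj
        by_contra hja
        rcases Finset.mem_union.1 (hT hj) with h | h
        · exact hs j hj a haT (hX j h a haX hja)
        · exact h2 ⟨j, hj, h, hja⟩
      · rintro rfl
        exact haT
  · by_cases h2 : ∃ i ∈ T, i ∈ Y
    · obtain ⟨i, hiT, hiY⟩ := h2
      refine Or.inr (Or.inl ⟨i, hiY, ?_⟩)
      ext j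
      rw [Finset.mem_singleton]
      constructor
      · intro hj
        by_contra hji
        rcases Finset.mem_union.1 (hT hj) with h | h
        · exact h1 ⟨j, hj, h⟩
        · exact hs j hj i hiT (hY j h i hiY hji)
      · rintro rfl
        exact hiT
    · left
      refine Finset.eq_empty_of_forall_notMem fun j hj => ?_
      rcases Finset.mem_union.1 (hT hj) with h | h
      · exact h1 ⟨j, hj, h⟩
      · exact h2 ⟨j, hj, h⟩

theorem stb_pair {G : SimpleGraph ι} {a i : ι} (h : ¬ G.Adj a i) : Stb G {a, i} := by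
  intro u hu v hv
  rw [Finset.mem_insert, Finset.mem_singleton] at hu hv
  rcases hu with rfl | rfl
  · rcases hv with rfl | rfl
    · exact G.irrefl
    · exact h
  · rcases hv with rfl | rfl
    · exact fun h' => h h'.symm
    · exact G.irrefl

theorem card_le_NF {V : Type} [AddCommGroup V] [Module ℝ V] {S : Set V} (hS : S.Finite) {m : ℕ}
    (f : Fin m → Set V) (hf : ∀ k, IsF S (f k)) (hinj : Function.Injective f) : m ≤ NF S := by
  have h := Set.ncard_le_ncard_of_injOn (s := (Set.univ : Set (Fin m))) (t := Fc S) f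
    (fun k _ => hf k) (hinj.injOn) (Fc_finite hS)
  rw [Set.ncard_univ, Nat.card_eq_fintype_card, Fintype.card_fin] at h
  exact h

theorem cobip (G : SimpleGraph ι) (X Y : Finset ι) (hd : Disjoint X Y)
    (hX : ∀ a ∈ X, ∀ b ∈ X, a ≠ b → G.Adj a b) (hY : ∀ a ∈ Y, ∀ b ∈ Y, a ≠ b → G.Adj a b) :
    3 ^ ((X ∪ Y).card + 1) ≤ NF (HS G (X ∪ Y)) := by
  classical
  obtain ⟨F, hF, hinj⟩ := points X Y (fun a => Y.filter fun i => ¬ G.Adj a i)
  rw [Finset.card_union_of_disjoint hd]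
  have hfin := HS_finite G (X ∪ Y)
  have hval : ∀ q, Feas X Y (fun a => Y.filter fun i => ¬ G.Adj a i) q →
      ∀ T, T ⊆ X ∪ Y → Stb G T → -8 ≤ fn X Y q (K3R.pt T) ∧ fn X Y q (K3R.pt T) ≤ 8 := by
    intro q hq T hT hs
    rcases stb_cases hX hY hT hs with rfl | ⟨i, hi, rfl⟩ | ⟨a, ha, rfl⟩ | ⟨a, ha, i, hi, hai, rfl⟩
    · rw [fn_empty]
      exact ⟨by exact_mod_cast hq.1.1, by exact_mod_cast hq.1.2⟩
    · rw [fn_right hd q hi]
      exact ⟨by exact_mod_cast (hq.2.1 i hi).1, by exact_mod_cast (hq.2.1 i hi).2⟩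
    · rw [fn_left hd q ha]
      exact ⟨by exact_mod_cast (hq.2.2 a ha).1.1, by exact_mod_cast (hq.2.2 a ha).1.2⟩
    · rw [fn_both hd q ha hi]
      have h := (hq.2.2 a ha).2 i (Finset.mem_filter.2 ⟨hi, hai⟩)
      exact ⟨by exact_mod_cast h.1, by exact_mod_cast h.2⟩
  have hle : ∀ k, ∀ x ∈ HS G (X ∪ Y), fn X Y (F k) x ≤ 8 := by
    rintro k x ⟨T, hT, hs, rfl | rfl⟩
    · exact (hval _ (hF k) T hT hs).2
    · rw [map_neg]
      have := (hval _ (hF k) T hT hs).1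
      linarith
  refine card_le_NF hfin (fun k => fc (HS G (X ∪ Y)) (fn X Y (F k)) 8)
    (fun k => fc_isF (HS_ne G _) (hle k)) ?_
  intro k k' hkk
  apply hinj
  have key : ∀ k k', fc (HS G (X ∪ Y)) (fn X Y (F k)) 8 = fc (HS G (X ∪ Y)) (fn X Y (F k')) 8 →
      ∀ T, T ⊆ X ∪ Y → Stb G T → (fn X Y (F k) (K3R.pt T) = 8 → fn X Y (F k') (K3R.pt T) = 8) ∧
        (fn X Y (F k) (K3R.pt T) = -8 → fn X Y (F k') (K3R.pt T) = -8) := by
    intro k k' h T hT hs
    constructor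
    · exact fc_inj (HS_sym G _) (by norm_num) h (pt_mem hT hs)
    · intro h'
      have h2 := fc_inj (HS_sym G _) (by norm_num : (0 : ℝ) < 8) h (npt_mem hT hs)
        (by rw [map_neg, h']; norm_num)
      rw [map_neg] at h2
      linarith
  have key2 : ∀ T, T ⊆ X ∪ Y → Stb G T → ∀ x y : ℤ, fn X Y (F k) (K3R.pt T) = (x : ℝ) →
      fn X Y (F k') (K3R.pt T) = (y : ℝ) → Ex x y := by
    intro T hT hs x y hx hy
    obtain ⟨h1, h2⟩ := key k k' hkk T hT hs
    obtain ⟨h3, h4⟩ := key k' k hkk.symm T hT hs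
    rw [hx, hy] at h1 h2 h3 h4
    exact ⟨⟨fun h => by exact_mod_cast h1 (by exact_mod_cast h),
      fun h => by exact_mod_cast h3 (by exact_mod_cast h)⟩,
      ⟨fun h => by exact_mod_cast h2 (by exact_mod_cast h),
      fun h => by exact_mod_cast h4 (by exact_mod_cast h)⟩⟩
  refine ⟨?_, fun i hi => ?_, fun a ha => ⟨?_, fun i hi => ?_⟩⟩
  · exact key2 ∅ (Finset.empty_subset _) (K3R.Stb_empty G) _ _ (fn_empty X Y _) (fn_empty X Y _)
  · exact key2 {i} (Finset.singleton_subset_iff.2 (Finset.mem_union_right _ hi))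
      (K3R.Stb_single G i) _ _ (fn_right hd _ hi) (fn_right hd _ hi)
  · exact key2 {a} (Finset.singleton_subset_iff.2 (Finset.mem_union_left _ ha))
      (K3R.Stb_single G a) _ _ (fn_left hd _ ha) (fn_left hd _ ha)
  · obtain ⟨hiY, hai⟩ := Finset.mem_filter.1 hi
    refine key2 {a, i} ?_ (stb_pair hai) _ _ (fn_both hd _ ha hiY) (fn_both hd _ ha hiY)
    intro j hj
    rw [Finset.mem_insert, Finset.mem_singleton] at hj
    rcases hj with rfl | rfl
    · exact Finset.mem_union_left _ ha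
    · exact Finset.mem_union_right _ hiY

end

end Pool.Agent.K3B
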