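import Pool.Agent.K3B.Alt

/-!
# The core count
-/

set_option autoImplicit false

namespace Pool.Agent.K3B

open Classical in
section

variable {ι : Type}

/-- two words side by side -/
noncomputable def mix (C : Finset ι) (w w' : ι → ℤ) (i : ι) : ℤ := if i ∈ C then w i else w' i

/-- a point at the lower end -/
noncomputable def lo (J T : Finset ι) : ℤ × (ι → ℤ) :=
  (-4, fun i => if i ∈ J then (if i ∈ T then 1 else 0) else -4)

/-- the allowed points -/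
def Gd (U L : Finset (Finset ι)) (J : Finset ι) (p : ℤ × (ι → ℤ)) : Prop :=
  (∃ w, Val U L J w ∧ p = pw U L J w) ∨ (∃ T, p = lo J T) ∨ ∃ T, p = -lo J T

/-- the block of points of a support -/
def PerJ (Y : Finset ι) (U L : Finset (Finset ι)) (J : Finset ι) : Prop :=
  ∃ f : Finset ι → Fin 3 → ℤ × (ι → ℤ), (∀ E ⊆ J, ∀ t, Gd U L J (f E t)) ∧
    ∀ E ⊆ J, ∀ E' ⊆ J, ∀ t t', Same Y U L (f E t) (f E' t') → E = E' ∧ t = t'

/-- the part of a set covered by the family -/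
noncomputable def pt (U : Finset (Finset ι)) (E : Finset ι) : Finset ι := E.filter fun i => cov U i

/-- closed subsets of `J` -/
def Cl (U : Finset (Finset ι)) (J C : Finset ι) : Prop :=
  ∀ b ∈ U, (∃ i ∈ b, i ∈ C) → ∀ j ∈ b, j ∈ J → j ∈ C

/-- `J` is covered and connected -/
def Cn (U : Finset (Finset ι)) (J : Finset ι) : Prop :=
  (∀ i ∈ J, cov U i) ∧ ∀ C, C ⊆ J → C.Nonempty → Cl U J C → C = J

end

section

variable {ι : Type} {U L : Finset (Finset ι)} {Y J C E E' F S S' T T' : Finset ι} {i z : ι}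
  {w v w' v' : ι → ℤ} {p q : ℤ × (ι → ℤ)}

theorem mem_pt : i ∈ pt U E ↔ i ∈ E ∧ cov U i := by
  simp only [pt, Finset.mem_filter]

theorem Wp_cases (U L : Finset (Finset ι)) (C E : Finset ι) (i : ι) :
    (i ∈ C ∧ (∃ e ∈ C, e ∈ E) ∧ i ∈ E ∧ Wp U L C E i = 0) ∨
    (i ∈ C ∧ (∃ e ∈ C, e ∈ E) ∧ i ∉ E ∧ Wp U L C E i = -4) ∨
    (i ∈ C ∧ ¬ (∃ e ∈ C, e ∈ E) ∧ Wp U L C E i = 4) ∨
    (i ∉ C ∧ Wp U L C E i = G0 U L E i) := by
  unfold Wp
  by_cases h : i ∈ C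
  · rw [if_pos h]
    by_cases h2 : ∃ e ∈ C, e ∈ E
    · rw [if_pos h2]
      by_cases h3 : i ∈ E
      · exact Or.inl ⟨h, h2, h3, if_pos h3⟩
      · exact Or.inr (Or.inl ⟨h, h2, h3, if_neg h3⟩)
    · exact Or.inr (Or.inr (Or.inl ⟨h, h2, if_neg h2⟩))
  · rw [if_neg h]
    exact Or.inr (Or.inr (Or.inr ⟨h, rfl⟩))

theorem val_Wp (hCL : ∀ i ∈ C, ¬ cov L i) (hCU : ∀ i ∈ C, cov U i) (hcl : Cl U J C) :
    Val U L J (Wp U L C E) := by
  have hge : ∀ i, cov L i → -3 ≤ Wp U L C E i := by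
    intro i hi
    rcases Wp_cases U L C E i with ⟨h, -⟩ | ⟨h, -⟩ | ⟨h, -⟩ | ⟨-, h⟩
    · exact absurd hi (hCL i h)
    · exact absurd hi (hCL i h)
    · exact absurd hi (hCL i h)
    · rw [h]
      exact G0_ge hi
  have hle : ∀ i, i ∉ C → cov U i → Wp U L C E i ≤ 3 := by
    intro i hi hc
    rcases Wp_cases U L C E i with ⟨h, -⟩ | ⟨h, -⟩ | ⟨h, -⟩ | ⟨-, h⟩
    · exact absurd h hi
    · exact absurd h hi
    · exact absurd h hi
    · rw [h]
      exact G0_le hc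
  refine ⟨?_, ?_, ?_, ?_, ?_, ?_⟩
  · intro i hi
    rcases Wp_cases U L C E i with ⟨-, -, -, h⟩ | ⟨-, -, -, h⟩ | ⟨-, -, h⟩ | ⟨-, h⟩
    · omega
    · omega
    · omega
    · rw [h]
      exact (val_G0 U L J E).lv i hi
  · intro b hb i hi j hj hiJ hjJ h1 h2
    by_cases hiC : i ∈ C
    · have hjC : j ∈ C := hcl b hb ⟨i, hi, hiC⟩ j hj hjJ
      rcases Wp_cases U L C E i with ⟨-, -, -, h⟩ | ⟨-, -, -, h⟩ | ⟨-, h3, h⟩ | ⟨h, -⟩
      · omega
      · omega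
      · rcases Wp_cases U L C E j with ⟨-, h4, -, h'⟩ | ⟨-, h4, -, h'⟩ | ⟨-, h4, h'⟩ | ⟨h', -⟩
        · exact h3 h4
        · exact h3 h4
        · omega
        · exact h' hjC
      · exact h hiC
    · have := hle i hiC ⟨b, hb, hi⟩
      omega
  · intro b hb i hi j hj hiJ hjJ h1 h2
    have := hge j ⟨b, hb, hj⟩
    omega
  · intro i hi h0
    rcases Wp_cases U L C E i with ⟨-, -, -, h⟩ | ⟨-, -, -, h⟩ | ⟨-, -, h⟩ | ⟨hiC, h⟩
    · omega
    · omega
    · exact Or.inl h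
    · rw [h] at h0 ⊢
      rcases G0_cases U L E i with ⟨-, h3, h'⟩ | ⟨-, -, h'⟩ | ⟨-, -, h'⟩ | ⟨-, -, h'⟩
      · obtain ⟨b, hb, hib⟩ := h3
        refine Or.inr ⟨b, hb, hib, fun j hj hjJ => ?_⟩
        rw [h']
        refine hle j ?_ ⟨b, hb, hj⟩
        intro hjC
        exact hiC (hcl b hb ⟨j, hj, hjC⟩ i hib hi)
      · exact Or.inl h'
      · omega
      · omega
  · intro i hi h0
    simp only [Pi.neg_apply] at h0 ⊢
    rcases Wp_cases U L C E i with ⟨-, -, -, h⟩ | ⟨-, -, -, h⟩ | ⟨-, -, h⟩ | ⟨-, h⟩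
    · omega
    · left
      omega
    · omega
    · rw [h] at h0 ⊢
      rcases G0_cases U L E i with ⟨-, -, h'⟩ | ⟨-, -, h'⟩ | ⟨-, h3, h'⟩ | ⟨-, -, h'⟩
      · omega
      · omega
      · obtain ⟨b, hb, hib⟩ := h3
        refine Or.inr ⟨b, hb, hib, fun j hj _ => ?_⟩
        have := hge j ⟨b, hb, hj⟩
        omega
      · left
        omega
  · intro i hi h0
    rcases Wp_cases U L C E i with ⟨hiC, h2, -, h⟩ | ⟨-, -, -, h⟩ | ⟨-, -, h⟩ | ⟨-, h⟩
    · left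
      obtain ⟨b, hb, hib⟩ := hCU i hiC
      refine ⟨⟨b, hb, hib, fun j hj hjJ => ?_⟩, ?_⟩
      · have hjC : j ∈ C := hcl b hb ⟨i, hib, hiC⟩ j hj hjJ
        rcases Wp_cases U L C E j with ⟨-, -, -, h'⟩ | ⟨-, -, -, h'⟩ | ⟨-, h4, h'⟩ | ⟨h', -⟩
        · omega
        · omega
        · exact absurd h2 h4
        · exact absurd hjC h'
      · rintro ⟨b', hb', hib', -⟩
        exact hCL i hiC ⟨b', hb', hib'⟩
    · omega
    · omega
    · rw [h] at h0
      rcases G0_cases U L E i with ⟨-, -, h'⟩ | ⟨-, -, h'⟩ | ⟨-, -, h'⟩ | ⟨-, -, h'⟩ <;> omega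

theorem Wp_G0 (hne : C.Nonempty) (hCU : ∀ i ∈ C, cov U i) :
    ¬ Sg C (Wp U L C E) (G0 U L E') := by
  intro hI
  by_cases h2 : ∃ e ∈ C, e ∈ E
  · obtain ⟨e, he, heE⟩ := h2
    have h3 := hI e he
    have h4 : Wp U L C E e = 0 := by
      rcases Wp_cases U L C E e with ⟨-, -, -, h⟩ | ⟨-, -, h, -⟩ | ⟨-, h, -⟩ | ⟨h, -⟩
      · exact h
      · exact absurd heE h
      · exact absurd ⟨e, he, heE⟩ h
      · exact absurd he h
    rcases G0_cases U L E' e with ⟨-, -, h'⟩ | ⟨-, -, h'⟩ | ⟨-, -, h'⟩ | ⟨-, -, h'⟩ <;> omega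
  · obtain ⟨c, hc⟩ := hne
    have h4 : Wp U L C E c = 4 := by
      rcases Wp_cases U L C E c with ⟨-, h, -⟩ | ⟨-, h, -⟩ | ⟨-, -, h⟩ | ⟨h, -⟩
      · exact absurd h h2
      · exact absurd h h2
      · exact h
      · exact absurd hc h
    exact (G0_four ((hI c hc).1.1 h4)).2 (hCU c hc)

theorem Wp_Wp (_hC : C ⊆ J) (hE : E ⊆ J) (hE' : E' ⊆ J)
    (hI : Sg J (Wp U L C E) (Wp U L C E')) : E = E' := by
  have key : ∀ F F' : Finset ι, F ⊆ J → Sg J (Wp U L C F) (Wp U L C F') → F ⊆ F' := by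
    intro F F' hF hI i hi
    have h3 := hI i (hF hi)
    rcases Wp_cases U L C F i with ⟨h4, h5, -, h⟩ | ⟨-, -, h, -⟩ | ⟨h5, h, -⟩ | ⟨hiC, h⟩
    · rcases Wp_cases U L C F' i with ⟨-, -, h6, -⟩ | ⟨-, -, -, h6⟩ | ⟨-, -, h6⟩ | ⟨h6, -⟩
      · exact h6
      · omega
      · omega
      · exact absurd h4 h6
    · exact absurd hi h
    · exact absurd ⟨i, h5, hi⟩ h
    · rcases Wp_cases U L C F' i with ⟨h6, -⟩ | ⟨h6, -⟩ | ⟨h6, -⟩ | ⟨-, h6⟩
      · exact absurd h6 hiC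
      · exact absurd h6 hiC
      · exact absurd h6 hiC
      · rw [h, h6] at h3
        have := G0_pos (U := U) (L := L) (E := F) (i := i)
        have h7 := G0_pos (U := U) (L := L) (E := F') (i := i)
        exact h7.1 (h3.2.2.1.1 (this.2 hi))
  have hI' : Sg J (Wp U L C E') (Wp U L C E) := by
    intro i hi
    have := hI i hi
    exact ⟨this.1.symm, this.2.1.symm, this.2.2.1.symm, this.2.2.2.symm⟩
  exact Finset.Subset.antisymm (key E E' hE hI) (key E' E hE' hI')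

theorem alt_pure (hC : C ⊆ J) (hne : C.Nonempty) (hCL : ∀ i ∈ C, ¬ cov L i)
    (hCU : ∀ i ∈ C, cov U i) (hcl : Cl U J C) : Alt U L J :=
  ⟨Wp U L C, fun _ _ => val_Wp hCL hCU hcl, fun _ hE _ hE' hI => Wp_Wp hC hE hE' hI.1,
    fun _ _ _ _ hI => Wp_G0 hne hCU fun i hi => hI.1 i (hC hi)⟩

theorem alt_all (hne : J.Nonempty) (hc : ∀ i ∈ J, cov U i ∨ cov L i) : Alt U L J := by
  by_cases h1 : Np U L J
  · by_cases h2 : Np L U J
    · exact alt_np h1 h2 hne hc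
    · unfold Np at h2
      push Not at h2
      obtain ⟨C, hC, hCne, hCU, hcl⟩ := h2
      exact Alt.swap (alt_pure hC hCne hCU
        (fun i hi => (hc i (hC hi)).resolve_left (hCU i hi)) hcl)
  · unfold Np at h1
    push Not at h1
    obtain ⟨C, hC, hCne, hCL, hcl⟩ := h1
    exact alt_pure hC hCne hCL (fun i hi => (hc i (hC hi)).resolve_right (hCL i hi)) hcl

theorem mix_mem (h : i ∈ C) : mix C w w' i = w i := if_pos h

theorem mix_not (h : i ∉ C) : mix C w w' i = w' i := if_neg h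

theorem mix_self : mix C w w = w := by
  funext i
  unfold mix
  split_ifs <;> rfl

theorem mix_neg : -mix C w w' = mix C (-w) (-w') := by
  funext i
  unfold mix
  simp only [Pi.neg_apply]
  split_ifs <;> rfl

theorem vis_mix (_hC : C ⊆ J) (hcl : Cl U J C) (h1 : Vis U C w) (h2 : Vis U (cp J C) w') :
    Vis U J (mix C w w') := by
  intro i hi h0
  by_cases hiC : i ∈ C
  · rw [mix_mem hiC] at h0 ⊢
    rcases h1 i hiC h0 with h | ⟨b, hb, hib, h⟩
    · exact Or.inl h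
    · refine Or.inr ⟨b, hb, hib, fun j hj hjJ => ?_⟩
      have hjC := hcl b hb ⟨i, hib, hiC⟩ j hj hjJ
      rw [mix_mem hjC]
      exact h j hj hjC
  · rw [mix_not hiC] at h0 ⊢
    rcases h2 i (mem_cp.2 ⟨hi, hiC⟩) h0 with h | ⟨b, hb, hib, h⟩
    · exact Or.inl h
    · refine Or.inr ⟨b, hb, hib, fun j hj hjJ => ?_⟩
      have hjC : j ∉ C := fun hjC => hiC (hcl b hb ⟨j, hj, hjC⟩ i hib hi)
      rw [mix_not hjC]
      exact h j hj (mem_cp.2 ⟨hjJ, hjC⟩)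

theorem nc_mix (hcl : Cl U J C) (h1 : Nc U C w) (h2 : Nc U (cp J C) w') :
    Nc U J (mix C w w') := by
  intro b hb i hi j hj hiJ hjJ h3
  by_cases hiC : i ∈ C
  · have hjC := hcl b hb ⟨i, hi, hiC⟩ j hj hjJ
    rw [mix_mem hiC] at h3
    rw [mix_mem hjC]
    exact h1 b hb i hi j hj hiC hjC h3
  · have hjC : j ∉ C := fun hjC => hiC (hcl b hb ⟨j, hj, hjC⟩ i hi hiJ)
    rw [mix_not hiC] at h3
    rw [mix_not hjC]
    exact h2 b hb i hi j hj (mem_cp.2 ⟨hiJ, hiC⟩) (mem_cp.2 ⟨hjJ, hjC⟩) h3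

theorem zu_mix_mem (hC : C ⊆ J) (hcl : Cl U J C) (hi : i ∈ C) :
    zu U J (mix C w w') i ↔ zu U C w i := by
  constructor
  · rintro ⟨b, hb, hib, h⟩
    refine ⟨b, hb, hib, fun j hj hjC => ?_⟩
    have := h j hj (hC hjC)
    rwa [mix_mem hjC] at this
  · rintro ⟨b, hb, hib, h⟩
    refine ⟨b, hb, hib, fun j hj hjJ => ?_⟩
    have hjC := hcl b hb ⟨i, hib, hi⟩ j hj hjJ
    rw [mix_mem hjC]
    exact h j hj hjC

theorem zu_mix_not (hcl : Cl U J C) (hi : i ∈ J) (hiC : i ∉ C) :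
    zu U J (mix C w w') i ↔ zu U (cp J C) w' i := by
  constructor
  · rintro ⟨b, hb, hib, h⟩
    refine ⟨b, hb, hib, fun j hj hjC => ?_⟩
    have := h j hj (mem_cp.1 hjC).1
    rwa [mix_not (mem_cp.1 hjC).2] at this
  · rintro ⟨b, hb, hib, h⟩
    refine ⟨b, hb, hib, fun j hj hjJ => ?_⟩
    have hjC : j ∉ C := fun hjC => hiC (hcl b hb ⟨j, hj, hjC⟩ i hib hi)
    rw [mix_not hjC]
    exact h j hj (mem_cp.2 ⟨hjJ, hjC⟩)

theorem val_mix (hC : C ⊆ J) (hU : Cl U J C) (hL : Cl L J C) (h1 : Val U L C w)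
    (h2 : Val U L (cp J C) w') : Val U L J (mix C w w') := by
  refine ⟨?_, nc_mix hU h1.ncU h2.ncU, nc_mix hL h1.ncL h2.ncL, vis_mix hC hU h1.visU h2.visU,
    ?_, ?_⟩
  · intro i hi
    by_cases hiC : i ∈ C
    · rw [mix_mem hiC]
      exact h1.lv i hiC
    · rw [mix_not hiC]
      exact h2.lv i (mem_cp.2 ⟨hi, hiC⟩)
  · rw [mix_neg]
    exact vis_mix hC hL h1.visL h2.visL
  · intro i hi h0
    rw [mix_neg]
    by_cases hiC : i ∈ C
    · rw [zu_mix_mem hC hU hiC, zu_mix_mem hC hL hiC]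
      rw [mix_mem hiC] at h0
      exact h1.zer i hiC h0
    · rw [zu_mix_not hU hi hiC, zu_mix_not hL hi hiC]
      rw [mix_not hiC] at h0
      exact h2.zer i (mem_cp.2 ⟨hi, hiC⟩) h0

theorem nf_mix (_hC : C ⊆ J) (hU : Cl U J C) (h2 : ∀ i ∈ C, w i ≠ 2) :
    Nf U J (mix C w w') ↔ Nf U (cp J C) w' := by
  constructor
  · rintro ⟨b, hb, ⟨i, hib, hiJ, hi2⟩, ⟨e, heb, heJ, he3⟩, h⟩
    have hiC : i ∉ C := by
      intro hiC
      rw [mix_mem hiC] at hi2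
      exact h2 i hiC hi2
    have hb' : ∀ j ∈ b, j ∈ J → j ∉ C := fun j hj _ hjC =>
      hiC (hU b hb ⟨j, hj, hjC⟩ i hib hiJ)
    refine ⟨b, hb, ⟨i, hib, mem_cp.2 ⟨hiJ, hiC⟩, ?_⟩,
      ⟨e, heb, mem_cp.2 ⟨heJ, hb' e heb heJ⟩, ?_⟩, ?_⟩
    · rwa [mix_not hiC] at hi2
    · rwa [mix_not (hb' e heb heJ)] at he3
    · intro j hj hjR
      have := h j hj (mem_cp.1 hjR).1
      rwa [mix_not (mem_cp.1 hjR).2] at this
  · rintro ⟨b, hb, ⟨i, hib, hiR, hi2⟩, ⟨e, heb, heR, he3⟩, h⟩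
    have hb' : ∀ j ∈ b, j ∈ J → j ∉ C := fun j hj _ hjC =>
      (mem_cp.1 hiR).2 (hU b hb ⟨j, hj, hjC⟩ i hib (mem_cp.1 hiR).1)
    refine ⟨b, hb, ⟨i, hib, (mem_cp.1 hiR).1, ?_⟩, ⟨e, heb, (mem_cp.1 heR).1, ?_⟩, ?_⟩
    · rwa [mix_not (mem_cp.1 hiR).2]
    · rwa [mix_not (mem_cp.1 heR).2]
    · intro j hj hjJ
      have hjC := hb' j hj hjJ
      rw [mix_not hjC]
      exact h j hj (mem_cp.2 ⟨hjJ, hjC⟩)

theorem inv_mix (hC : C ⊆ J) (hU : Cl U J C) (hL : Cl L J C)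
    (h2 : ∀ i ∈ C, w i ≠ 2 ∧ w i ≠ -2) (h2' : ∀ i ∈ C, v i ≠ 2 ∧ v i ≠ -2)
    (hI : Inv U L J (mix C w w') (mix C v v')) : Sg C w v ∧ Inv U L (cp J C) w' v' := by
  refine ⟨fun i hi => ?_, fun i hi => ?_, ?_, ?_⟩
  · have := hI.1 i (hC hi)
    rwa [mix_mem hi, mix_mem hi] at this
  · have := hI.1 i (mem_cp.1 hi).1
    rwa [mix_not (mem_cp.1 hi).2, mix_not (mem_cp.1 hi).2] at this
  · have := hI.2.1
    rwa [nf_mix hC hU fun i hi => (h2 i hi).1, nf_mix hC hU fun i hi => (h2' i hi).1] at this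
  · have := hI.2.2
    rw [mix_neg, mix_neg] at this
    have k1 : ∀ i ∈ C, (-w) i ≠ 2 := fun i hi h3 => (h2 i hi).2 (by
      simp only [Pi.neg_apply] at h3
      omega)
    have k2 : ∀ i ∈ C, (-v) i ≠ 2 := fun i hi h3 => (h2' i hi).2 (by
      simp only [Pi.neg_apply] at h3
      omega)
    rwa [nf_mix hC hL k1, nf_mix hC hL k2] at this

theorem lo_fst : (lo J T).1 = -4 := rfl

theorem lo_mem (hi : i ∈ J) (hT : i ∈ T) : (lo J T).2 i = 1 := by
  unfold lo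
  dsimp only
  rw [if_pos hi, if_pos hT]

theorem lo_not (hi : i ∈ J) (hT : i ∉ T) : (lo J T).2 i = 0 := by
  unfold lo
  dsimp only
  rw [if_pos hi, if_neg hT]

theorem lo_out (hi : i ∉ J) : (lo J T).2 i = -4 := by
  unfold lo
  dsimp only
  rw [if_neg hi]

theorem lo_bd (J T : Finset ι) (i : ι) : -4 ≤ (lo J T).2 i ∧ (lo J T).2 i ≤ 1 := by
  unfold lo
  dsimp only
  split_ifs <;> norm_num

/-- differences of low points are closed -/
theorem lo_cl (hI : Info Y U (lo J T) (lo J T')) (hi : i ∈ T) (hi' : i ∉ T') (hiJ : i ∈ J)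
    {b : Finset ι} (hb : b ∈ U) (hib : i ∈ b) {j : ι} (hj : j ∈ b) (hjJ : j ∈ J) :
    j ∈ T ∧ j ∉ T' := by
  have h1 : topE (lo J T) b i := by
    refine ⟨hib, ?_, fun k _ => ?_⟩
    · rw [lo_mem hiJ hi]
      exact le_trans (by rw [lo_fst]) (by norm_num : (-4 : ℤ) ≤ 1)
    · rw [lo_mem hiJ hi]
      exact (lo_bd J T k).2
  have h2 := ((hI.2.2 b hb).2 i hib).1 h1
  have h3 : j ∉ T' := by
    intro h
    have := h2.2.2 j hj
    rw [lo_mem hjJ h, lo_not hiJ hi'] at this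
    omega
  refine ⟨?_, h3⟩
  have h4 : topE (lo J T') b j := by
    refine ⟨hj, ?_, fun k hk => ?_⟩
    · exact (lo_bd J T' j).1
    · have := h2.2.2 k hk
      rw [lo_not hiJ hi'] at this
      rwa [lo_not hjJ h3]
  have h5 := ((hI.2.2 b hb).2 j hj).2 h4
  by_contra h
  have := h5.2.2 i hib
  rw [lo_mem hiJ hi, lo_not hjJ h] at this
  omega

theorem Same.symm (h : Same Y U L p q) : Same Y U L q p := by
  obtain ⟨⟨h1, h2, h3⟩, h4, h5, h6⟩ := h
  exact ⟨⟨h1.symm, fun i hi => (h2 i hi).symm, fun b hb => ⟨(h3 b hb).1.symm,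
    fun i hi => ((h3 b hb).2 i hi).symm⟩⟩, h4.symm, fun i hi => (h5 i hi).symm,
    fun b hb => ⟨(h6 b hb).1.symm, fun i hi => ((h6 b hb).2 i hi).symm⟩⟩

theorem Same.neg (h : Same Y U L p q) : Same Y L U (-p) (-q) := by
  refine ⟨h.2, ?_⟩
  rw [neg_neg, neg_neg]
  exact h.1

theorem Same.fst (h : Same Y U L p q) : (p.1 = 4 ↔ q.1 = 4) ∧ (p.1 = -4 ↔ q.1 = -4) := by
  refine ⟨h.1.1, ?_⟩
  have := h.2.1
  simp only [Prod.fst_neg] at this
  omega

theorem Gd.neg (h : Gd U L J p) : Gd L U J (-p) := by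
  rcases h with ⟨w, hw, rfl⟩ | ⟨T, rfl⟩ | ⟨T, rfl⟩
  · exact Or.inl ⟨-w, hw.neg, pw_neg.symm⟩
  · exact Or.inr (Or.inr ⟨T, rfl⟩)
  · exact Or.inr (Or.inl ⟨T, neg_neg _⟩)

theorem Gd.bd (h : Gd U L J p) : Bd p := by
  rcases h with ⟨w, hw, rfl⟩ | ⟨T, rfl⟩ | ⟨T, rfl⟩
  · refine ⟨⟨by unfold pw; norm_num, by unfold pw; norm_num⟩, fun i => lev_bd hw i⟩
  · refine ⟨⟨by rw [lo_fst], by rw [lo_fst]; norm_num⟩, fun i => ?_⟩
    have := lo_bd J T i
    omega
  · refine ⟨⟨?_, ?_⟩, fun i => ?_⟩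
    · rw [Prod.fst_neg, lo_fst]
      norm_num
    · rw [Prod.fst_neg, lo_fst]
      norm_num
    · have := lo_bd J T i
      rw [Prod.snd_neg, Pi.neg_apply]
      omega

theorem Gd.admU (h : Gd U L J p) : Adm U p := by
  rcases h with ⟨w, hw, rfl⟩ | ⟨T, rfl⟩ | ⟨T, rfl⟩
  · rintro b hb ⟨h1, h2⟩
    have e1 : (pw U L J w).1 = 0 := rfl
    rw [e1] at h1 h2
    rcases h1 with h1 | ⟨i, hi, h1⟩
    · omega
    rcases h2 with h2 | ⟨j, hj, h2⟩
    · omega
    have hiJ : i ∈ J := by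
      by_contra hc
      have := (lev_out (U := U) (L := L) (w := w) hc).2
      change lev U L J w i = 4 at h1
      omega
    have hjJ : j ∈ J := by
      by_contra hc
      have := (lev_out (U := U) (L := L) (w := w) hc).1
      change lev U L J w j = -4 at h2
      omega
    have e2 : (pw U L J w).2 i = w i := lev_mem hiJ
    have e3 : (pw U L J w).2 j = w j := lev_mem hjJ
    rw [e2] at h1
    rw [e3] at h2
    exact hw.ncU b hb i hi j hj hiJ hjJ h1 h2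
  · rintro b hb ⟨h1, h2⟩
    rcases h1 with h1 | ⟨i, hi, h1⟩
    · rw [lo_fst] at h1
      omega
    · have := (lo_bd J T i).2
      omega
  · rintro b hb ⟨h1, h2⟩
    rcases h2 with h2 | ⟨i, hi, h2⟩
    · rw [Prod.fst_neg, lo_fst] at h2
      omega
    · have := (lo_bd J T i).2
      rw [Prod.snd_neg, Pi.neg_apply] at h2
      omega

theorem Adm.neg (h : Adm L (-p)) : Adm L p := by
  rintro b hb ⟨h1, h2⟩
  refine h b hb ⟨?_, ?_⟩
  · rcases h2 with h2 | ⟨i, hi, h2⟩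
    · left
      rw [Prod.fst_neg]
      omega
    · right
      refine ⟨i, hi, ?_⟩
      rw [Prod.snd_neg, Pi.neg_apply]
      omega
  · rcases h1 with h1 | ⟨i, hi, h1⟩
    · left
      rw [Prod.fst_neg]
      omega
    · right
      refine ⟨i, hi, ?_⟩
      rw [Prod.snd_neg, Pi.neg_apply]
      omega

theorem Gd.admL (h : Gd U L J p) : Adm L p := h.neg.admU.neg

theorem Gd.fst (h : Gd U L J p) :
    (p.1 = 0 ∧ ∃ w, Val U L J w ∧ p = pw U L J w) ∨ (p.1 = -4 ∧ ∃ T, p = lo J T) ∨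
      (p.1 = 4 ∧ ∃ T, p = -lo J T) := by
  rcases h with ⟨w, hw, rfl⟩ | ⟨T, rfl⟩ | ⟨T, rfl⟩
  · exact Or.inl ⟨rfl, w, hw, rfl⟩
  · exact Or.inr (Or.inl ⟨rfl, T, rfl⟩)
  · exact Or.inr (Or.inr ⟨by rw [Prod.fst_neg, lo_fst, neg_neg], T, rfl⟩)

theorem lo_J {J' : Finset ι} (hJ : J ⊆ Y) (hJ' : J' ⊆ Y) (h : Same Y U L (lo J T) (lo J' T')) :
    J = J' := by
  have key : ∀ i ∈ Y, ((lo J T).2 i = -4 ↔ (lo J' T').2 i = -4) := by
    intro i hi
    have := h.2.2.1 i hi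
    simp only [Prod.snd_neg, Pi.neg_apply] at this
    omega
  have k2 : ∀ (K S : Finset ι) (i : ι), (lo K S).2 i = -4 ↔ i ∉ K := by
    intro K S i
    unfold lo
    dsimp only
    by_cases h : i ∈ K
    · rw [if_pos h]
      split_ifs <;> simp [h]
    · rw [if_neg h]
      simp [h]
  ext i
  constructor
  · intro hi
    by_contra hc
    exact (k2 J T i).1 ((key i (hJ hi)).2 ((k2 J' T' i).2 hc)) hi
  · intro hi
    by_contra hc
    exact (k2 J' T' i).1 ((key i (hJ' hi)).1 ((k2 J T i).2 hc)) hi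

/-- the support is determined -/
theorem Gd_J {J' : Finset ι} (hJ : J ⊆ Y) (hJ' : J' ⊆ Y) (hp : Gd U L J p) (hq : Gd U L J' q)
    (h : Same Y U L p q) : J = J' := by
  have hf := h.fst
  rcases hp.fst with ⟨h1, w, hw, rfl⟩ | ⟨h1, T, rfl⟩ | ⟨h1, T, rfl⟩
  · rcases hq.fst with ⟨h2, w', hw', rfl⟩ | ⟨h2, T', rfl⟩ | ⟨h2, T', rfl⟩
    · exact (word_info hJ hJ' hw hw' h).1
    · omega
    · omega
  · rcases hq.fst with ⟨h2, w', hw', rfl⟩ | ⟨h2, T', rfl⟩ | ⟨h2, T', rfl⟩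
    · omega
    · exact lo_J hJ hJ' h
    · omega
  · rcases hq.fst with ⟨h2, w', hw', rfl⟩ | ⟨h2, T', rfl⟩ | ⟨h2, T', rfl⟩
    · omega
    · omega
    · have := h.neg
      rw [neg_neg, neg_neg] at this
      exact lo_J hJ hJ' this

theorem PerJ.swap (h : PerJ Y L U J) : PerJ Y U L J := by
  obtain ⟨f, h1, h2⟩ := h
  refine ⟨fun E t => -f (cp J E) t, fun E _ t => (h1 _ (cp_sub J E) t).neg, ?_⟩
  intro E hE E' hE' t t' hs
  have := hs.neg
  rw [neg_neg, neg_neg] at this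
  obtain ⟨h3, h4⟩ := h2 _ (cp_sub J E) _ (cp_sub J E') t t' this
  exact ⟨cp_inj hE hE' h3, h4⟩

/-- assembly of a block from its third family -/
theorem perJ_of (hJ : J ⊆ Y) (f2 : Finset ι → ℤ × (ι → ℤ)) (g : Finset ι → ι → ℤ)
    (g1 : ∀ E ⊆ J, Val U L J (g E))
    (g2 : ∀ E ⊆ J, ∀ E' ⊆ J, Inv U L J (g E) (g E') → E = E')
    (g3 : ∀ E ⊆ J, ∀ E' ⊆ J, ¬ Inv U L J (g E) (G0 U L E'))
    (h2 : ∀ E ⊆ J, Gd U L J (f2 E))
    (hs : ∀ E ⊆ J, ∀ E' ⊆ J, Same Y U L (f2 E) (f2 E') → E = E')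
    (h0 : ∀ E ⊆ J, ∀ E' ⊆ J, ¬ Same Y U L (f2 E) (pw U L J (G0 U L E')))
    (h1 : ∀ E ⊆ J, ∀ E' ⊆ J, ¬ Same Y U L (f2 E) (pw U L J (g E'))) : PerJ Y U L J := by
  refine ⟨fun E t => if t = 0 then pw U L J (G0 U L E) else
    if t = 1 then pw U L J (g E) else f2 E, ?_, ?_⟩
  · intro E hE t
    change Gd U L J (if t = 0 then pw U L J (G0 U L E) else
      if t = 1 then pw U L J (g E) else f2 E)
    split_ifs
    · exact Or.inl ⟨_, val_G0 U L J E, rfl⟩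
    · exact Or.inl ⟨_, g1 E hE, rfl⟩
    · exact h2 E hE
  · intro E hE E' hE' t t' hsame
    change Same Y U L (if t = 0 then pw U L J (G0 U L E) else
      if t = 1 then pw U L J (g E) else f2 E) (if t' = 0 then pw U L J (G0 U L E') else
      if t' = 1 then pw U L J (g E') else f2 E') at hsame
    have ht : t = 0 ∨ t = 1 ∨ t = 2 := by
      fin_cases t <;> simp
    have ht' : t' = 0 ∨ t' = 1 ∨ t' = 2 := by
      fin_cases t' <;> simp
    rcases ht with rfl | rfl | rfl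
    · rw [if_pos rfl] at hsame
      rcases ht' with rfl | rfl | rfl
      · rw [if_pos rfl] at hsame
        have := (word_info hJ hJ (val_G0 U L J E) (val_G0 U L J E') hsame).2
        refine ⟨?_, rfl⟩
        ext i
        constructor
        · intro hi
          have h3 := (this.1 i (hE hi)).2.2.1
          rw [G0_pos, G0_pos] at h3
          exact h3.1 hi
        · intro hi
          have h3 := (this.1 i (hE' hi)).2.2.1
          rw [G0_pos, G0_pos] at h3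
          exact h3.2 hi
      · rw [if_neg (by decide), if_pos rfl] at hsame
        have := (word_info hJ hJ (val_G0 U L J E) (g1 E' hE') hsame).2
        exact absurd this.symm (g3 E' hE' E hE)
      · rw [if_neg (by decide), if_neg (by decide)] at hsame
        exact absurd hsame.symm (h0 E' hE' E hE)
    · rw [if_neg (by decide), if_pos rfl] at hsame
      rcases ht' with rfl | rfl | rfl
      · rw [if_pos rfl] at hsame
        have := (word_info hJ hJ (g1 E hE) (val_G0 U L J E') hsame).2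
        exact absurd this (g3 E hE E' hE')
      · rw [if_neg (by decide), if_pos rfl] at hsame
        have := (word_info hJ hJ (g1 E hE) (g1 E' hE') hsame).2
        exact ⟨g2 E hE E' hE' this, rfl⟩
      · rw [if_neg (by decide), if_neg (by decide)] at hsame
        exact absurd hsame.symm (h1 E' hE' E hE)
    · rw [if_neg (by decide), if_neg (by decide)] at hsame
      rcases ht' with rfl | rfl | rfl
      · rw [if_pos rfl] at hsame
        exact absurd hsame (h0 E hE E' hE')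
      · rw [if_neg (by decide), if_pos rfl] at hsame
        exact absurd hsame (h1 E hE E' hE')
      · rw [if_neg (by decide), if_neg (by decide)] at hsame
        exact ⟨hs E hE E' hE' hsame, rfl⟩

end

end Pool.Agent.K3B
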