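import Pool.Agent.K3B.Core

/-!
# The core count: all supports
-/

set_option autoImplicit false

namespace Pool.Agent.K3B

open Classical in
section

variable {ι : Type}

/-- third family in the connected case -/
noncomputable def fC (J E : Finset ι) : ℤ × (ι → ℤ) := if E = ∅ then -lo J ∅ else lo J E

/-- third family in the mixed case -/
noncomputable def fM (U L : Finset (Finset ι)) (J E : Finset ι) : ℤ × (ι → ℤ) :=
  if ∀ i ∈ E, ¬ cov U i then -lo J (pt L (cp J E)) else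
    if ∀ i ∈ J, cov L i → i ∈ E then lo J (pt U E) else pw U L J (-Xw L U J (cp J E))

end

section

variable {ι : Type} {U L : Finset (Finset ι)} {Y J C E E' F S S' T T' : Finset ι} {i z : ι}
  {w v w' v' : ι → ℤ} {p q : ℤ × (ι → ℤ)}

theorem not_same_lo_pw : ¬ Same Y U L (lo J T) (pw U L J w) := by
  intro h
  have := h.fst.2.1 rfl
  have e : (pw U L J w).1 = 0 := rfl
  omega

theorem not_same_hi_pw : ¬ Same Y U L (-lo J T) (pw U L J w) := by
  intro h
  have := h.fst.1.1 (by rw [Prod.fst_neg, lo_fst, neg_neg])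
  have e : (pw U L J w).1 = 0 := rfl
  omega

theorem not_same_lo_hi : ¬ Same Y U L (lo J T) (-lo J T') := by
  intro h
  have := h.fst.2.1 rfl
  rw [Prod.fst_neg, lo_fst] at this
  omega

theorem lo_sub (hcn : Cn U J) (hT' : T' ⊆ J) (hne : T'.Nonempty)
    (h : Info Y U (lo J T) (lo J T')) (hT : T ⊆ J) : T ⊆ T' := by
  classical
  intro i hi
  by_contra hi'
  have hcl : Cl U J (T \ T') := by
    rintro b hb ⟨k, hk, hkD⟩ j hj hjJ
    rw [Finset.mem_sdiff] at hkD ⊢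
    exact lo_cl h hkD.1 hkD.2 (hT hkD.1) hb hk hj hjJ
  have h1 := hcn.2 (T \ T') (Finset.sdiff_subset.trans hT)
    ⟨i, Finset.mem_sdiff.2 ⟨hi, hi'⟩⟩ hcl
  obtain ⟨k, hk⟩ := hne
  have h2 := hT' hk
  rw [← h1, Finset.mem_sdiff] at h2
  exact h2.2 hk

theorem perJ_cn (hJ : J ⊆ Y) (hne : J.Nonempty) (hcn : Cn U J) : PerJ Y U L J := by
  obtain ⟨g, g1, g2, g3⟩ := alt_all (L := L) hne fun i hi => Or.inl (hcn.1 i hi)
  refine perJ_of hJ (fC J) g g1 g2 g3 ?_ ?_ ?_ ?_
  · intro E _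
    unfold fC
    split_ifs
    · exact Or.inr (Or.inr ⟨∅, rfl⟩)
    · exact Or.inr (Or.inl ⟨E, rfl⟩)
  · intro E hE E' hE' hs
    unfold fC at hs
    by_cases h1 : E = ∅
    · by_cases h2 : E' = ∅
      · rw [h1, h2]
      · rw [if_pos h1, if_neg h2] at hs
        exact absurd hs.symm not_same_lo_hi
    · by_cases h2 : E' = ∅
      · rw [if_neg h1, if_pos h2] at hs
        exact absurd hs not_same_lo_hi
      · rw [if_neg h1, if_neg h2] at hs
        exact Finset.Subset.antisymm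
          (lo_sub hcn hE' (Finset.nonempty_iff_ne_empty.2 h2) hs.1 hE)
          (lo_sub hcn hE (Finset.nonempty_iff_ne_empty.2 h1) hs.symm.1 hE')
  · intro E _ E' _
    unfold fC
    split_ifs
    · exact not_same_hi_pw
    · exact not_same_lo_pw
  · intro E _ E' _
    unfold fC
    split_ifs
    · exact not_same_hi_pw
    · exact not_same_lo_pw

theorem Inv.sg (h : Inv U L J w w') : Sg J w w' := h.1

theorem G0_ne2 : G0 U L E i ≠ 2 ∧ G0 U L E i ≠ -2 := by
  rcases G0_cases U L E i with ⟨-, -, h'⟩ | ⟨-, -, h'⟩ | ⟨-, -, h'⟩ | ⟨-, -, h'⟩ <;> omega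

theorem Wp_ne2 : Wp U L C E i ≠ 2 ∧ Wp U L C E i ≠ -2 := by
  rcases Wp_cases U L C E i with ⟨-, -, -, h⟩ | ⟨-, -, -, h⟩ | ⟨-, -, h⟩ | ⟨-, h⟩
  · omega
  · omega
  · omega
  · rw [h]
    exact G0_ne2

theorem G0_congr (h : i ∈ E ↔ i ∈ E') : G0 U L E i = G0 U L E' i := by
  unfold G0
  by_cases h1 : i ∈ E
  · rw [if_pos h1, if_pos (h.1 h1)]
  · rw [if_neg h1, if_neg fun h2 => h1 (h.2 h2)]

theorem perJ_pure (hJ : J ⊆ Y) (hc : ∀ i ∈ J, cov U i ∨ cov L i) (hC : C ⊆ J)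
    (hCne : C.Nonempty) (hCL : ∀ i ∈ C, ¬ cov L i) (hcl : Cl U J C) (hCJ : C ≠ J) :
    PerJ Y U L J := by
  have hCU : ∀ i ∈ C, cov U i := fun i hi => (hc i (hC hi)).resolve_right (hCL i hi)
  have hclL : Cl L J C := by
    rintro b hb ⟨i, hi, hiC⟩
    exact absurd ⟨b, hb, hi⟩ (hCL i hiC)
  have hRne : (cp J C).Nonempty := by
    by_contra h
    rw [Finset.not_nonempty_iff_eq_empty] at h
    apply hCJ
    refine Finset.Subset.antisymm hC fun i hi => ?_
    by_contra hiC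
    have : i ∈ cp J C := mem_cp.2 ⟨hi, hiC⟩
    rw [h] at this
    exact absurd this (Finset.notMem_empty i)
  obtain ⟨g, g1, g2, g3⟩ := alt_all (U := U) (L := L) hRne
    fun i hi => hc i (mem_cp.1 hi).1
  have hsubR : ∀ E ⊆ J, cp E C ⊆ cp J C := fun E hE i hi =>
    mem_cp.2 ⟨hE (mem_cp.1 hi).1, (mem_cp.1 hi).2⟩
  have hval : ∀ E ⊆ J, Val U L J (mix C (G0 U L E) (g (cp E C))) := fun E hE =>
    val_mix hC hcl hclL (val_G0 U L C E) (g1 _ (hsubR E hE))
  refine perJ_of hJ (fun E => pw U L J (mix C (G0 U L E) (g (cp E C)))) (Wp U L C)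
    (fun _ _ => val_Wp hCL hCU hcl) (fun _ hE _ hE' hI => Wp_Wp hC hE hE' hI.1)
    (fun _ _ _ _ hI => Wp_G0 hCne hCU fun i hi => hI.1 i (hC hi)) ?_ ?_ ?_ ?_
  · intro E hE
    exact Or.inl ⟨_, hval E hE, rfl⟩
  · intro E hE E' hE' hs
    have hI := (word_info hJ hJ (hval E hE) (hval E' hE') hs).2
    obtain ⟨h1, h2⟩ := inv_mix hC hcl hclL (fun i _ => G0_ne2) (fun i _ => G0_ne2) hI
    have h3 := g2 _ (hsubR E hE) _ (hsubR E' hE') h2
    ext i
    by_cases hiC : i ∈ C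
    · have := (h1 i hiC).2.2.1
      rwa [G0_pos, G0_pos] at this
    · constructor
      · intro hi
        have : i ∈ cp E C := mem_cp.2 ⟨hi, hiC⟩
        rw [h3] at this
        exact (mem_cp.1 this).1
      · intro hi
        have : i ∈ cp E' C := mem_cp.2 ⟨hi, hiC⟩
        rw [← h3] at this
        exact (mem_cp.1 this).1
  · intro E hE E' hE' hs
    have hI := (word_info hJ hJ (hval E hE) (val_G0 U L J E') hs).2
    rw [← mix_self (C := C) (w := G0 U L E')] at hI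
    obtain ⟨-, h2⟩ := inv_mix hC hcl hclL (fun i _ => G0_ne2) (fun i _ => G0_ne2) hI
    refine g3 _ (hsubR E hE) _ (hsubR E' hE') (Inv_congr ?_ h2)
    intro i hi
    exact G0_congr (by rw [mem_cp]; exact ⟨fun h => ⟨h, (mem_cp.1 hi).2⟩, fun h => h.1⟩)
  · intro E hE E' hE' hs
    have hI := (word_info hJ hJ (hval E hE) (val_Wp hCL hCU hcl) hs).2
    rw [← mix_self (C := C) (w := Wp U L C E')] at hI
    obtain ⟨h1, -⟩ := inv_mix hC hcl hclL (fun i _ => G0_ne2) (fun i _ => Wp_ne2) hI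
    refine Wp_G0 (U := U) (L := L) (E := E') (E' := E) hCne hCU fun i hi => ?_
    have := h1 i hi
    exact ⟨this.1.symm, this.2.1.symm, this.2.2.1.symm, this.2.2.2.symm⟩

/-- the three cases of the third family -/
theorem fM_cases (U L : Finset (Finset ι)) (J E : Finset ι) :
    ((∀ i ∈ E, ¬ cov U i) ∧ fM U L J E = -lo J (pt L (cp J E))) ∨
    ((∃ i ∈ E, cov U i) ∧ (∀ i ∈ J, cov L i → i ∈ E) ∧ fM U L J E = lo J (pt U E)) ∨
    ((∃ i ∈ E, cov U i) ∧ (∃ i ∈ J, cov L i ∧ i ∉ E) ∧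
      fM U L J E = pw U L J (-Xw L U J (cp J E))) := by
  unfold fM
  by_cases h1 : ∀ i ∈ E, ¬ cov U i
  · exact Or.inl ⟨h1, if_pos h1⟩
  · rw [if_neg h1]
    push Not at h1
    by_cases h2 : ∀ i ∈ J, cov L i → i ∈ E
    · exact Or.inr (Or.inl ⟨h1, h2, if_pos h2⟩)
    · rw [if_neg h2]
      push Not at h2
      exact Or.inr (Or.inr ⟨h1, h2, rfl⟩)

/-- low points in the mixed case -/
theorem lo_np (hNp : Np U L J) (hJc : ∀ i ∈ J, cov U i ∨ cov L i) (hE : E ⊆ J) (_hE' : E' ⊆ J)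
    (_h1 : ∀ i ∈ J, cov L i → i ∈ E) (h2 : ∀ i ∈ J, cov L i → i ∈ E')
    (h : Info Y U (lo J (pt U E)) (lo J (pt U E'))) : E ⊆ E' := by
  classical
  intro i hi
  by_cases hcU : cov U i
  · by_contra hi'
    apply hNp
    refine ⟨pt U E \ pt U E', ?_, ⟨i, ?_⟩, ?_, ?_⟩
    · intro k hk
      exact hE (mem_pt.1 (Finset.mem_sdiff.1 hk).1).1
    · exact Finset.mem_sdiff.2 ⟨mem_pt.2 ⟨hi, hcU⟩, fun h' => hi' (mem_pt.1 h').1⟩
    · intro k hk hkL
      obtain ⟨hk1, hk2⟩ := Finset.mem_sdiff.1 hk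
      rw [mem_pt] at hk1 hk2
      exact hk2 ⟨h2 k (hE hk1.1) hkL, hk1.2⟩
    · rintro b hb ⟨k, hk, hkD⟩ j hj hjJ
      rw [Finset.mem_sdiff] at hkD ⊢
      exact lo_cl h hkD.1 hkD.2 (hE (mem_pt.1 hkD.1).1) hb hk hj hjJ
  · exact h2 i (hE hi) ((hJc i (hE hi)).resolve_left hcU)

theorem perJ_mixed (hJ : J ⊆ Y) (hc : ∀ i ∈ J, cov U i ∨ cov L i) (h1 : Np U L J)
    (h2 : Np L U J) (hne : J.Nonempty) (hU2 : ∀ z, ∃ j ∈ J, cov U j ∧ j ≠ z)
    (hL2 : ∀ z, ∃ j ∈ J, cov L j ∧ j ≠ z) : PerJ Y U L J := by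
  obtain ⟨a, ha, haU, haL⟩ := h1.common h2 hne hc
  have hX : ∀ E ⊆ J, IsX L U J (cp J E) (Xw L U J (cp J E)) := fun E _ =>
    isX_Xw (cp_sub J E)
  have hXval : ∀ E ⊆ J, Val U L J (-Xw L U J (cp J E)) := fun E hE =>
    ((hX E hE).val (cp_sub J E)).neg
  have hcov' : ∀ i ∈ J, cov L i ∨ cov U i := fun i hi => (hc i hi).symm
  refine perJ_of hJ (fM U L J) (A1 U L J) (fun E hE => A1_val hc hE)
    (fun E hE E' hE' hI => A1_inj ⟨a, ha, haU⟩ ⟨a, ha, haL⟩ hU2 hE hE' hI)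
    (fun E hE E' _ => A1_G0 ⟨a, ha, haU⟩ ⟨a, ha, haL⟩ hE) ?_ ?_ ?_ ?_
  · intro E hE
    rcases fM_cases U L J E with ⟨-, h⟩ | ⟨-, -, h⟩ | ⟨-, -, h⟩
    · rw [h]
      exact Or.inr (Or.inr ⟨_, rfl⟩)
    · rw [h]
      exact Or.inr (Or.inl ⟨_, rfl⟩)
    · rw [h]
      exact Or.inl ⟨_, hXval E hE, rfl⟩
  · intro E hE E' hE' hs
    rcases fM_cases U L J E with ⟨h3, h⟩ | ⟨-, h3, h⟩ | ⟨-, -, h⟩
    · rcases fM_cases U L J E' with ⟨h3', h'⟩ | ⟨-, h3', h'⟩ | ⟨-, -, h'⟩
      · rw [h, h'] at hs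
        have hs' := hs.neg
        rw [neg_neg, neg_neg] at hs'
        have k1 : ∀ i ∈ J, cov U i → i ∈ cp J E := fun i hi hci =>
          mem_cp.2 ⟨hi, fun hiE => h3 i hiE hci⟩
        have k2 : ∀ i ∈ J, cov U i → i ∈ cp J E' := fun i hi hci =>
          mem_cp.2 ⟨hi, fun hiE => h3' i hiE hci⟩
        exact cp_inj hE hE' (Finset.Subset.antisymm
          (lo_np h2 hcov' (cp_sub J E) (cp_sub J E') k1 k2 hs'.1)
          (lo_np h2 hcov' (cp_sub J E') (cp_sub J E) k2 k1 hs'.symm.1))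
      · rw [h, h'] at hs
        exact absurd hs.symm not_same_lo_hi
      · rw [h, h'] at hs
        exact absurd hs not_same_hi_pw
    · rcases fM_cases U L J E' with ⟨h3', h'⟩ | ⟨-, h3', h'⟩ | ⟨-, -, h'⟩
      · rw [h, h'] at hs
        exact absurd hs not_same_lo_hi
      · rw [h, h'] at hs
        exact Finset.Subset.antisymm (lo_np h1 hc hE hE' h3 h3' hs.1)
          (lo_np h1 hc hE' hE h3' h3 hs.symm.1)
      · rw [h, h'] at hs
        exact absurd hs not_same_lo_pw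
    · rcases fM_cases U L J E' with ⟨h3', h'⟩ | ⟨-, h3', h'⟩ | ⟨-, -, h'⟩
      · rw [h, h'] at hs
        exact absurd hs.symm not_same_hi_pw
      · rw [h, h'] at hs
        exact absurd hs.symm not_same_lo_pw
      · rw [h, h'] at hs
        have hI := (word_info hJ hJ (hXval E hE) (hXval E' hE') hs).2.neg
        rw [neg_neg, neg_neg] at hI
        exact cp_inj hE hE' (X_X (cp_sub J E) (cp_sub J E') (hX E hE) (hX E' hE') hI)
  · intro E hE E' hE' hs
    rcases fM_cases U L J E with ⟨h3, h⟩ | ⟨-, h3, h⟩ | ⟨-, h3, h⟩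
    · rw [h] at hs
      exact not_same_hi_pw hs
    · rw [h] at hs
      exact not_same_lo_pw hs
    · rw [h] at hs
      have hI := (word_info hJ hJ (hXval E hE) (val_G0 U L J E') hs).2.neg
      rw [neg_neg] at hI
      obtain ⟨i, hi, hci, hiE⟩ := h3
      refine X_G0 (E' := cp J E') (cp_sub J E) ⟨i, mem_cp.2 ⟨hi, hiE⟩, hci⟩ (hX E hE)
        (Inv_congr ?_ hI)
      intro k hk
      rw [G0_cp hk]
      rfl
  · intro E hE E' hE' hs
    rcases fM_cases U L J E with ⟨h3, h⟩ | ⟨-, h3, h⟩ | ⟨h4, h3, h⟩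
    · rw [h] at hs
      exact not_same_hi_pw hs
    · rw [h] at hs
      exact not_same_lo_pw hs
    · rw [h] at hs
      have hI := (word_info hJ hJ (hXval E hE) (A1_val hc hE') hs).2
      rcases A1_cases (U := U) (L := L) hE' with ⟨-, h5⟩ | ⟨-, -, h5⟩ | ⟨-, h6, h5⟩
      · rw [h5] at hI
        have := hI.neg
        rw [neg_neg] at this
        exact X_F1 ⟨a, ha, haU⟩ (hX E hE) this
      · rw [h5] at hI
        have := hI.neg
        rw [neg_neg, neg_neg] at this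
        exact X_Wf (cp_sub J E) ⟨a, ha, haL⟩ hL2 (hX E hE) this
      · refine X_X2 hE' (cp_sub J E) h6 ?_ h5 (hX E hE) hI.symm
        obtain ⟨i, hi, hci⟩ := h4
        exact ⟨i, hE hi, hci, fun h7 => (mem_cp.1 h7).2 hi⟩

theorem cn_of (h1 : Np U L J) (h2 : Np L U J) (hne : J.Nonempty)
    (hc : ∀ i ∈ J, cov U i ∨ cov L i) (hy : ∃ y, ∀ j ∈ J, cov L j → j = y) : Cn U J := by
  obtain ⟨a, ha, haU, haL⟩ := h1.common h2 hne hc
  obtain ⟨y, hy⟩ := hy
  have hay := hy a ha haL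
  have hLa : ∀ j ∈ J, cov L j → j = a := fun j hj hjL => (hy j hj hjL).trans hay.symm
  have hcU : ∀ i ∈ J, cov U i := by
    intro i hi
    rcases hc i hi with h | h
    · exact h
    · rw [hLa i hi h]
      exact haU
  refine ⟨hcU, fun C hC hCne hcl => ?_⟩
  have haC : a ∈ C := by
    by_contra haC
    exact h1 ⟨C, hC, hCne, fun i hi hiL => haC (by rw [← hLa i (hC hi) hiL]; exact hi), hcl⟩
  refine Finset.Subset.antisymm hC fun i hi => ?_
  by_contra hiC
  refine h1 ⟨cp J C, cp_sub J C, ⟨i, mem_cp.2 ⟨hi, hiC⟩⟩, ?_, ?_⟩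
  · intro k hk hkL
    have := hLa k (mem_cp.1 hk).1 hkL
    exact (mem_cp.1 hk).2 (this ▸ haC)
  · rintro b hb ⟨k, hk, hkR⟩ j hj hjJ
    refine mem_cp.2 ⟨hjJ, fun hjC => ?_⟩
    exact (mem_cp.1 hkR).2 (hcl b hb ⟨j, hj, hjC⟩ k hk (mem_cp.1 hkR).1)

theorem perJ_empty : PerJ Y U L (∅ : Finset ι) := by
  refine ⟨fun _ t => if t = 0 then pw U L ∅ 0 else if t = 1 then lo ∅ ∅ else -lo ∅ ∅, ?_, ?_⟩
  · intro E _ t
    change Gd U L ∅ (if t = 0 then pw U L ∅ 0 else if t = 1 then lo ∅ ∅ else -lo ∅ ∅)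
    split_ifs
    · refine Or.inl ⟨0, ⟨?_, ?_, ?_, ?_, ?_, ?_⟩, rfl⟩
      · intro i hi
        exact absurd hi (Finset.notMem_empty i)
      · intro b _ i _ j _ hi
        exact absurd hi (Finset.notMem_empty i)
      · intro b _ i _ j _ hi
        exact absurd hi (Finset.notMem_empty i)
      · intro i hi
        exact absurd hi (Finset.notMem_empty i)
      · intro i hi
        exact absurd hi (Finset.notMem_empty i)
      · intro i hi
        exact absurd hi (Finset.notMem_empty i)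
    · exact Or.inr (Or.inl ⟨∅, rfl⟩)
    · exact Or.inr (Or.inr ⟨∅, rfl⟩)
  · intro E hE E' hE' t t' hs
    rw [Finset.subset_empty] at hE hE'
    refine ⟨by rw [hE, hE'], ?_⟩
    change Same Y U L (if t = 0 then pw U L ∅ 0 else if t = 1 then lo ∅ ∅ else -lo ∅ ∅)
      (if t' = 0 then pw U L ∅ 0 else if t' = 1 then lo ∅ ∅ else -lo ∅ ∅) at hs
    have ht : t = 0 ∨ t = 1 ∨ t = 2 := by
      fin_cases t <;> simp
    have ht' : t' = 0 ∨ t' = 1 ∨ t' = 2 := by
      fin_cases t' <;> simp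
    rcases ht with rfl | rfl | rfl
    · rw [if_pos rfl] at hs
      rcases ht' with rfl | rfl | rfl
      · rfl
      · rw [if_neg (by decide), if_pos rfl] at hs
        exact absurd hs.symm not_same_lo_pw
      · rw [if_neg (by decide), if_neg (by decide)] at hs
        exact absurd hs.symm not_same_hi_pw
    · rw [if_neg (by decide), if_pos rfl] at hs
      rcases ht' with rfl | rfl | rfl
      · rw [if_pos rfl] at hs
        exact absurd hs not_same_lo_pw
      · rfl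
      · rw [if_neg (by decide), if_neg (by decide)] at hs
        exact absurd hs not_same_lo_hi
    · rw [if_neg (by decide), if_neg (by decide)] at hs
      rcases ht' with rfl | rfl | rfl
      · rw [if_pos rfl] at hs
        exact absurd hs not_same_hi_pw
      · rw [if_neg (by decide), if_pos rfl] at hs
        exact absurd hs.symm not_same_lo_hi
      · rfl

/-- every support has a full block -/
theorem perJ_all (hJ : J ⊆ Y) (hc : ∀ i ∈ J, cov U i ∨ cov L i) : PerJ Y U L J := by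
  rcases J.eq_empty_or_nonempty with rfl | hne
  · exact perJ_empty
  by_cases hcU : Cn U J
  · exact perJ_cn hJ hne hcU
  by_cases hcL : Cn L J
  · exact (perJ_cn hJ hne hcL).swap
  have hcov' : ∀ i ∈ J, cov L i ∨ cov U i := fun i hi => (hc i hi).symm
  have main : ∀ A B : Finset (Finset ι), (∀ i ∈ J, cov A i ∨ cov B i) → ¬ Cn A J →
      ¬ Np A B J → PerJ Y A B J := by
    intro A B hcAB hcn hnp
    unfold Np at hnp
    push Not at hnp
    obtain ⟨C, hC, hCne, hCL, hcl⟩ := hnp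
    by_cases hCJ : C = J
    · have hcA : ∀ i ∈ J, cov A i := fun i hi =>
        (hcAB i hi).resolve_right (hCL i (hCJ ▸ hi))
      unfold Cn at hcn
      push Not at hcn
      obtain ⟨D, hD, hDne, hDcl, hDJ⟩ := hcn hcA
      exact perJ_pure hJ hcAB hD hDne (fun i hi => hCL i (by rw [hCJ]; exact hD hi)) hDcl hDJ
    · exact perJ_pure hJ hcAB hC hCne hCL hcl hCJ
  by_cases h1 : Np U L J
  · by_cases h2 : Np L U J
    · refine perJ_mixed hJ hc h1 h2 hne ?_ ?_
      · by_contra h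
        push Not at h
        exact hcL (cn_of h2 h1 hne hcov' h)
      · by_contra h
        push Not at h
        exact hcU (cn_of h1 h2 hne hc h)
    · exact (main L U hcov' hcL h2).swap
  · exact main U L hc hcU h1

/-- the core count, covered case -/
theorem core_cov (Y : Finset ι) (hc : ∀ i ∈ Y, cov U i ∨ cov L i) :
    ∃ f : Fin (3 ^ (Y.card + 1)) → ℤ × (ι → ℤ), (∀ k, Bd (f k) ∧ Adm U (f k) ∧ Adm L (f k)) ∧
      ∀ k k', Same Y U L (f k) (f k') → k = k' := by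
  classical
  have h1 : ∀ J : Finset ι, ∃ f : Finset ι → Fin 3 → ℤ × (ι → ℤ), J ⊆ Y →
      (∀ E ⊆ J, ∀ t, Gd U L J (f E t)) ∧
      ∀ E ⊆ J, ∀ E' ⊆ J, ∀ t t', Same Y U L (f E t) (f E' t') → E = E' ∧ t = t' := by
    intro J
    by_cases hJ : J ⊆ Y
    · obtain ⟨f, hf⟩ := perJ_all (U := U) (L := L) hJ fun i hi => hc i (hJ hi)
      exact ⟨f, fun _ => hf⟩
    · exact ⟨fun _ _ => 0, fun h => absurd h hJ⟩
  choose f hf using h1
  set T : Finset ((Σ _ : Finset ι, Finset ι) × Fin 3) :=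
    (Y.powerset.sigma fun J => J.powerset) ×ˢ (Finset.univ : Finset (Fin 3)) with hT
  have hcard : T.card = 3 ^ (Y.card + 1) := by
    rw [hT, Finset.card_product, Finset.card_sigma, Finset.card_univ, Fintype.card_fin, pow_succ]
    congr 1
    have h2 := Finset.sum_pow_mul_eq_add_pow (2 : ℕ) 1 Y
    rw [show (2 : ℕ) + 1 = 3 from rfl] at h2
    rw [← h2]
    refine Finset.sum_congr rfl fun J _ => ?_
    rw [Finset.card_powerset, one_pow, mul_one]
  have hmem : ∀ x ∈ T, x.1.1 ⊆ Y ∧ x.1.2 ⊆ x.1.1 := by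
    intro x hx
    rw [hT, Finset.mem_product, Finset.mem_sigma, Finset.mem_powerset, Finset.mem_powerset] at hx
    exact hx.1
  let e := T.equivFinOfCardEq hcard
  refine ⟨fun k => f (e.symm k).1.1.1 (e.symm k).1.1.2 (e.symm k).1.2, ?_, ?_⟩
  · intro k
    obtain ⟨hx1, hx2⟩ := hmem _ (e.symm k).2
    have := (hf _ hx1).1 _ hx2 (e.symm k).1.2
    exact ⟨this.bd, this.admU, this.admL⟩
  · intro k k' hs
    obtain ⟨hx1, hx2⟩ := hmem _ (e.symm k).2
    obtain ⟨hy1, hy2⟩ := hmem _ (e.symm k').2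
    have hg := (hf _ hx1).1 _ hx2 (e.symm k).1.2
    have hg' := (hf _ hy1).1 _ hy2 (e.symm k').1.2
    have hJJ := Gd_J hx1 hy1 hg hg' hs
    have key : ∀ x y : (Σ _ : Finset ι, Finset ι) × Fin 3, x.1.1 ⊆ Y → x.1.2 ⊆ x.1.1 →
        y.1.2 ⊆ y.1.1 → x.1.1 = y.1.1 →
        Same Y U L (f x.1.1 x.1.2 x.2) (f y.1.1 y.1.2 y.2) → x = y := by
      rintro ⟨⟨J, E⟩, t⟩ ⟨⟨J', E'⟩, t'⟩ h2 h3 h4 h5 h6
      dsimp only at h2 h3 h4 h5 h6
      subst h5
      obtain ⟨h7, h8⟩ := (hf J h2).2 E h3 E' h4 t t' h6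
      rw [h7, h8]
    exact e.symm.injective (Subtype.ext (key _ _ hx1 hx2 hy2 hJJ hs))

/-- one more element which is in no set of the families -/
theorem core_step {Y : Finset ι} {y : ι} (hy : y ∉ Y) (hU : ∀ b ∈ U, y ∉ b) (hL : ∀ b ∈ L, y ∉ b)
    {n : ℕ} (h : ∃ f : Fin n → ℤ × (ι → ℤ), (∀ k, Bd (f k) ∧ Adm U (f k) ∧ Adm L (f k)) ∧
      ∀ k k', Same Y U L (f k) (f k') → k = k') :
    ∃ f : Fin (n * 3) → ℤ × (ι → ℤ), (∀ k, Bd (f k) ∧ Adm U (f k) ∧ Adm L (f k)) ∧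
      ∀ k k', Same (Finset.cons y Y hy) U L (f k) (f k') → k = k' := by
  classical
  obtain ⟨f, h1, h2⟩ := h
  let c : Fin 3 → ℤ := fun s => if s = 0 then 0 else if s = 1 then 4 else -4
  have hc : ∀ s, c s = 0 ∨ c s = 4 ∨ c s = -4 := by
    intro s
    fin_cases s
    · exact Or.inl rfl
    · exact Or.inr (Or.inl rfl)
    · exact Or.inr (Or.inr rfl)
  have hcinj : ∀ s s', (c s = 4 ↔ c s' = 4) → (c s = -4 ↔ c s' = -4) → s = s' := by
    intro s s'
    fin_cases s <;> fin_cases s' <;> simp [c]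
  let F : Fin n → Fin 3 → ℤ × (ι → ℤ) := fun k s => ((f k).1, Function.update (f k).2 y (c s))
  have hF2 : ∀ k s i, i ≠ y → (F k s).2 i = (f k).2 i := fun k s i hi =>
    Function.update_of_ne hi _ _
  have hFy : ∀ k s, (F k s).2 y = c s := by
    intro k s
    change Function.update (f k).2 y (c s) y = c s
    exact Function.update_self ..
  have hF1 : ∀ k s, (F k s).1 = (f k).1 := fun k s => rfl
  have htop0 : ∀ (b : Finset ι), y ∉ b → ∀ k s, top0 (F k s) b ↔ top0 (f k) b := by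
    intro b hb k s
    unfold top0
    refine forall₂_congr fun j hj => ?_
    rw [hF2 k s j fun h' => hb (h' ▸ hj), hF1]
  have htopE : ∀ (b : Finset ι), y ∉ b → ∀ k s, ∀ i ∈ b, topE (F k s) b i ↔ topE (f k) b i := by
    intro b hb k s i hi
    unfold topE
    rw [hF2 k s i fun h' => hb (h' ▸ hi), hF1]
    refine and_congr Iff.rfl (and_congr Iff.rfl (forall₂_congr fun j hj => ?_))
    rw [hF2 k s j fun h' => hb (h' ▸ hj)]
  have htop0' : ∀ (b : Finset ι), y ∉ b → ∀ k s, top0 (-F k s) b ↔ top0 (-f k) b := by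
    intro b hb k s
    unfold top0
    refine forall₂_congr fun j hj => ?_
    simp only [Prod.snd_neg, Prod.fst_neg, Pi.neg_apply]
    rw [hF2 k s j fun h' => hb (h' ▸ hj), hF1]
  have htopE' : ∀ (b : Finset ι), y ∉ b → ∀ k s, ∀ i ∈ b,
      topE (-F k s) b i ↔ topE (-f k) b i := by
    intro b hb k s i hi
    unfold topE
    simp only [Prod.snd_neg, Prod.fst_neg, Pi.neg_apply]
    rw [hF2 k s i fun h' => hb (h' ▸ hi), hF1]
    refine and_congr Iff.rfl (and_congr Iff.rfl (forall₂_congr fun j hj => ?_))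
    rw [hF2 k s j fun h' => hb (h' ▸ hj)]
  have hadm : ∀ (H : Finset (Finset ι)), (∀ b ∈ H, y ∉ b) → ∀ k s, Adm H (f k) →
      Adm H (F k s) := by
    rintro H hH k s hA b hb ⟨h3, h4⟩
    refine hA b hb ⟨?_, ?_⟩
    · rcases h3 with h3 | ⟨i, hi, h3⟩
      · exact Or.inl h3
      · rw [hF2 k s i fun h' => hH b hb (h' ▸ hi)] at h3
        exact Or.inr ⟨i, hi, h3⟩
    · rcases h4 with h4 | ⟨i, hi, h4⟩
      · exact Or.inl h4
      · rw [hF2 k s i fun h' => hH b hb (h' ▸ hi)] at h4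
        exact Or.inr ⟨i, hi, h4⟩
  refine ⟨fun k => F (finProdFinEquiv.symm k).1 (finProdFinEquiv.symm k).2, ?_, ?_⟩
  · intro k
    obtain ⟨⟨h3, h4⟩, h5, h6⟩ := h1 (finProdFinEquiv.symm k).1
    refine ⟨⟨h3, fun i => ?_⟩, hadm U hU _ _ h5, hadm L hL _ _ h6⟩
    by_cases hi : i = y
    · rw [hi, hFy]
      rcases hc (finProdFinEquiv.symm k).2 with h | h | h <;> rw [h] <;> norm_num
    · rw [hF2 _ _ _ hi]
      exact h4 i
  · intro k k' hs
    obtain ⟨⟨a1, a2, a3⟩, a4, a5, a6⟩ := hs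
    have e1 : (finProdFinEquiv.symm k).1 = (finProdFinEquiv.symm k').1 := by
      refine h2 _ _ ⟨⟨a1, ?_, ?_⟩, a4, ?_, ?_⟩
      · intro i hi
        have hiy : i ≠ y := fun h' => hy (h' ▸ hi)
        have := a2 i (Finset.mem_cons.2 (Or.inr hi))
        rwa [hF2 _ _ _ hiy, hF2 _ _ _ hiy] at this
      · intro b hb
        have := a3 b hb
        rw [htop0 b (hU b hb), htop0 b (hU b hb)] at this
        refine ⟨this.1, fun i hi => ?_⟩
        have h3 := this.2 i hi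
        rwa [htopE b (hU b hb) _ _ i hi, htopE b (hU b hb) _ _ i hi] at h3
      · intro i hi
        have hiy : i ≠ y := fun h' => hy (h' ▸ hi)
        have := a5 i (Finset.mem_cons.2 (Or.inr hi))
        simp only [Prod.snd_neg, Pi.neg_apply] at this ⊢
        rwa [hF2 _ _ _ hiy, hF2 _ _ _ hiy] at this
      · intro b hb
        have := a6 b hb
        rw [htop0' b (hL b hb), htop0' b (hL b hb)] at this
        refine ⟨this.1, fun i hi => ?_⟩
        have h3 := this.2 i hi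
        rwa [htopE' b (hL b hb) _ _ i hi, htopE' b (hL b hb) _ _ i hi] at h3
    have e2 : (finProdFinEquiv.symm k).2 = (finProdFinEquiv.symm k').2 := by
      have b1 := a2 y (Finset.mem_cons_self y Y)
      have b2 := a5 y (Finset.mem_cons_self y Y)
      simp only [Prod.snd_neg, Pi.neg_apply] at b2
      rw [hFy, hFy] at b1 b2
      exact hcinj _ _ b1 (by omega)
    exact finProdFinEquiv.symm.injective (Prod.ext e1 e2)

/-- the core count -/
theorem core (U L : Finset (Finset ι)) (Y : Finset ι) :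
    ∃ f : Fin (3 ^ (Y.card + 1)) → ℤ × (ι → ℤ), (∀ k, Bd (f k) ∧ Adm U (f k) ∧ Adm L (f k)) ∧
      ∀ k k', Same Y U L (f k) (f k') → k = k' := by
  classical
  have main : ∀ Z : Finset ι, (∀ i ∈ Z, ¬ (cov U i ∨ cov L i)) →
      ∀ Y' : Finset ι, (∀ i ∈ Y', cov U i ∨ cov L i) →
      ∃ f : Fin (3 ^ ((Y' ∪ Z).card + 1)) → ℤ × (ι → ℤ),
        (∀ k, Bd (f k) ∧ Adm U (f k) ∧ Adm L (f k)) ∧
        ∀ k k', Same (Y' ∪ Z) U L (f k) (f k') → k = k' := by
    intro Z
    induction Z using Finset.induction_on with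
    | empty =>
      intro _ Y' hY'
      rw [Finset.union_empty]
      exact core_cov Y' hY'
    | insert z Z hz ih =>
      intro hZ Y' hY'
      have h1 := ih (fun i hi => hZ i (Finset.mem_insert_of_mem hi)) Y' hY'
      have hz1 := hZ z (Finset.mem_insert_self z Z)
      have hzn : z ∉ Y' ∪ Z := by
        rw [Finset.mem_union]
        rintro (h | h)
        · exact hz1 (hY' z h)
        · exact hz h
      have h2 := core_step hzn (fun b hb hzb => hz1 (Or.inl ⟨b, hb, hzb⟩))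
        (fun b hb hzb => hz1 (Or.inr ⟨b, hb, hzb⟩)) h1
      have e1 : Y' ∪ insert z Z = Finset.cons z (Y' ∪ Z) hzn := by
        rw [Finset.cons_eq_insert, Finset.union_insert]
      rw [e1, Finset.card_cons, pow_succ 3 ((Y' ∪ Z).card + 1)]
      exact h2
  have h3 := main (Y.filter fun i => ¬ (cov U i ∨ cov L i))
    (fun i hi => (Finset.mem_filter.1 hi).2) (Y.filter fun i => cov U i ∨ cov L i)
    (fun i hi => (Finset.mem_filter.1 hi).2)
  rwa [Finset.filter_union_filter_not_eq] at h3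

end

end Pool.Agent.K3B
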