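import Mathlib

/-!
# Points of the polytope of two set families with a common apex

A point is a pair of an integer (the value at the apex) and a function (the values at the
elements). All values lie between `-4` and `4`. For a set `b` of the first family the maximum of
the values on `b` and the apex is observed, for a set of the second family the minimum.
-/

set_option autoImplicit false

namespace Pool.Agent.K3B

open Classical in
section

variable {ι : Type}

/-- some member of the family contains the element -/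
def cov (U : Finset (Finset ι)) (i : ι) : Prop := ∃ b ∈ U, i ∈ b

/-- the apex is a maximum on `b` -/
def top0 (p : ℤ × (ι → ℤ)) (b : Finset ι) : Prop := ∀ j ∈ b, p.2 j ≤ p.1

/-- the element is a maximum on `b` -/
def topE (p : ℤ × (ι → ℤ)) (b : Finset ι) (i : ι) : Prop :=
  i ∈ b ∧ p.1 ≤ p.2 i ∧ ∀ j ∈ b, p.2 j ≤ p.2 i

/-- `p` and `q` look the same from above -/
def Info (Y : Finset ι) (U : Finset (Finset ι)) (p q : ℤ × (ι → ℤ)) : Prop :=
  (p.1 = 4 ↔ q.1 = 4) ∧ (∀ i ∈ Y, (p.2 i = 4 ↔ q.2 i = 4)) ∧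
    ∀ b ∈ U, (top0 p b ↔ top0 q b) ∧ ∀ i ∈ b, (topE p b i ↔ topE q b i)

/-- `p` and `q` look the same -/
def Same (Y : Finset ι) (U L : Finset (Finset ι)) (p q : ℤ × (ι → ℤ)) : Prop :=
  Info Y U p q ∧ Info Y L (-p) (-q)

/-- all values are between `-4` and `4` -/
def Bd (p : ℤ × (ι → ℤ)) : Prop := (-4 ≤ p.1 ∧ p.1 ≤ 4) ∧ ∀ i, -4 ≤ p.2 i ∧ p.2 i ≤ 4

/-- no member of the family has both extreme values -/
def Adm (H : Finset (Finset ι)) (p : ℤ × (ι → ℤ)) : Prop :=
  ∀ b ∈ H, ¬ ((p.1 = 4 ∨ ∃ i ∈ b, p.2 i = 4) ∧ (p.1 = -4 ∨ ∃ i ∈ b, p.2 i = -4))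

/-- the element is in a set without positive values -/
def zu (U : Finset (Finset ι)) (J : Finset ι) (w : ι → ℤ) (i : ι) : Prop :=
  ∃ b ∈ U, i ∈ b ∧ ∀ j ∈ b, j ∈ J → w j ≤ 0

/-- the values of the point of a word -/
noncomputable def lev (U L : Finset (Finset ι)) (J : Finset ι) (w : ι → ℤ) (i : ι) : ℤ :=
  if i ∈ J then w i else
    if zu U J w i then (if zu L J (-w) i then 0 else -1) else (if zu L J (-w) i then 1 else 0)

/-- the point of a word -/
noncomputable def pw (U L : Finset (Finset ι)) (J : Finset ι) (w : ι → ℤ) : ℤ × (ι → ℤ) :=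
  (0, lev U L J w)

/-- positive entries are visible -/
def Vis (U : Finset (Finset ι)) (J : Finset ι) (w : ι → ℤ) : Prop :=
  ∀ i ∈ J, 0 < w i → w i = 4 ∨ ∃ b ∈ U, i ∈ b ∧ ∀ j ∈ b, j ∈ J → w j ≤ w i

/-- the word has no conflict in the family -/
def Nc (H : Finset (Finset ι)) (J : Finset ι) (w : ι → ℤ) : Prop :=
  ∀ b ∈ H, ∀ i ∈ b, ∀ j ∈ b, i ∈ J → j ∈ J → w i = 4 → w j ≠ -4

/-- valid words on the support `J` -/
structure Val (U L : Finset (Finset ι)) (J : Finset ι) (w : ι → ℤ) : Prop where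
  lv : ∀ i ∈ J, w i = 4 ∨ w i = 3 ∨ w i = 2 ∨ w i = 0 ∨ w i = -2 ∨ w i = -3 ∨ w i = -4
  ncU : Nc U J w
  ncL : Nc L J w
  visU : Vis U J w
  visL : Vis L J (-w)
  zer : ∀ i ∈ J, w i = 0 → (zu U J w i ∧ ¬ zu L J (-w) i) ∨ (¬ zu U J w i ∧ zu L J (-w) i)

/-- two positive levels are visible -/
def Nf (U : Finset (Finset ι)) (J : Finset ι) (w : ι → ℤ) : Prop :=
  ∃ b ∈ U, (∃ i ∈ b, i ∈ J ∧ w i = 2) ∧ (∃ e ∈ b, e ∈ J ∧ w e = 3) ∧ ∀ j ∈ b, j ∈ J → w j ≤ 3

/-- the words have the same signs -/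
def Sg (J : Finset ι) (w w' : ι → ℤ) : Prop :=
  ∀ i ∈ J, (w i = 4 ↔ w' i = 4) ∧ (w i = -4 ↔ w' i = -4) ∧ (0 < w i ↔ 0 < w' i) ∧
    (w i < 0 ↔ w' i < 0)

/-- the words have the same invariants -/
def Inv (U L : Finset (Finset ι)) (J : Finset ι) (w w' : ι → ℤ) : Prop :=
  Sg J w w' ∧ (Nf U J w ↔ Nf U J w') ∧ (Nf L J (-w) ↔ Nf L J (-w'))

/-- visible positive -/
def vp (U : Finset (Finset ι)) (p : ℤ × (ι → ℤ)) (i : ι) : Prop :=
  ∃ b ∈ U, topE p b i ∧ ¬ top0 p b

/-- visible, equal to the apex -/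
def zf (U : Finset (Finset ι)) (p : ℤ × (ι → ℤ)) (i : ι) : Prop :=
  ∃ b ∈ U, topE p b i ∧ top0 p b

/-- two visible positive levels -/
def nf (U : Finset (Finset ι)) (p : ℤ × (ι → ℤ)) : Prop :=
  ∃ b ∈ U, ¬ top0 p b ∧ ∃ e ∈ b, topE p b e ∧ p.2 e ≠ 4 ∧
    ∃ i ∈ b, vp U p i ∧ p.2 i ≠ 4 ∧ ¬ topE p b i

/-- the element is in the support -/
def Dd (U L : Finset (Finset ι)) (p : ℤ × (ι → ℤ)) (i : ι) : Prop :=
  p.2 i = 4 ∨ p.2 i = -4 ∨ vp U p i ∨ vp L (-p) i ∨ (zf U p i ∧ ¬ zf L (-p) i) ∨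
    (¬ zf U p i ∧ zf L (-p) i)

end

section

variable {ι : Type} {U L : Finset (Finset ι)} {J : Finset ι} {w w' : ι → ℤ}

theorem lev_mem {i : ι} (h : i ∈ J) : lev U L J w i = w i := by
  unfold lev
  rw [if_pos h]

theorem lev_neg (i : ι) : lev L U J (-w) i = - lev U L J w i := by
  unfold lev
  rw [neg_neg]
  by_cases h : i ∈ J
  · rw [if_pos h, if_pos h]
    rfl
  · rw [if_neg h, if_neg h]
    by_cases h1 : zu U J w i <;> by_cases h2 : zu L J (-w) i <;> simp [h1, h2]

theorem pw_neg : pw L U J (-w) = - pw U L J w := by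
  unfold pw
  refine Prod.ext ?_ ?_
  · simp
  · funext i
    exact lev_neg i

theorem lev_out {i : ι} (h : i ∉ J) : -1 ≤ lev U L J w i ∧ lev U L J w i ≤ 1 := by
  unfold lev
  rw [if_neg h]
  split_ifs <;> norm_num

theorem lev_bd (hv : Val U L J w) (i : ι) : -4 ≤ lev U L J w i ∧ lev U L J w i ≤ 4 := by
  by_cases h : i ∈ J
  · rw [lev_mem h]
    rcases hv.lv i h with h | h | h | h | h | h | h <;> rw [h] <;> norm_num
  · have := lev_out (U := U) (L := L) (w := w) h
    omega

theorem Val.neg (hv : Val U L J w) : Val L U J (-w) := by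
  refine ⟨?_, ?_, ?_, hv.visL, ?_, ?_⟩
  · intro i hi
    have := hv.lv i hi
    simp only [Pi.neg_apply]
    omega
  · intro b hb i hi j hj hiJ hjJ h1 h2
    simp only [Pi.neg_apply] at h1 h2
    exact hv.ncL b hb j hj i hi hjJ hiJ (by omega) (by omega)
  · intro b hb i hi j hj hiJ hjJ h1 h2
    simp only [Pi.neg_apply] at h1 h2
    exact hv.ncU b hb j hj i hi hjJ hiJ (by omega) (by omega)
  · rw [neg_neg]
    exact hv.visU
  · intro i hi h
    rw [neg_neg]
    simp only [Pi.neg_apply] at h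
    rcases hv.zer i hi (by omega) with h' | h'
    · exact Or.inr ⟨h'.2, h'.1⟩
    · exact Or.inl ⟨h'.2, h'.1⟩

theorem Sg.neg {J : Finset ι} {w w' : ι → ℤ} (h : Sg J w w') : Sg J (-w) (-w') := by
  intro i hi
  have := h i hi
  simp only [Pi.neg_apply]
  omega

theorem Inv.neg (h : Inv U L J w w') : Inv L U J (-w) (-w') := by
  refine ⟨h.1.neg, h.2.2, ?_⟩
  rw [neg_neg, neg_neg]
  exact h.2.1

/-- the point of a word -/
theorem vp_pos (hv : Val U L J w) {i : ι} (h : vp U (pw U L J w) i) : i ∈ J ∧ 0 < w i := by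
  obtain ⟨b, hb, ⟨hib, h1, h2⟩, h3⟩ := h
  unfold top0 at h3
  push Not at h3
  obtain ⟨j, hj, hj0⟩ := h3
  have h4 := h2 j hj
  have h5 : 0 < lev U L J w i := by
    change 0 < lev U L J w j at hj0
    change lev U L J w j ≤ lev U L J w i at h4
    omega
  by_cases hiJ : i ∈ J
  · rw [lev_mem hiJ] at h5
    exact ⟨hiJ, h5⟩
  · exfalso
    have h6 := (lev_out (U := U) (L := L) (w := w) hiJ).2
    have hz : zu U J w i := by
      refine ⟨b, hb, hib, ?_⟩
      intro k hk hkJ
      have h7 := h2 k hk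
      change lev U L J w k ≤ lev U L J w i at h7
      rw [lev_mem hkJ] at h7
      rcases hv.lv k hkJ with h | h | h | h | h | h | h <;> omega
    unfold lev at h5
    rw [if_neg hiJ, if_pos hz] at h5
    split_ifs at h5 <;> omega

theorem vp_of (hv : Val U L J w) {i : ι} (hi : i ∈ J) (h0 : 0 < w i) (h4 : w i ≠ 4) :
    vp U (pw U L J w) i := by
  rcases hv.visU i hi h0 with h | ⟨b, hb, hib, h⟩
  · exact absurd h h4
  · have h2 : 2 ≤ w i := by
      rcases hv.lv i hi with h | h | h | h | h | h | h <;> omega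
    refine ⟨b, hb, ⟨hib, ?_, ?_⟩, ?_⟩
    · change (0 : ℤ) ≤ lev U L J w i
      rw [lev_mem hi]
      omega
    · intro j hj
      change lev U L J w j ≤ lev U L J w i
      rw [lev_mem hi]
      by_cases hjJ : j ∈ J
      · rw [lev_mem hjJ]
        exact h j hj hjJ
      · have := (lev_out (U := U) (L := L) (w := w) hjJ).2
        omega
    · intro h'
      have := h' i hib
      change lev U L J w i ≤ 0 at this
      rw [lev_mem hi] at this
      omega

theorem zf_iff (_hv : Val U L J w) (i : ι) :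
    zf U (pw U L J w) i ↔ zu U J w i ∧ lev U L J w i = 0 := by
  constructor
  · rintro ⟨b, hb, ⟨hib, h1, h2⟩, h3⟩
    have h4 := h3 i hib
    change lev U L J w i ≤ 0 at h4
    change 0 ≤ lev U L J w i at h1
    refine ⟨⟨b, hb, hib, ?_⟩, by omega⟩
    intro j hj hjJ
    have h5 := h3 j hj
    change lev U L J w j ≤ 0 at h5
    rwa [lev_mem hjJ] at h5
  · rintro ⟨⟨b, hb, hib, h⟩, h0⟩
    have h3 : top0 (pw U L J w) b := by
      intro j hj
      change lev U L J w j ≤ 0
      by_cases hjJ : j ∈ J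
      · rw [lev_mem hjJ]
        exact h j hj hjJ
      · have hz : zu U J w j := ⟨b, hb, hj, h⟩
        unfold lev
        rw [if_neg hjJ, if_pos hz]
        split_ifs <;> norm_num
    refine ⟨b, hb, ⟨hib, ?_, ?_⟩, h3⟩
    · change (0 : ℤ) ≤ lev U L J w i
      omega
    · intro j hj
      have := h3 j hj
      change lev U L J w j ≤ 0 at this
      change lev U L J w j ≤ lev U L J w i
      omega

theorem zf_neg_iff (hv : Val U L J w) (i : ι) :
    zf L (-pw U L J w) i ↔ zu L J (-w) i ∧ lev U L J w i = 0 := by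
  rw [← pw_neg, zf_iff hv.neg, lev_neg]
  constructor
  · rintro ⟨h1, h2⟩
    exact ⟨h1, by omega⟩
  · rintro ⟨h1, h2⟩
    exact ⟨h1, by omega⟩

theorem vp_neg (hv : Val U L J w) {i : ι} (h : vp L (-pw U L J w) i) : i ∈ J ∧ w i < 0 := by
  rw [← pw_neg] at h
  have := vp_pos hv.neg h
  simp only [Pi.neg_apply] at this
  exact ⟨this.1, by omega⟩

theorem vp_neg_of (hv : Val U L J w) {i : ι} (hi : i ∈ J) (h0 : w i < 0) (h4 : w i ≠ -4) :
    vp L (-pw U L J w) i := by
  rw [← pw_neg]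
  refine vp_of hv.neg hi ?_ ?_
  · simp only [Pi.neg_apply]
    omega
  · simp only [Pi.neg_apply]
    omega

theorem Dd_iff (hv : Val U L J w) (i : ι) : i ∈ J ↔ Dd U L (pw U L J w) i := by
  constructor
  · intro hi
    have e1 : (pw U L J w).2 i = w i := lev_mem hi
    unfold Dd
    rw [e1]
    by_cases h4 : w i = 4
    · exact Or.inl h4
    by_cases h5 : w i = -4
    · exact Or.inr (Or.inl h5)
    rcases lt_trichotomy (w i) 0 with h | h | h
    · exact Or.inr (Or.inr (Or.inr (Or.inl (vp_neg_of hv hi h h5))))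
    · refine Or.inr (Or.inr (Or.inr (Or.inr ?_)))
      rw [zf_iff hv, zf_neg_iff hv]
      have e2 : lev U L J w i = 0 := by rw [lev_mem hi, h]
      rcases hv.zer i hi h with h' | h'
      · exact Or.inl ⟨⟨h'.1, e2⟩, fun h'' => h'.2 h''.1⟩
      · exact Or.inr ⟨fun h'' => h'.1 h''.1, ⟨h'.2, e2⟩⟩
    · exact Or.inr (Or.inr (Or.inl (vp_of hv hi h h4)))
  · intro h
    by_contra hi
    have h1 := lev_out (U := U) (L := L) (w := w) hi
    have e1 : (pw U L J w).2 i = lev U L J w i := rfl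
    rcases h with h | h | h | h | ⟨h, h'⟩ | ⟨h', h⟩
    · omega
    · omega
    · exact hi (vp_pos hv h).1
    · exact hi (vp_neg hv h).1
    · rw [zf_iff hv] at h
      rw [zf_neg_iff hv] at h'
      have h2 := h.2
      apply h'
      refine ⟨?_, h.2⟩
      by_contra hl
      unfold lev at h2
      rw [if_neg hi, if_pos h.1, if_neg hl] at h2
      omega
    · rw [zf_neg_iff hv] at h
      rw [zf_iff hv] at h'
      have h2 := h.2
      apply h'
      refine ⟨?_, h.2⟩
      by_contra hl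
      unfold lev at h2
      rw [if_neg hi, if_neg hl, if_pos h.1] at h2
      omega

theorem nf_iff (hv : Val U L J w) : nf U (pw U L J w) ↔ Nf U J w := by
  constructor
  · rintro ⟨b, hb, h0, e, heb, he, he4, i, hib, hvi, hi4, hti⟩
    obtain ⟨hiJ, hi0⟩ := vp_pos hv hvi
    have e1 : (pw U L J w).2 i = w i := lev_mem hiJ
    rw [e1] at hi4
    have hi2 : 2 ≤ w i := by
      rcases hv.lv i hiJ with h | h | h | h | h | h | h <;> omega
    have h1 : w i < (pw U L J w).2 e := by
      by_contra hcon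
      apply hti
      refine ⟨hib, ?_, ?_⟩
      · rw [e1]
        change (0 : ℤ) ≤ w i
        omega
      · intro j hj
        have := he.2.2 j hj
        rw [e1]
        omega
    have heJ : e ∈ J := by
      by_contra hcon
      have := (lev_out (U := U) (L := L) (w := w) hcon).2
      change w i < lev U L J w e at h1
      omega
    have e2 : (pw U L J w).2 e = w e := lev_mem heJ
    rw [e2] at h1 he4
    have he3 : w e = 3 := by
      rcases hv.lv e heJ with h | h | h | h | h | h | h <;> omega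
    refine ⟨b, hb, ⟨i, hib, hiJ, ?_⟩, ⟨e, heb, heJ, he3⟩, ?_⟩
    · omega
    · intro j hj hjJ
      have := he.2.2 j hj
      rw [e2] at this
      have e3 : (pw U L J w).2 j = w j := lev_mem hjJ
      rw [e3] at this
      omega
  · rintro ⟨b, hb, ⟨i, hib, hiJ, hi2⟩, ⟨e, heb, heJ, he3⟩, hall⟩
    have e1 : (pw U L J w).2 i = w i := lev_mem hiJ
    have e2 : (pw U L J w).2 e = w e := lev_mem heJ
    have hle : ∀ j ∈ b, (pw U L J w).2 j ≤ 3 := by
      intro j hj
      by_cases hjJ : j ∈ J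
      · have e3 : (pw U L J w).2 j = w j := lev_mem hjJ
        rw [e3]
        exact hall j hj hjJ
      · have := (lev_out (U := U) (L := L) (w := w) hjJ).2
        change lev U L J w j ≤ 3
        omega
    refine ⟨b, hb, ?_, e, heb, ⟨heb, ?_, ?_⟩, ?_, i, hib, ?_, ?_, ?_⟩
    · intro h'
      have := h' e heb
      rw [e2] at this
      change w e ≤ 0 at this
      omega
    · rw [e2]
      change (0 : ℤ) ≤ w e
      omega
    · intro j hj
      rw [e2, he3]
      exact hle j hj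
    · rw [e2]
      omega
    · exact vp_of hv hiJ (by omega) (by omega)
    · rw [e1]
      omega
    · intro h'
      have := h'.2.2 e heb
      rw [e1, e2] at this
      omega

/-- the information determines the word -/
theorem word_info {Y J' : Finset ι} (hJ : J ⊆ Y) (hJ' : J' ⊆ Y) (hv : Val U L J w)
    (hv' : Val U L J' w') (h : Same Y U L (pw U L J w) (pw U L J' w')) :
    J = J' ∧ Inv U L J w w' := by
  obtain ⟨⟨-, h2, h3⟩, ⟨-, h5, h6⟩⟩ := h
  have hvp : ∀ i, vp U (pw U L J w) i ↔ vp U (pw U L J' w') i := by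
    intro i
    constructor
    · rintro ⟨b, hb, h, h'⟩
      exact ⟨b, hb, ((h3 b hb).2 i h.1).1 h, fun h'' => h' ((h3 b hb).1.2 h'')⟩
    · rintro ⟨b, hb, h, h'⟩
      exact ⟨b, hb, ((h3 b hb).2 i h.1).2 h, fun h'' => h' ((h3 b hb).1.1 h'')⟩
  have hzf : ∀ i, zf U (pw U L J w) i ↔ zf U (pw U L J' w') i := by
    intro i
    constructor
    · rintro ⟨b, hb, h, h'⟩
      exact ⟨b, hb, ((h3 b hb).2 i h.1).1 h, (h3 b hb).1.1 h'⟩
    · rintro ⟨b, hb, h, h'⟩
      exact ⟨b, hb, ((h3 b hb).2 i h.1).2 h, (h3 b hb).1.2 h'⟩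
  have hvp' : ∀ i, vp L (-pw U L J w) i ↔ vp L (-pw U L J' w') i := by
    intro i
    constructor
    · rintro ⟨b, hb, h, h'⟩
      exact ⟨b, hb, ((h6 b hb).2 i h.1).1 h, fun h'' => h' ((h6 b hb).1.2 h'')⟩
    · rintro ⟨b, hb, h, h'⟩
      exact ⟨b, hb, ((h6 b hb).2 i h.1).2 h, fun h'' => h' ((h6 b hb).1.1 h'')⟩
  have hzf' : ∀ i, zf L (-pw U L J w) i ↔ zf L (-pw U L J' w') i := by
    intro i
    constructor
    · rintro ⟨b, hb, h, h'⟩
      exact ⟨b, hb, ((h6 b hb).2 i h.1).1 h, (h6 b hb).1.1 h'⟩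
    · rintro ⟨b, hb, h, h'⟩
      exact ⟨b, hb, ((h6 b hb).2 i h.1).2 h, (h6 b hb).1.2 h'⟩
  have h4 : ∀ i ∈ Y, ((pw U L J w).2 i = -4 ↔ (pw U L J' w').2 i = -4) := by
    intro i hi
    have := h5 i hi
    simp only [Prod.snd_neg, Pi.neg_apply] at this
    omega
  have hJJ : J = J' := by
    ext i
    constructor
    · intro hi
      have hiY := hJ hi
      rw [Dd_iff hv] at hi
      rw [Dd_iff hv']
      unfold Dd at hi ⊢
      rwa [h2 i hiY, h4 i hiY, hvp, hvp', hzf, hzf'] at hi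
    · intro hi
      have hiY := hJ' hi
      rw [Dd_iff hv'] at hi
      rw [Dd_iff hv]
      unfold Dd at hi ⊢
      rwa [← h2 i hiY, ← h4 i hiY, ← hvp, ← hvp', ← hzf, ← hzf'] at hi
  subst hJJ
  refine ⟨rfl, ?_, ?_, ?_⟩
  · intro i hi
    have hiY := hJ hi
    have e1 : (pw U L J w).2 i = w i := lev_mem hi
    have e2 : (pw U L J w').2 i = w' i := lev_mem hi
    have a1 := h2 i hiY
    have a2 := h4 i hiY
    rw [e1, e2] at a1 a2
    refine ⟨a1, a2, ?_, ?_⟩
    · constructor
      · intro h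
        by_cases h' : w i = 4
        · have := a1.1 h'
          omega
        · exact (vp_pos hv' ((hvp i).1 (vp_of hv hi h h'))).2
      · intro h
        by_cases h' : w' i = 4
        · have := a1.2 h'
          omega
        · exact (vp_pos hv ((hvp i).2 (vp_of hv' hi h h'))).2
    · constructor
      · intro h
        by_cases h' : w i = -4
        · have := a2.1 h'
          omega
        · exact (vp_neg hv' ((hvp' i).1 (vp_neg_of hv hi h h'))).2
      · intro h
        by_cases h' : w' i = -4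
        · have := a2.2 h'
          omega
        · exact (vp_neg hv ((hvp' i).2 (vp_neg_of hv' hi h h'))).2
  · rw [← nf_iff hv, ← nf_iff hv']
    unfold nf
    constructor
    · rintro ⟨b, hb, c0, e, heb, c1, c2, i, hib, c3, c4, c5⟩
      have hall : ∀ k, k ∈ b → k ∈ J → True := fun _ _ _ => trivial
      have heJ : (pw U L J w').2 e ≠ 4 := by
        intro hc
        by_cases heJ : e ∈ J
        · exact c2 ((h2 e (hJ heJ)).2 hc)
        · have := (lev_out (U := U) (L := L) (w := w') heJ).2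
          change lev U L J w' e = 4 at hc
          omega
      have hiJ : (pw U L J w').2 i ≠ 4 := by
        intro hc
        by_cases hiJ : i ∈ J
        · exact c4 ((h2 i (hJ hiJ)).2 hc)
        · have := (lev_out (U := U) (L := L) (w := w') hiJ).2
          change lev U L J w' i = 4 at hc
          omega
      exact ⟨b, hb, fun h' => c0 ((h3 b hb).1.2 h'), e, heb, ((h3 b hb).2 e heb).1 c1, heJ,
        i, hib, (hvp i).1 c3, hiJ, fun h' => c5 (((h3 b hb).2 i hib).2 h')⟩
    · rintro ⟨b, hb, c0, e, heb, c1, c2, i, hib, c3, c4, c5⟩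
      have heJ : (pw U L J w).2 e ≠ 4 := by
        intro hc
        by_cases heJ : e ∈ J
        · exact c2 ((h2 e (hJ heJ)).1 hc)
        · have := (lev_out (U := U) (L := L) (w := w) heJ).2
          change lev U L J w e = 4 at hc
          omega
      have hiJ : (pw U L J w).2 i ≠ 4 := by
        intro hc
        by_cases hiJ : i ∈ J
        · exact c4 ((h2 i (hJ hiJ)).1 hc)
        · have := (lev_out (U := U) (L := L) (w := w) hiJ).2
          change lev U L J w i = 4 at hc
          omega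
      exact ⟨b, hb, fun h' => c0 ((h3 b hb).1.1 h'), e, heb, ((h3 b hb).2 e heb).2 c1, heJ,
        i, hib, (hvp i).2 c3, hiJ, fun h' => c5 (((h3 b hb).2 i hib).1 h')⟩
  · rw [← nf_iff hv.neg, ← nf_iff hv'.neg, pw_neg, pw_neg]
    unfold nf
    have k4 : ∀ i ∈ J, ((-pw U L J w).2 i = 4 ↔ (-pw U L J w').2 i = 4) := fun i hi =>
      h5 i (hJ hi)
    have k1 : ∀ i, i ∉ J → (-pw U L J w).2 i ≠ 4 := by
      intro i hi hc
      have := (lev_out (U := U) (L := L) (w := w) hi).1
      change -lev U L J w i = 4 at hc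
      omega
    have k2 : ∀ i, i ∉ J → (-pw U L J w').2 i ≠ 4 := by
      intro i hi hc
      have := (lev_out (U := U) (L := L) (w := w') hi).1
      change -lev U L J w' i = 4 at hc
      omega
    constructor
    · rintro ⟨b, hb, c0, e, heb, c1, c2, i, hib, c3, c4, c5⟩
      have heJ : (-pw U L J w').2 e ≠ 4 := by
        intro hc
        by_cases heJ : e ∈ J
        · exact c2 ((k4 e heJ).2 hc)
        · exact k2 e heJ hc
      have hiJ : (-pw U L J w').2 i ≠ 4 := by
        intro hc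
        by_cases hiJ : i ∈ J
        · exact c4 ((k4 i hiJ).2 hc)
        · exact k2 i hiJ hc
      exact ⟨b, hb, fun h' => c0 ((h6 b hb).1.2 h'), e, heb, ((h6 b hb).2 e heb).1 c1, heJ,
        i, hib, (hvp' i).1 c3, hiJ, fun h' => c5 (((h6 b hb).2 i hib).2 h')⟩
    · rintro ⟨b, hb, c0, e, heb, c1, c2, i, hib, c3, c4, c5⟩
      have heJ : (-pw U L J w).2 e ≠ 4 := by
        intro hc
        by_cases heJ : e ∈ J
        · exact c2 ((k4 e heJ).1 hc)
        · exact k1 e heJ hc
      have hiJ : (-pw U L J w).2 i ≠ 4 := by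
        intro hc
        by_cases hiJ : i ∈ J
        · exact c4 ((k4 i hiJ).1 hc)
        · exact k1 i hiJ hc
      exact ⟨b, hb, fun h' => c0 ((h6 b hb).1.1 h'), e, heb, ((h6 b hb).2 e heb).2 c1, heJ,
        i, hib, (hvp' i).2 c3, hiJ, fun h' => c5 (((h6 b hb).2 i hib).1 h')⟩

end

end Pool.Agent.K3B
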