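import Pool.Agent.K3B.CoB

/-!
# Hansen polytopes of bipartite graphs
-/

set_option autoImplicit false
set_option linter.unusedVariables false

namespace Pool.Agent.K3B

open Pool.Agent.K3R (IsF Fc NF Fc_finite IsF.self HS Stb ind ind_apply cx cx_apply HS_finite
  HS_sym HS_ne pt_mem npt_mem pos_of_ne)

section general

variable {V W : Type} [AddCommGroup V] [Module ℝ V] [AddCommGroup W] [Module ℝ W]

/-- an injection of faces from a rounding property -/
theorem dual_le {S : Set V} {S' : Set W} (hS : S.Finite) (hS' : S'.Finite) (hne : S.Nonempty)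
    (hsym : ∀ s ∈ S, -s ∈ S) (β : W → V →ₗ[ℝ] ℝ)
    (hβ : ∀ c ∈ S', ∀ s ∈ S, β c s = 1 ∨ β c s = -1)
    (hsep : ∀ A, IsF S' A → ∀ c' ∈ S', c' ∉ A →
      ∃ s ∈ S, (∀ c ∈ A, β c s = 1) ∧ β c' s = -1) : NF S' ≤ NF S := by
  classical
  let g : Set W → Set V := fun A => {s | s ∈ S ∧ (A = S' ∨ ∀ c ∈ A, β c s = 1)}
  have hg1 : g S' = S := by
    ext s
    exact ⟨fun h => h.1, fun h => ⟨h, Or.inl rfl⟩⟩
  have hg2 : ∀ A, A ≠ S' → ∀ s, s ∈ g A ↔ s ∈ S ∧ ∀ c ∈ A, β c s = 1 := by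
    intro A hA s
    constructor
    · rintro ⟨h1, h2 | h2⟩
      · exact absurd h2 hA
      · exact ⟨h1, h2⟩
    · rintro ⟨h1, h2⟩
      exact ⟨h1, Or.inr h2⟩
  have hex : ∀ A, IsF S' A → A ≠ S' → ∃ c' ∈ S', c' ∉ A := by
    intro A hA hne'
    by_contra hcon
    push Not at hcon
    exact hne' (subset_antisymm hA.1 hcon)
  have hgS : ∀ A, IsF S' A → A ≠ S' → g A ≠ S := by
    intro A hA hAS h
    obtain ⟨c', hc', hcA⟩ := hex A hA hAS
    obtain ⟨s, hs, h1, -⟩ := hsep A hA c' hc' hcA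
    obtain ⟨c, hc⟩ := hA.2.1
    have h2 : -s ∈ g A := by
      rw [h]
      exact hsym s hs
    have h3 := ((hg2 A hAS _).1 h2).2 c hc
    rw [map_neg, h1 c hc] at h3
    norm_num at h3
  unfold NF
  refine Set.ncard_le_ncard_of_injOn g ?_ ?_ (Fc_finite hS)
  · intro A hA
    by_cases hAS : A = S'
    · rw [hAS, hg1]
      exact IsF.self hne
    · have hAfin : A.Finite := hS'.subset hA.1
      obtain ⟨c', hc', hcA⟩ := hex A hA hAS
      obtain ⟨s₀, hs₀, h₀, -⟩ := hsep A hA c' hc' hcA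
      refine ⟨fun s hs => hs.1, ⟨s₀, (hg2 A hAS _).2 ⟨hs₀, h₀⟩⟩,
        ∑ c ∈ hAfin.toFinset, β c, (hAfin.toFinset.card : ℝ), ?_, ?_⟩
      · intro s hs
        have h1 := ((hg2 A hAS s).1 hs).2
        rw [LinearMap.sum_apply, Finset.sum_congr rfl fun c hc => h1 c
          (hAfin.mem_toFinset.1 hc)]
        simp
      · intro s hs hs'
        rw [LinearMap.sum_apply]
        have h2 : ∃ c ∈ A, β c s ≠ 1 := by
          by_contra hcon
          push Not at hcon
          exact hs' ((hg2 A hAS s).2 ⟨hs, hcon⟩)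
        obtain ⟨c, hc, hcs⟩ := h2
        have h3 : ∑ c ∈ hAfin.toFinset, β c s < ∑ _c ∈ hAfin.toFinset, (1 : ℝ) := by
          refine Finset.sum_lt_sum (fun d hd => ?_) ⟨c, hAfin.mem_toFinset.2 hc, ?_⟩
          · rcases hβ d (hA.1 (hAfin.mem_toFinset.1 hd)) s hs with h | h
            · exact h.le
            · rw [h]
              norm_num
          · rcases hβ c (hA.1 hc) s hs with h | h
            · exact absurd h hcs
            · rw [h]
              norm_num
        refine lt_of_lt_of_eq h3 ?_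
        simp
  · intro A hA B hB hAB
    change g A = g B at hAB
    by_cases hAS : A = S'
    · by_cases hBS : B = S'
      · rw [hAS, hBS]
      · exfalso
        rw [hAS, hg1] at hAB
        exact hgS B hB hBS hAB.symm
    · by_cases hBS : B = S'
      · exfalso
        rw [hBS, hg1] at hAB
        exact hgS A hA hAS hAB
      · have key : ∀ A B, IsF S' A → IsF S' B → A ≠ S' → B ≠ S' → g A = g B → A ⊆ B := by
          intro A B hA hB hAS hBS hAB c hc
          by_contra hcB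
          obtain ⟨s, hs, h1, h2⟩ := hsep B hB c (hA.1 hc) hcB
          have h3 : s ∈ g A := by
            rw [hAB]
            exact (hg2 B hBS s).2 ⟨hs, h1⟩
          have h4 := ((hg2 A hAS s).1 h3).2 c hc
          rw [h2] at h4
          norm_num at h4
        exact subset_antisymm (key A B hA hB hAS hBS hAB) (key B A hB hA hBS hAS hAB.symm)

end general

/-- sign of a value -/
noncomputable def rf (t y : ℝ) : ℝ := if t < y then 1 else -1

/-- rounding of a weight -/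
noncomputable def rg (t c w : ℝ) : ℝ := if c - w ≤ t then 2 else if t < -c - w then -2 else 0

theorem rf_top {t c : ℝ} (h : t < c) : rf t c = 1 := if_pos h

theorem rf_bot {t c : ℝ} (h : -c ≤ t) : rf t (-c) = -1 := if_neg (not_lt.2 h)

theorem r_top {t c w y : ℝ} (hc : 0 < c) (h1 : -c ≤ t) (h2 : t < c) (hy : y ≤ c)
    (h : w + y = c) : rf t y + rg t c w = 1 := by
  unfold rf rg
  split_ifs <;> linarith

theorem r_bot {t c w y : ℝ} (hc : 0 < c) (h1 : -c ≤ t) (h2 : t < c) (hy : -c ≤ y)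
    (h : w + y = -c) : rf t y + rg t c w = -1 := by
  unfold rf rg
  split_ifs <;> linarith

theorem sep_lt1 {c y : ℝ} (h1 : -c ≤ y) (h2 : y < c) :
    ∃ t, -c ≤ t ∧ t < c ∧ rf t y = -1 := ⟨y, h1, h2, if_neg (lt_irrefl y)⟩

theorem sep_gt1 {c y : ℝ} (hc : 0 < c) (h1 : -c < y) :
    ∃ t, -c ≤ t ∧ t < c ∧ rf t y = 1 := ⟨-c, le_rfl, by linarith, if_pos h1⟩

theorem sep_lt2 {c y w : ℝ} (hc : 0 < c) (h1 : -c ≤ y) (h2 : y ≤ c) (h3 : -c ≤ w + y)
    (h4 : w + y < c) : ∃ t, -c ≤ t ∧ t < c ∧ rf t y + rg t c w = -1 := by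
  by_cases h : y < c
  · refine ⟨y, h1, h, ?_⟩
    unfold rf rg
    split_ifs <;> linarith
  · refine ⟨-c, le_rfl, by linarith, ?_⟩
    unfold rf rg
    split_ifs <;> linarith

theorem sep_gt2 {c y w : ℝ} (hc : 0 < c) (h1 : -c ≤ y) (h2 : y ≤ c) (h3 : -c < w + y)
    (h4 : w + y ≤ c) : ∃ t, -c ≤ t ∧ t < c ∧ rf t y + rg t c w = 1 := by
  by_cases hw : w ≤ 0
  · refine ⟨-c - w, by linarith, by linarith, ?_⟩
    unfold rf rg
    split_ifs <;> linarith
  · push Not at hw
    by_cases hy : -c < y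
    · refine ⟨-c, le_rfl, by linarith, ?_⟩
      unfold rf rg
      split_ifs <;> linarith
    · refine ⟨max (-c) (c - w), le_max_left _ _, max_lt (by linarith) (by linarith), ?_⟩
      have h5 := le_max_left (-c) (c - w)
      have h6 := le_max_right (-c) (c - w)
      unfold rf rg
      split_ifs <;> linarith

section

variable {ι : Type} [DecidableEq ι]

/-- the pairing -/
noncomputable def bf (W : Finset ι) (c : ℝ × (ι → ℝ)) : ℝ × (ι → ℝ) →ₗ[ℝ] ℝ :=
  c.1 • LinearMap.fst ℝ ℝ (ι → ℝ) - ∑ i ∈ W, (2 * c.2 i) • cx i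

omit [DecidableEq ι] in
theorem bf_apply (W : Finset ι) (c s : ℝ × (ι → ℝ)) :
    bf W c s = c.1 * s.1 - ∑ i ∈ W, 2 * c.2 i * s.2 i := by
  unfold bf
  simp only [LinearMap.sub_apply, LinearMap.smul_apply, LinearMap.sum_apply, LinearMap.fst_apply,
    cx_apply, smul_eq_mul]

omit [DecidableEq ι] in
theorem bf_neg (W : Finset ι) (c s : ℝ × (ι → ℝ)) : bf W (-c) s = -bf W c s := by
  rw [bf_apply, bf_apply]
  simp only [Prod.fst_neg, Prod.snd_neg, Pi.neg_apply, neg_mul, mul_neg, Finset.sum_neg_distrib]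
  ring

theorem bf_pt (W C : Finset ι) (s : ℝ × (ι → ℝ)) (hC : C ⊆ W) :
    bf W (K3R.pt C) s = s.1 - ∑ i ∈ C, 2 * s.2 i := by
  rw [bf_apply, K3R.pt_fst, one_mul]
  congr 1
  have h : ∀ i ∈ W, 2 * (K3R.pt C).2 i * s.2 i = if i ∈ C then 2 * s.2 i else 0 := by
    intro i _
    rw [K3R.pt_snd]
    split_ifs <;> ring
  rw [Finset.sum_congr rfl h, ← Finset.sum_filter, Finset.filter_mem_eq_inter,
    Finset.inter_eq_right.2 hC]

theorem bf_empty (W : Finset ι) (s : ℝ × (ι → ℝ)) : bf W (K3R.pt ∅) s = s.1 := by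
  rw [bf_pt W ∅ s (Finset.empty_subset W)]
  simp

theorem bf_single {W : Finset ι} (s : ℝ × (ι → ℝ)) {i : ι} (hi : i ∈ W) :
    bf W (K3R.pt {i}) s = s.1 - 2 * s.2 i := by
  rw [bf_pt W {i} s (Finset.singleton_subset_iff.2 hi), Finset.sum_singleton]

theorem bf_pair {W : Finset ι} (s : ℝ × (ι → ℝ)) {a i : ι} (ha : a ∈ W) (hi : i ∈ W)
    (hai : a ≠ i) : bf W (K3R.pt {a, i}) s = s.1 - 2 * s.2 a - 2 * s.2 i := by
  rw [bf_pt W {a, i} s (by
    intro j hj
    rw [Finset.mem_insert, Finset.mem_singleton] at hj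
    rcases hj with rfl | rfl
    · exact ha
    · exact hi), Finset.sum_pair hai]
  ring

theorem rounding {G : SimpleGraph ι} {X Y : Finset ι} (hd : Disjoint X Y)
    (hX : ∀ a ∈ X, ∀ b ∈ X, ¬ G.Adj a b) (hY : ∀ a ∈ Y, ∀ b ∈ Y, ¬ G.Adj a b)
    {c t y0 : ℝ} {y w : ι → ℝ} (h1 : -c ≤ t) (h2 : t < c)
    (ha0 : ∀ a ∈ X, -c ≤ w a + y0 ∧ w a + y0 ≤ c)
    (hai : ∀ a ∈ X, ∀ i ∈ Y, G.Adj a i → -c ≤ w a + y i ∧ w a + y i ≤ c) :
    ∃ s ∈ HS G (X ∪ Y), s.1 = rf t y0 ∧ (∀ i ∈ Y, s.1 - 2 * s.2 i = rf t (y i)) ∧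
      ∀ a ∈ X, s.1 - 2 * s.2 a = rf t y0 + rg t c (w a) := by
  classical
  by_cases h0 : t < y0
  · set T := (Y.filter fun i => y i ≤ t) ∪ X.filter fun a => t < -c - w a with hT
    have hTX : ∀ a ∈ X, (a ∈ T ↔ t < -c - w a) := by
      intro a ha
      rw [hT, Finset.mem_union, Finset.mem_filter, Finset.mem_filter]
      constructor
      · rintro (h | h)
        · exact absurd h.1 (Finset.disjoint_left.1 hd ha)
        · exact h.2
      · exact fun h => Or.inr ⟨ha, h⟩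
    have hTY : ∀ i ∈ Y, (i ∈ T ↔ y i ≤ t) := by
      intro i hi
      rw [hT, Finset.mem_union, Finset.mem_filter, Finset.mem_filter]
      constructor
      · rintro (h | h)
        · exact h.2
        · exact absurd h.1 (Finset.disjoint_right.1 hd hi)
      · exact fun h => Or.inl ⟨hi, h⟩
    have hTW : T ⊆ X ∪ Y := by
      intro j hj
      rw [hT, Finset.mem_union, Finset.mem_filter, Finset.mem_filter] at hj
      rcases hj with h | h
      · exact Finset.mem_union_right _ h.1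
      · exact Finset.mem_union_left _ h.1
    have hcross : ∀ a ∈ X, ∀ i ∈ Y, a ∈ T → i ∈ T → ¬ G.Adj a i := by
      intro a ha i hi haT hiT hadj
      have e1 := (hTX a ha).1 haT
      have e2 := (hTY i hi).1 hiT
      have e3 := (hai a ha i hi hadj).1
      linarith
    have hs : Stb G T := by
      intro u hu v hv
      rcases Finset.mem_union.1 (hTW hu) with h3 | h3
      · rcases Finset.mem_union.1 (hTW hv) with h4 | h4
        · exact hX u h3 v h4
        · exact hcross u h3 v h4 hu hv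
      · rcases Finset.mem_union.1 (hTW hv) with h4 | h4
        · exact fun h => hcross v h4 u h3 hv hu h.symm
        · exact hY u h3 v h4
    refine ⟨K3R.pt T, pt_mem hTW hs, ?_, fun i hi => ?_, fun a ha => ?_⟩
    · rw [K3R.pt_fst]
      exact (if_pos h0).symm
    · rw [K3R.pt_fst, K3R.pt_snd]
      have := hTY i hi
      unfold rf
      by_cases h : y i ≤ t
      · rw [if_pos (this.2 h), if_neg (not_lt.2 h)]
        norm_num
      · rw [if_neg (fun h' => h (this.1 h')), if_pos (not_le.1 h)]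
        norm_num
    · rw [K3R.pt_fst, K3R.pt_snd]
      have := hTX a ha
      unfold rf rg
      rw [if_pos h0]
      have e1 := (ha0 a ha).2
      rw [if_neg (by linarith : ¬ c - w a ≤ t)]
      by_cases h : t < -c - w a
      · rw [if_pos (this.2 h), if_pos h]
        norm_num
      · rw [if_neg (fun h' => h (this.1 h')), if_neg h]
        norm_num
  · set T := (Y.filter fun i => t < y i) ∪ X.filter fun a => c - w a ≤ t with hT
    have hTX : ∀ a ∈ X, (a ∈ T ↔ c - w a ≤ t) := by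
      intro a ha
      rw [hT, Finset.mem_union, Finset.mem_filter, Finset.mem_filter]
      constructor
      · rintro (h | h)
        · exact absurd h.1 (Finset.disjoint_left.1 hd ha)
        · exact h.2
      · exact fun h => Or.inr ⟨ha, h⟩
    have hTY : ∀ i ∈ Y, (i ∈ T ↔ t < y i) := by
      intro i hi
      rw [hT, Finset.mem_union, Finset.mem_filter, Finset.mem_filter]
      constructor
      · rintro (h | h)
        · exact h.2
        · exact absurd h.1 (Finset.disjoint_right.1 hd hi)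
      · exact fun h => Or.inl ⟨hi, h⟩
    have hTW : T ⊆ X ∪ Y := by
      intro j hj
      rw [hT, Finset.mem_union, Finset.mem_filter, Finset.mem_filter] at hj
      rcases hj with h | h
      · exact Finset.mem_union_right _ h.1
      · exact Finset.mem_union_left _ h.1
    have hcross : ∀ a ∈ X, ∀ i ∈ Y, a ∈ T → i ∈ T → ¬ G.Adj a i := by
      intro a ha i hi haT hiT hadj
      have e1 := (hTX a ha).1 haT
      have e2 := (hTY i hi).1 hiT
      have e3 := (hai a ha i hi hadj).2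
      linarith
    have hs : Stb G T := by
      intro u hu v hv
      rcases Finset.mem_union.1 (hTW hu) with h3 | h3
      · rcases Finset.mem_union.1 (hTW hv) with h4 | h4
        · exact hX u h3 v h4
        · exact hcross u h3 v h4 hu hv
      · rcases Finset.mem_union.1 (hTW hv) with h4 | h4
        · exact fun h => hcross v h4 u h3 hv hu h.symm
        · exact hY u h3 v h4
    refine ⟨-K3R.pt T, npt_mem hTW hs, ?_, fun i hi => ?_, fun a ha => ?_⟩
    · rw [Prod.fst_neg, K3R.pt_fst]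
      exact (if_neg h0).symm
    · rw [Prod.fst_neg, Prod.snd_neg, Pi.neg_apply, K3R.pt_fst, K3R.pt_snd]
      have := hTY i hi
      unfold rf
      by_cases h : t < y i
      · rw [if_pos (this.2 h), if_pos h]
        norm_num
      · rw [if_neg (fun h' => h (this.1 h')), if_neg h]
        norm_num
    · rw [Prod.fst_neg, Prod.snd_neg, Pi.neg_apply, K3R.pt_fst, K3R.pt_snd]
      have := hTX a ha
      unfold rf rg
      rw [if_neg h0]
      have e1 := (ha0 a ha).1
      rw [if_neg (by linarith : ¬ t < -c - w a)]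
      by_cases h : c - w a ≤ t
      · rw [if_pos (this.2 h), if_pos h]
        norm_num
      · rw [if_neg (fun h' => h (this.1 h')), if_neg h]
        norm_num

theorem bip_le (G : SimpleGraph ι) (X Y : Finset ι) (hd : Disjoint X Y)
    (hX : ∀ a ∈ X, ∀ b ∈ X, ¬ G.Adj a b) (hY : ∀ a ∈ Y, ∀ b ∈ Y, ¬ G.Adj a b) :
    NF (HS Gᶜ (X ∪ Y)) ≤ NF (HS G (X ∪ Y)) := by
  classical
  have hX' : ∀ a ∈ X, ∀ b ∈ X, a ≠ b → Gᶜ.Adj a b := fun a ha b hb hab =>
    (SimpleGraph.compl_adj _ _ _).2 ⟨hab, hX a ha b hb⟩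
  have hY' : ∀ a ∈ Y, ∀ b ∈ Y, a ≠ b → Gᶜ.Adj a b := fun a ha b hb hab =>
    (SimpleGraph.compl_adj _ _ _).2 ⟨hab, hY a ha b hb⟩
  have hne : ∀ a ∈ X, ∀ i ∈ Y, a ≠ i := fun a ha i hi h =>
    Finset.disjoint_left.1 hd ha (h ▸ hi)
  have hadj : ∀ a ∈ X, ∀ i ∈ Y, ¬ Gᶜ.Adj a i → G.Adj a i := by
    intro a ha i hi h
    by_contra hcon
    exact h ((SimpleGraph.compl_adj _ _ _).2 ⟨hne a ha i hi, hcon⟩)
  have hXW : ∀ a ∈ X, a ∈ X ∪ Y := fun a ha => Finset.mem_union_left _ ha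
  have hYW : ∀ i ∈ Y, i ∈ X ∪ Y := fun i hi => Finset.mem_union_right _ hi
  -- values of the pairing
  have hpair : ∀ C, C ⊆ X ∪ Y → Stb Gᶜ C → ∀ T, T ⊆ X ∪ Y → Stb G T →
      bf (X ∪ Y) (K3R.pt C) (K3R.pt T) = 1 ∨ bf (X ∪ Y) (K3R.pt C) (K3R.pt T) = -1 := by
    intro C hC hsC T hT hsT
    rcases stb_cases hX' hY' hC hsC with rfl | ⟨i, hi, rfl⟩ | ⟨a, ha, rfl⟩ |
      ⟨a, ha, i, hi, hai, rfl⟩
    · rw [bf_empty, K3R.pt_fst]
      exact Or.inl rfl
    · rw [bf_single _ (hYW i hi), K3R.pt_fst, K3R.pt_snd]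
      split_ifs <;> norm_num
    · rw [bf_single _ (hXW a ha), K3R.pt_fst, K3R.pt_snd]
      split_ifs <;> norm_num
    · rw [bf_pair _ (hXW a ha) (hYW i hi) (hne a ha i hi), K3R.pt_fst, K3R.pt_snd, K3R.pt_snd]
      by_cases h1 : a ∈ T
      · have h2 : i ∉ T := fun h2 => hsT a h1 i h2 (hadj a ha i hi hai)
        rw [if_pos h1, if_neg h2]
        norm_num
      · rw [if_neg h1]
        split_ifs <;> norm_num
  refine dual_le (HS_finite G _) (HS_finite Gᶜ _) (HS_ne G _) (HS_sym G _) (bf (X ∪ Y)) ?_ ?_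
  · rintro c ⟨C, hC, hsC, hc⟩ s ⟨T, hT, hsT, hs⟩
    have h := hpair C hC hsC T hT hsT
    rcases hc with rfl | rfl <;> rcases hs with rfl | rfl
    · exact h
    · rw [map_neg]
      rcases h with h | h <;> rw [h]
      · exact Or.inr rfl
      · exact Or.inl (neg_neg _)
    · rw [bf_neg]
      rcases h with h | h <;> rw [h]
      · exact Or.inr rfl
      · exact Or.inl (neg_neg _)
    · rw [map_neg, bf_neg, neg_neg]
      exact h
  · intro A hA c' hc' hcA
    have hAS : A ≠ HS Gᶜ (X ∪ Y) := fun h => hcA (h ▸ hc')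
    obtain ⟨hAS', hAne, φ, c, h1, h2⟩ := hA
    have hc : 0 < c := pos_of_ne (HS_sym Gᶜ _) hAS' hAS hAne h1 h2
    have hle : ∀ C, C ⊆ X ∪ Y → Stb Gᶜ C → -c ≤ φ (K3R.pt C) ∧ φ (K3R.pt C) ≤ c := by
      intro C hC hsC
      constructor
      · have := K3R.IsF.le_max h1 h2 (npt_mem hC hsC)
        rw [map_neg] at this
        linarith
      · exact K3R.IsF.le_max h1 h2 (pt_mem hC hsC)
    set y0 := φ (K3R.pt ∅) with hy0
    set y : ι → ℝ := fun i => φ (K3R.pt {i}) with hy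
    set w : ι → ℝ := fun a => φ (K3R.pt {a}) - y0 with hw
    have hpt : ∀ a ∈ X, ∀ i ∈ Y, φ (K3R.pt {a, i}) = w a + y i := by
      intro a ha i hi
      have e : K3R.pt ({a, i} : Finset ι) = K3R.pt {a} + K3R.pt {i} - K3R.pt ∅ := by
        refine Prod.ext ?_ ?_
        · simp only [Prod.fst_sub, Prod.fst_add, K3R.pt_fst]
          norm_num
        · funext j
          simp only [Prod.snd_sub, Prod.snd_add, Pi.sub_apply, Pi.add_apply, K3R.pt_snd,
            Finset.mem_insert, Finset.mem_singleton, Finset.notMem_empty, if_false, sub_zero]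
          by_cases ja : j = a
          · have ji : j ≠ i := fun h => hne a ha i hi (ja ▸ h)
            rw [if_pos (Or.inl ja), if_pos ja, if_neg ji]
            norm_num
          · by_cases ji : j = i
            · rw [if_pos (Or.inr ji), if_neg ja, if_pos ji]
              norm_num
            · rw [if_neg (by tauto), if_neg ja, if_neg ji]
              norm_num
      rw [e, map_sub, map_add]
      simp only [hw, hy, hy0]
      ring
    have hsing : ∀ a, φ (K3R.pt {a}) = w a + y0 := fun a => by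
      simp only [hw]
      ring
    have b0 := hle ∅ (Finset.empty_subset _) (K3R.Stb_empty _)
    have bY : ∀ i ∈ Y, -c ≤ y i ∧ y i ≤ c := fun i hi =>
      hle {i} (Finset.singleton_subset_iff.2 (hYW i hi)) (K3R.Stb_single _ i)
    have bX : ∀ a ∈ X, -c ≤ w a + y0 ∧ w a + y0 ≤ c := fun a ha => by
      have := hle {a} (Finset.singleton_subset_iff.2 (hXW a ha)) (K3R.Stb_single _ a)
      rwa [hsing] at this
    have bXY : ∀ a ∈ X, ∀ i ∈ Y, G.Adj a i → -c ≤ w a + y i ∧ w a + y i ≤ c := by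
      intro a ha i hi hai
      have hn : ¬ Gᶜ.Adj a i := fun h => ((SimpleGraph.compl_adj _ _ _).1 h).2 hai
      have := hle {a, i} (by
        intro j hj
        rw [Finset.mem_insert, Finset.mem_singleton] at hj
        rcases hj with rfl | rfl
        · exact hXW _ ha
        · exact hYW _ hi) (stb_pair hn)
      rwa [hpt a ha i hi] at this
    -- value of a clique after rounding
    have hval : ∀ t, -c ≤ t → t < c → ∃ s ∈ HS G (X ∪ Y),
        bf (X ∪ Y) (K3R.pt ∅) s = rf t y0 ∧ (∀ i ∈ Y, bf (X ∪ Y) (K3R.pt {i}) s = rf t (y i)) ∧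
        (∀ a ∈ X, bf (X ∪ Y) (K3R.pt {a}) s = rf t y0 + rg t c (w a)) ∧
        ∀ a ∈ X, ∀ i ∈ Y, bf (X ∪ Y) (K3R.pt {a, i}) s = rf t (y i) + rg t c (w a) := by
      intro t t1 t2
      obtain ⟨s, hs, s0, sY, sX⟩ := rounding hd hX hY t1 t2 bX bXY
      refine ⟨s, hs, ?_, fun i hi => ?_, fun a ha => ?_, fun a ha i hi => ?_⟩
      · rw [bf_empty, s0]
      · rw [bf_single _ (hYW i hi), sY i hi]
      · rw [bf_single _ (hXW a ha), sX a ha]
      · rw [bf_pair _ (hXW a ha) (hYW i hi) (hne a ha i hi)]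
        have e1 := sY i hi
        have e2 := sX a ha
        linarith
    have hpres : ∀ t, -c ≤ t → t < c → ∀ s,
        (bf (X ∪ Y) (K3R.pt ∅) s = rf t y0 ∧ (∀ i ∈ Y, bf (X ∪ Y) (K3R.pt {i}) s = rf t (y i)) ∧
        (∀ a ∈ X, bf (X ∪ Y) (K3R.pt {a}) s = rf t y0 + rg t c (w a)) ∧
        ∀ a ∈ X, ∀ i ∈ Y, bf (X ∪ Y) (K3R.pt {a, i}) s = rf t (y i) + rg t c (w a)) →
        ∀ d ∈ A, bf (X ∪ Y) d s = 1 := by
      rintro t t1 t2 s ⟨s0, sY, sX, sXY⟩
      have hboth : ∀ C, C ⊆ X ∪ Y → Stb Gᶜ C →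
          (φ (K3R.pt C) = c → bf (X ∪ Y) (K3R.pt C) s = 1) ∧
          (φ (K3R.pt C) = -c → bf (X ∪ Y) (K3R.pt C) s = -1) := by
        intro C hC hsC
        rcases stb_cases hX' hY' hC hsC with rfl | ⟨i, hi, rfl⟩ | ⟨a, ha, rfl⟩ |
          ⟨a, ha, i, hi, hai, rfl⟩
        · rw [s0]
          constructor
          · intro h
            rw [show y0 = c from h]
            exact rf_top t2
          · intro h
            rw [show y0 = -c from h]
            exact rf_bot t1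
        · rw [sY i hi]
          constructor
          · intro h
            rw [show y i = c from h]
            exact rf_top t2
          · intro h
            rw [show y i = -c from h]
            exact rf_bot t1
        · rw [sX a ha, hsing]
          exact ⟨r_top hc t1 t2 b0.2, r_bot hc t1 t2 b0.1⟩
        · rw [sXY a ha i hi, hpt a ha i hi]
          exact ⟨r_top hc t1 t2 (bY i hi).2, r_bot hc t1 t2 (bY i hi).1⟩
      intro d hd'
      have hφd := h1 d hd'
      obtain ⟨C, hC, hsC, rfl | rfl⟩ := hAS' hd'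
      · exact (hboth C hC hsC).1 hφd
      · rw [map_neg] at hφd
        rw [bf_neg, (hboth C hC hsC).2 (by linarith)]
        norm_num
    have hφc := h2 c' hc' hcA
    obtain ⟨C, hC, hsC, rfl | rfl⟩ := hc'
    · have hex : ∃ t, -c ≤ t ∧ t < c ∧ ∀ s,
          (bf (X ∪ Y) (K3R.pt ∅) s = rf t y0 ∧ (∀ i ∈ Y, bf (X ∪ Y) (K3R.pt {i}) s = rf t (y i)) ∧
          (∀ a ∈ X, bf (X ∪ Y) (K3R.pt {a}) s = rf t y0 + rg t c (w a)) ∧
          ∀ a ∈ X, ∀ i ∈ Y, bf (X ∪ Y) (K3R.pt {a, i}) s = rf t (y i) + rg t c (w a)) →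
          bf (X ∪ Y) (K3R.pt C) s = -1 := by
        rcases stb_cases hX' hY' hC hsC with rfl | ⟨i, hi, rfl⟩ | ⟨a, ha, rfl⟩ |
          ⟨a, ha, i, hi, hai, rfl⟩
        · obtain ⟨t, t1, t2, t3⟩ := sep_lt1 b0.1 hφc
          exact ⟨t, t1, t2, fun s hs => hs.1.trans t3⟩
        · obtain ⟨t, t1, t2, t3⟩ := sep_lt1 (bY i hi).1 hφc
          exact ⟨t, t1, t2, fun s hs => (hs.2.1 i hi).trans t3⟩
        · rw [hsing] at hφc
          obtain ⟨t, t1, t2, t3⟩ := sep_lt2 hc b0.1 b0.2 (bX a ha).1 hφc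
          exact ⟨t, t1, t2, fun s hs => (hs.2.2.1 a ha).trans t3⟩
        · rw [hpt a ha i hi] at hφc
          obtain ⟨t, t1, t2, t3⟩ := sep_lt2 hc (bY i hi).1 (bY i hi).2
            (bXY a ha i hi (hadj a ha i hi hai)).1 hφc
          exact ⟨t, t1, t2, fun s hs => (hs.2.2.2 a ha i hi).trans t3⟩
      obtain ⟨t, t1, t2, t3⟩ := hex
      obtain ⟨s, hs, hsv⟩ := hval t t1 t2
      exact ⟨s, hs, hpres t t1 t2 s hsv, t3 s hsv⟩
    · rw [map_neg] at hφc
      have hex : ∃ t, -c ≤ t ∧ t < c ∧ ∀ s,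
          (bf (X ∪ Y) (K3R.pt ∅) s = rf t y0 ∧ (∀ i ∈ Y, bf (X ∪ Y) (K3R.pt {i}) s = rf t (y i)) ∧
          (∀ a ∈ X, bf (X ∪ Y) (K3R.pt {a}) s = rf t y0 + rg t c (w a)) ∧
          ∀ a ∈ X, ∀ i ∈ Y, bf (X ∪ Y) (K3R.pt {a, i}) s = rf t (y i) + rg t c (w a)) →
          bf (X ∪ Y) (K3R.pt C) s = 1 := by
        rcases stb_cases hX' hY' hC hsC with rfl | ⟨i, hi, rfl⟩ | ⟨a, ha, rfl⟩ |
          ⟨a, ha, i, hi, hai, rfl⟩
        · obtain ⟨t, t1, t2, t3⟩ := sep_gt1 (y := y0) hc (by linarith)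
          exact ⟨t, t1, t2, fun s hs => hs.1.trans t3⟩
        · obtain ⟨t, t1, t2, t3⟩ := sep_gt1 (y := y i) hc (by
            change -φ (K3R.pt {i}) < c at hφc
            change -c < φ (K3R.pt {i})
            linarith)
          exact ⟨t, t1, t2, fun s hs => (hs.2.1 i hi).trans t3⟩
        · rw [hsing] at hφc
          obtain ⟨t, t1, t2, t3⟩ := sep_gt2 hc b0.1 b0.2 (by linarith) (bX a ha).2
          exact ⟨t, t1, t2, fun s hs => (hs.2.2.1 a ha).trans t3⟩
        · rw [hpt a ha i hi] at hφc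
          obtain ⟨t, t1, t2, t3⟩ := sep_gt2 hc (bY i hi).1 (bY i hi).2 (by linarith)
            (bXY a ha i hi (hadj a ha i hi hai)).2
          exact ⟨t, t1, t2, fun s hs => (hs.2.2.2 a ha i hi).trans t3⟩
      obtain ⟨t, t1, t2, t3⟩ := hex
      obtain ⟨s, hs, hsv⟩ := hval t t1 t2
      refine ⟨s, hs, hpres t t1 t2 s hsv, ?_⟩
      rw [bf_neg, t3 s hsv]

theorem bip (G : SimpleGraph ι) (X Y : Finset ι) (hd : Disjoint X Y)
    (hX : ∀ a ∈ X, ∀ b ∈ X, ¬ G.Adj a b) (hY : ∀ a ∈ Y, ∀ b ∈ Y, ¬ G.Adj a b) :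
    3 ^ ((X ∪ Y).card + 1) ≤ NF (HS G (X ∪ Y)) := by
  refine le_trans ?_ (bip_le G X Y hd hX hY)
  exact cobip Gᶜ X Y hd
    (fun a ha b hb hab => (SimpleGraph.compl_adj _ _ _).2 ⟨hab, hX a ha b hb⟩)
    (fun a ha b hb hab => (SimpleGraph.compl_adj _ _ _).2 ⟨hab, hY a ha b hb⟩)

end

end Pool.Agent.K3B
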