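import Pool.Agent.K3B.Dual

/-!
# Hansen polytopes: the extended theorem
-/

set_option autoImplicit false

namespace Pool.Agent.K3B

open Pool.Agent.K3R (NF HS Nice HS_empty step_simplicial step_cosimplicial step_twins toE XF
  HS_finite NF_le_image NF_le_XF)

section

variable {ι : Type} [DecidableEq ι]

/-- bipartite -/
def Bip (G : SimpleGraph ι) (W : Finset ι) : Prop :=
  ∃ X ⊆ W, ∀ a ∈ W, ∀ b ∈ W, (a ∈ X ↔ b ∈ X) → ¬ G.Adj a b

/-- the complement is bipartite -/
def CoBip (G : SimpleGraph ι) (W : Finset ι) : Prop :=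
  ∃ X ⊆ W, ∀ a ∈ W, ∀ b ∈ W, a ≠ b → (a ∈ X ↔ b ∈ X) → G.Adj a b

theorem cfg (G : SimpleGraph ι) : ∀ (n : ℕ) (W : Finset ι), W.card = n →
    (∀ W', W' ⊆ W → W'.Nonempty → Nice G W' ∨ Bip G W' ∨ CoBip G W') → 3 ^ (n + 1) ≤ NF (HS G W) := by
  classical
  intro n
  induction n using Nat.strong_induction_on with
  | _ n ih =>
    intro W hW hnice
    rcases Finset.eq_empty_or_nonempty W with rfl | hne
    · rw [Finset.card_empty] at hW
      rw [← hW]
      simpa using HS_empty G
    have hsub : ∀ W', W' ⊆ W → W'.card < n → 3 ^ (W'.card + 1) ≤ NF (HS G W') :=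
      fun W' hW' hlt => ih W'.card hlt W' rfl fun W'' hW'' hne'' =>
        hnice W'' (hW''.trans hW') hne''
    rcases hnice W (Finset.Subset.refl W) hne with (⟨v, hv, hcl⟩ | ⟨v, hv, hst⟩ |
      ⟨v, hv, v', hv', hvv, htw⟩) | hbip | hcobip
    · have hc1 := Finset.card_filter_add_card_filter_not (s := W.erase v) (fun w => G.Adj v w)
      have hce : (W.erase v).card = n - 1 := by rw [Finset.card_erase_of_mem hv, hW]
      have hnpos : 0 < n := hW ▸ Finset.card_pos.2 hne
      have hN : ∀ w, w ∈ (W.erase v).filter (fun w => G.Adj v w) ↔ w ∈ W ∧ G.Adj v w := by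
        intro w
        simp only [Finset.mem_filter, Finset.mem_erase]
        exact ⟨fun h => ⟨h.1.2, h.2⟩, fun h => ⟨⟨h.2.ne', h.1⟩, h.2⟩⟩
      have hW0 : ∀ w, w ∈ (W.erase v).filter (fun w => ¬ G.Adj v w) ↔
          w ∈ W ∧ w ≠ v ∧ ¬ G.Adj v w := by
        intro w
        simp only [Finset.mem_filter, Finset.mem_erase]
        exact ⟨fun h => ⟨h.1.2, h.1.1, h.2⟩, fun h => ⟨⟨h.2.1, h.1⟩, h.2.2⟩⟩
      have hstep := step_simplicial hv hN hW0 fun a ha b hb hab =>
        hcl a ((hN a).1 ha).1 b ((hN b).1 hb).1 ((hN a).1 ha).2 ((hN b).1 hb).2 hab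
      have h1 := hsub (W.erase v) (Finset.erase_subset v W) (by omega)
      have h2 := hsub _ (fun w hw => ((hW0 w).1 hw).1) (by omega)
      set N := (W.erase v).filter (fun w => G.Adj v w) with hNd
      set W0 := (W.erase v).filter (fun w => ¬ G.Adj v w) with hW0d
      have h3 : 3 ^ (W0.card + 1) * 3 ^ N.card ≤ NF (HS G W0) * 3 ^ N.card :=
        Nat.mul_le_mul h2 le_rfl
      rw [← pow_add, show W0.card + 1 + N.card = n by omega] at h3
      rw [hce, show n - 1 + 1 = n by omega] at h1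
      rw [pow_succ]
      omega
    · have hc1 := Finset.card_filter_add_card_filter_not (s := W.erase v) (fun w => G.Adj v w)
      have hce : (W.erase v).card = n - 1 := by rw [Finset.card_erase_of_mem hv, hW]
      have hnpos : 0 < n := hW ▸ Finset.card_pos.2 hne
      have hN : ∀ w, w ∈ (W.erase v).filter (fun w => G.Adj v w) ↔ w ∈ W ∧ G.Adj v w := by
        intro w
        simp only [Finset.mem_filter, Finset.mem_erase]
        exact ⟨fun h => ⟨h.1.2, h.2⟩, fun h => ⟨⟨h.2.ne', h.1⟩, h.2⟩⟩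
      have hW0 : ∀ w, w ∈ (W.erase v).filter (fun w => ¬ G.Adj v w) ↔
          w ∈ W ∧ w ≠ v ∧ ¬ G.Adj v w := by
        intro w
        simp only [Finset.mem_filter, Finset.mem_erase]
        exact ⟨fun h => ⟨h.1.2, h.1.1, h.2⟩, fun h => ⟨⟨h.2.1, h.1⟩, h.2.2⟩⟩
      have hstep := step_cosimplicial hv hN hW0 fun a ha b hb =>
        hst a ((hW0 a).1 ha).1 b ((hW0 b).1 hb).1 ((hW0 a).1 ha).2.1 ((hW0 b).1 hb).2.1
          ((hW0 a).1 ha).2.2 ((hW0 b).1 hb).2.2
      have h1 := hsub (W.erase v) (Finset.erase_subset v W) (by omega)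
      have h2 := hsub _ (fun w hw => ((hN w).1 hw).1) (by omega)
      set N := (W.erase v).filter (fun w => G.Adj v w) with hNd
      set W0 := (W.erase v).filter (fun w => ¬ G.Adj v w) with hW0d
      have h3 : 3 ^ W0.card * 3 ^ (N.card + 1) ≤ 3 ^ W0.card * NF (HS G N) :=
        Nat.mul_le_mul le_rfl h2
      rw [← pow_add, show W0.card + (N.card + 1) = n by omega] at h3
      rw [hce, show n - 1 + 1 = n by omega] at h1
      rw [pow_succ]
      omega
    · have hv'e : v' ∈ W.erase v := Finset.mem_erase.2 ⟨hvv.symm, hv'⟩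
      have hc1 := Finset.card_filter_add_card_filter_not (s := (W.erase v).erase v')
        (fun w => G.Adj v w)
      have hce : (W.erase v).card = n - 1 := by rw [Finset.card_erase_of_mem hv, hW]
      have hce' : ((W.erase v).erase v').card = n - 1 - 1 := by
        rw [Finset.card_erase_of_mem hv'e, hce]
      have hce2 : (W.erase v').card = n - 1 := by rw [Finset.card_erase_of_mem hv', hW]
      have hnpos : 0 < n - 1 := hce ▸ Finset.card_pos.2 ⟨v', hv'e⟩
      have hN : ∀ w, w ∈ ((W.erase v).erase v').filter (fun w => G.Adj v w) ↔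
          w ∈ W ∧ w ≠ v ∧ w ≠ v' ∧ G.Adj v w := by
        intro w
        simp only [Finset.mem_filter, Finset.mem_erase]
        exact ⟨fun h => ⟨h.1.2.2, h.1.2.1, h.1.1, h.2⟩, fun h => ⟨⟨h.2.2.1, h.2.1, h.1⟩, h.2.2.2⟩⟩
      have hW0 : ∀ w, w ∈ ((W.erase v).erase v').filter (fun w => ¬ G.Adj v w) ↔
          w ∈ W ∧ w ≠ v ∧ w ≠ v' ∧ ¬ G.Adj v w := by
        intro w
        simp only [Finset.mem_filter, Finset.mem_erase]
        exact ⟨fun h => ⟨h.1.2.2, h.1.2.1, h.1.1, h.2⟩, fun h => ⟨⟨h.2.2.1, h.2.1, h.1⟩, h.2.2.2⟩⟩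
      have hstep := step_twins hv hv' hvv htw hN hW0
      have h1 := hsub (W.erase v') (Finset.erase_subset v' W) (by omega)
      have h2 := hsub _ (fun w hw => ((hN w).1 hw).1) (by omega)
      have h4 := hsub _ (fun w hw => ((hW0 w).1 hw).1) (by omega)
      set N := ((W.erase v).erase v').filter (fun w => G.Adj v w) with hNd
      set W0 := ((W.erase v).erase v').filter (fun w => ¬ G.Adj v w) with hW0d
      have h3 : 3 ^ (W0.card + 1) * 3 ^ (N.card + 1) ≤ NF (HS G W0) * NF (HS G N) :=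
        Nat.mul_le_mul h4 h2
      rw [← pow_add, show W0.card + 1 + (N.card + 1) = n by omega] at h3
      rw [hce2, show n - 1 + 1 = n by omega] at h1
      rw [pow_succ]
      omega
    · obtain ⟨X, hXW, hX⟩ := hbip
      have h := bip G X (W \ X) Finset.disjoint_sdiff
        (fun a ha b hb => hX a (hXW ha) b (hXW hb) ⟨fun _ => hb, fun _ => ha⟩)
        (fun a ha b hb => hX a (Finset.mem_sdiff.1 ha).1 b (Finset.mem_sdiff.1 hb).1
          ⟨fun h => absurd h (Finset.mem_sdiff.1 ha).2, fun h => absurd h (Finset.mem_sdiff.1 hb).2⟩)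
      rw [Finset.union_sdiff_of_subset hXW, hW] at h
      exact h
    · obtain ⟨X, hXW, hX⟩ := hcobip
      have h := cobip G X (W \ X) Finset.disjoint_sdiff
        (fun a ha b hb hab => hX a (hXW ha) b (hXW hb) hab ⟨fun _ => hb, fun _ => ha⟩)
        (fun a ha b hb hab => hX a (Finset.mem_sdiff.1 ha).1 b (Finset.mem_sdiff.1 hb).1 hab
          ⟨fun h => absurd h (Finset.mem_sdiff.1 ha).2, fun h => absurd h (Finset.mem_sdiff.1 hb).2⟩)
      rw [Finset.union_sdiff_of_subset hXW, hW] at h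
      exact h

end

theorem poly (n : ℕ) (G : SimpleGraph (Fin n))
    (hG : ∀ W : Finset (Fin n), W.Nonempty → Nice G W ∨ Bip G W ∨ CoBip G W) :
    (3 : ℕ∞) ^ (n + 1) ≤ (XF (convexHull ℝ (toE n '' HS G Finset.univ))).encard := by
  have h1 := cfg G n Finset.univ (by simp) fun W _ hne => hG W hne
  have hfin := HS_finite G (Finset.univ : Finset (Fin n))
  have hinj : Function.Injective (toE n) := by
    unfold toE
    exact LinearEquiv.injective _
  have h2 := NF_le_image hfin (toE n) hinj 0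
  have h3 : (fun x => toE n x + 0) '' HS G Finset.univ = toE n '' HS G Finset.univ := by
    simp only [add_zero]
  rw [h3] at h2
  refine le_trans ?_ (NF_le_XF (hfin.image _))
  have h4 : ((3 ^ (n + 1) : ℕ) : ℕ∞) ≤ (NF (toE n '' HS G Finset.univ) : ℕ∞) := by
    exact_mod_cast h1.trans h2
  push_cast at h4
  exact h4

end Pool.Agent.K3B
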