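import Pool.Agent.K3B.Core2

/-!
# Points of the polytope of a bipartite graph
-/

set_option autoImplicit false

namespace Pool.Agent.K3B

section

variable {ι : Type}

/-- the maximum of the values on `b` and the apex -/
noncomputable def mx (p : ℤ × (ι → ℤ)) (b : Finset ι) : ℤ :=
  (insert p.1 (b.image p.2)).max' ⟨_, Finset.mem_insert_self _ _⟩

theorem fst_le_mx (p : ℤ × (ι → ℤ)) (b : Finset ι) : p.1 ≤ mx p b :=
  Finset.le_max' _ _ (Finset.mem_insert_self _ _)

theorem le_mx (p : ℤ × (ι → ℤ)) {b : Finset ι} {j : ι} (hj : j ∈ b) : p.2 j ≤ mx p b :=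
  Finset.le_max' _ _ (Finset.mem_insert_of_mem (Finset.mem_image_of_mem _ hj))

theorem mx_cases (p : ℤ × (ι → ℤ)) (b : Finset ι) : p.1 = mx p b ∨ ∃ j ∈ b, p.2 j = mx p b := by
  have h : mx p b ∈ insert p.1 (b.image p.2) :=
    Finset.max'_mem (insert p.1 (b.image p.2)) ⟨_, Finset.mem_insert_self _ _⟩
  rw [Finset.mem_insert, Finset.mem_image] at h
  rcases h with h | ⟨j, hj, h⟩
  · exact Or.inl h.symm
  · exact Or.inr ⟨j, hj, h⟩

/-- the minimum of the values on `b` and the apex -/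
noncomputable def mn (p : ℤ × (ι → ℤ)) (b : Finset ι) : ℤ := -mx (-p) b

theorem mn_le_fst (p : ℤ × (ι → ℤ)) (b : Finset ι) : mn p b ≤ p.1 := by
  have := fst_le_mx (-p) b
  rw [Prod.fst_neg] at this
  unfold mn
  omega

theorem mn_le (p : ℤ × (ι → ℤ)) {b : Finset ι} {j : ι} (hj : j ∈ b) : mn p b ≤ p.2 j := by
  have := le_mx (-p) hj
  rw [Prod.snd_neg, Pi.neg_apply] at this
  unfold mn
  omega

theorem mn_cases (p : ℤ × (ι → ℤ)) (b : Finset ι) : p.1 = mn p b ∨ ∃ j ∈ b, p.2 j = mn p b := by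
  unfold mn
  rcases mx_cases (-p) b with h | ⟨j, hj, h⟩
  · rw [Prod.fst_neg] at h
    left
    omega
  · rw [Prod.snd_neg, Pi.neg_apply] at h
    exact Or.inr ⟨j, hj, by omega⟩

theorem top0_iff (p : ℤ × (ι → ℤ)) (b : Finset ι) : top0 p b ↔ p.1 = mx p b := by
  constructor
  · intro h
    refine le_antisymm (fst_le_mx p b) ?_
    rcases mx_cases p b with h' | ⟨j, hj, h'⟩
    · exact h'.ge
    · rw [← h']
      exact h j hj
  · intro h j hj
    rw [h]
    exact le_mx p hj

theorem topE_iff (p : ℤ × (ι → ℤ)) {b : Finset ι} {i : ι} (hi : i ∈ b) :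
    topE p b i ↔ p.2 i = mx p b := by
  constructor
  · rintro ⟨-, h1, h2⟩
    refine le_antisymm (le_mx p hi) ?_
    rcases mx_cases p b with h' | ⟨j, hj, h'⟩
    · rw [← h']
      exact h1
    · rw [← h']
      exact h2 j hj
  · intro h
    refine ⟨hi, ?_, fun j hj => ?_⟩
    · rw [h]
      exact fst_le_mx p b
    · rw [h]
      exact le_mx p hj

/-- the additional coordinate -/
noncomputable def wt (t : Fin 3) (p : ℤ × (ι → ℤ)) (b : Finset ι) : ℤ :=
  if t = 1 then 8 - 2 * mx p b else if t = 2 then -8 - 2 * mn p b else -(mx p b + mn p b)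

/-- feasible points -/
def Feas (X Y : Finset ι) (N : ι → Finset ι) (q : ℤ × (ι → ℤ) × (ι → ℤ)) : Prop :=
  (-8 ≤ q.1 ∧ q.1 ≤ 8) ∧ (∀ i ∈ Y, -8 ≤ q.2.1 i ∧ q.2.1 i ≤ 8) ∧
    ∀ a ∈ X, (-8 ≤ q.2.2 a + q.1 ∧ q.2.2 a + q.1 ≤ 8) ∧
      ∀ i ∈ N a, -8 ≤ q.2.2 a + q.2.1 i ∧ q.2.2 a + q.2.1 i ≤ 8

/-- the two numbers are extreme at the same time -/
def Ex (x y : ℤ) : Prop := (x = 8 ↔ y = 8) ∧ (x = -8 ↔ y = -8)

/-- the same tight constraints -/
def Pat (X Y : Finset ι) (N : ι → Finset ι) (q r : ℤ × (ι → ℤ) × (ι → ℤ)) : Prop :=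
  Ex q.1 r.1 ∧ (∀ i ∈ Y, Ex (q.2.1 i) (r.2.1 i)) ∧
    ∀ a ∈ X, Ex (q.2.2 a + q.1) (r.2.2 a + r.1) ∧
      ∀ i ∈ N a, Ex (q.2.2 a + q.2.1 i) (r.2.2 a + r.2.1 i)

/-- one value of a set is upper extreme -/
def hasP (x : ℤ) (y : ι → ℤ) (b : Finset ι) (w : ℤ) : Prop := w + x = 8 ∨ ∃ i ∈ b, w + y i = 8

/-- one value of a set is lower extreme -/
def hasM (x : ℤ) (y : ι → ℤ) (b : Finset ι) (w : ℤ) : Prop := w + x = -8 ∨ ∃ i ∈ b, w + y i = -8

theorem type_one {p : ℤ × (ι → ℤ)} {b : Finset ι} (hbd : Bd p)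
    (hadm : ¬ ((p.1 = 4 ∨ ∃ i ∈ b, p.2 i = 4) ∧ (p.1 = -4 ∨ ∃ i ∈ b, p.2 i = -4))) :
    hasP (2 * p.1) (fun i => 2 * p.2 i) b (wt 1 p b) ∧
      ¬ hasM (2 * p.1) (fun i => 2 * p.2 i) b (wt 1 p b) := by
  have e : wt 1 p b = 8 - 2 * mx p b := if_pos rfl
  rw [e]
  constructor
  · rcases mx_cases p b with h | ⟨j, hj, h⟩
    · left
      omega
    · exact Or.inr ⟨j, hj, by dsimp only; omega⟩
  · intro h
    have hM : mx p b ≤ 4 := by
      rcases mx_cases p b with h | ⟨j, hj, h⟩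
      · have := hbd.1
        omega
      · have := hbd.2 j
        omega
    apply hadm
    rcases h with h | ⟨j, hj, h⟩
    · have h1 := hbd.1
      refine ⟨?_, Or.inl (by omega)⟩
      rcases mx_cases p b with h' | ⟨k, hk, h'⟩
      · left
        omega
      · exact Or.inr ⟨k, hk, by omega⟩
    · have h1 := hbd.2 j
      dsimp only at h
      refine ⟨?_, Or.inr ⟨j, hj, by omega⟩⟩
      rcases mx_cases p b with h' | ⟨k, hk, h'⟩
      · left
        omega
      · exact Or.inr ⟨k, hk, by omega⟩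

theorem type_two {p : ℤ × (ι → ℤ)} {b : Finset ι} (hbd : Bd p)
    (hadm : ¬ ((p.1 = 4 ∨ ∃ i ∈ b, p.2 i = 4) ∧ (p.1 = -4 ∨ ∃ i ∈ b, p.2 i = -4))) :
    ¬ hasP (2 * p.1) (fun i => 2 * p.2 i) b (wt 2 p b) ∧
      hasM (2 * p.1) (fun i => 2 * p.2 i) b (wt 2 p b) := by
  have e : wt 2 p b = -8 - 2 * mn p b := by
    unfold wt
    rw [if_neg (by decide), if_pos rfl]
  rw [e]
  constructor
  · intro h
    have hM : -4 ≤ mn p b := by
      rcases mn_cases p b with h | ⟨j, hj, h⟩
      · have := hbd.1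
        omega
      · have := hbd.2 j
        omega
    apply hadm
    rcases h with h | ⟨j, hj, h⟩
    · have h1 := hbd.1
      refine ⟨Or.inl (by omega), ?_⟩
      rcases mn_cases p b with h' | ⟨k, hk, h'⟩
      · left
        omega
      · exact Or.inr ⟨k, hk, by omega⟩
    · have h1 := hbd.2 j
      dsimp only at h
      refine ⟨Or.inr ⟨j, hj, by omega⟩, ?_⟩
      rcases mn_cases p b with h' | ⟨k, hk, h'⟩
      · left
        omega
      · exact Or.inr ⟨k, hk, by omega⟩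
  · rcases mn_cases p b with h | ⟨j, hj, h⟩
    · left
      omega
    · exact Or.inr ⟨j, hj, by dsimp only; omega⟩

theorem type_zero {p : ℤ × (ι → ℤ)} {b : Finset ι} (hbd : Bd p) :
    hasP (2 * p.1) (fun i => 2 * p.2 i) b (wt 0 p b) ↔
      hasM (2 * p.1) (fun i => 2 * p.2 i) b (wt 0 p b) := by
  have e : wt 0 p b = -(mx p b + mn p b) := by
    unfold wt
    rw [if_neg (by decide), if_neg (by decide)]
  rw [e]
  have hM : mx p b ≤ 4 := by
    rcases mx_cases p b with h | ⟨j, hj, h⟩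
    · have := hbd.1
      omega
    · have := hbd.2 j
      omega
  have hm : -4 ≤ mn p b := by
    rcases mn_cases p b with h | ⟨j, hj, h⟩
    · have := hbd.1
      omega
    · have := hbd.2 j
      omega
  constructor
  · intro h
    have h2 : mx p b = 4 ∧ mn p b = -4 := by
      rcases h with h | ⟨j, hj, h⟩
      · have := fst_le_mx p b
        have := hbd.1
        omega
      · have := le_mx p hj
        have := hbd.2 j
        dsimp only at h
        omega
    rcases mn_cases p b with h' | ⟨k, hk, h'⟩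
    · left
      omega
    · exact Or.inr ⟨k, hk, by dsimp only; omega⟩
  · intro h
    have h2 : mx p b = 4 ∧ mn p b = -4 := by
      rcases h with h | ⟨j, hj, h⟩
      · have := mn_le_fst p b
        have := hbd.1
        omega
      · have := mn_le p hj
        have := hbd.2 j
        dsimp only at h
        omega
    rcases mx_cases p b with h' | ⟨k, hk, h'⟩
    · left
      omega
    · exact Or.inr ⟨k, hk, by dsimp only; omega⟩

theorem wt_bd (t : Fin 3) {p : ℤ × (ι → ℤ)} {b : Finset ι} (hbd : Bd p) {x : ℤ}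
    (h1 : mn p b ≤ x) (h2 : x ≤ mx p b) : -8 ≤ wt t p b + 2 * x ∧ wt t p b + 2 * x ≤ 8 := by
  have hM : mx p b ≤ 4 := by
    rcases mx_cases p b with h | ⟨j, hj, h⟩
    · have := hbd.1
      omega
    · have := hbd.2 j
      omega
  have hm : -4 ≤ mn p b := by
    rcases mn_cases p b with h | ⟨j, hj, h⟩
    · have := hbd.1
      omega
    · have := hbd.2 j
      omega
  unfold wt
  split_ifs <;> omega

theorem has_congr {X Y : Finset ι} {N : ι → Finset ι} {q r : ℤ × (ι → ℤ) × (ι → ℤ)}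
    (h : Pat X Y N q r) {a : ι} (ha : a ∈ X) :
    (hasP q.1 q.2.1 (N a) (q.2.2 a) ↔ hasP r.1 r.2.1 (N a) (r.2.2 a)) ∧
      (hasM q.1 q.2.1 (N a) (q.2.2 a) ↔ hasM r.1 r.2.1 (N a) (r.2.2 a)) := by
  obtain ⟨h1, h2⟩ := h.2.2 a ha
  unfold hasP hasM
  constructor
  · exact or_congr h1.1 (exists_congr fun i => and_congr_right fun hi => (h2 i hi).1)
  · exact or_congr h1.2 (exists_congr fun i => and_congr_right fun hi => (h2 i hi).2)

/-- there are many feasible points with different patterns -/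
theorem points (X Y : Finset ι) (N : ι → Finset ι) :
    ∃ F : Fin (3 ^ (X.card + Y.card + 1)) → ℤ × (ι → ℤ) × (ι → ℤ),
      (∀ k, Feas X Y N (F k)) ∧ ∀ k k', Pat X Y N (F k) (F k') → k = k' := by
  classical
  let Us : ({x // x ∈ X} → Fin 3) → Finset (Finset ι) := fun τ =>
    (Finset.univ.filter fun a => τ a = 1).image fun a => N a.1
  let Ls : ({x // x ∈ X} → Fin 3) → Finset (Finset ι) := fun τ =>
    (Finset.univ.filter fun a => τ a = 2).image fun a => N a.1
  have hc := fun τ => core (Us τ) (Ls τ) Y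
  choose f hf using hc
  let ext : ({x // x ∈ X} → Fin 3) → ι → Fin 3 := fun τ a => if h : a ∈ X then τ ⟨a, h⟩ else 0
  let q : ({x // x ∈ X} → Fin 3) × Fin (3 ^ (Y.card + 1)) → ℤ × (ι → ℤ) × (ι → ℤ) := fun x =>
    (2 * (f x.1 x.2).1, fun i => 2 * (f x.1 x.2).2 i,
      fun a => wt (ext x.1 a) (f x.1 x.2) (N a))
  have hext : ∀ τ (a : {x // x ∈ X}), ext τ a.1 = τ a := fun τ a => dif_pos a.2
  have hfeas : ∀ x, Feas X Y N (q x) := by
    intro x
    obtain ⟨hbd, -, -⟩ := (hf x.1).1 x.2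
    refine ⟨?_, fun i _ => ?_, fun a _ => ⟨?_, fun i hi => ?_⟩⟩
    · change -8 ≤ 2 * (f x.1 x.2).1 ∧ 2 * (f x.1 x.2).1 ≤ 8
      have := hbd.1
      omega
    · change -8 ≤ 2 * (f x.1 x.2).2 i ∧ 2 * (f x.1 x.2).2 i ≤ 8
      have := hbd.2 i
      omega
    · exact wt_bd _ hbd (mn_le_fst _ _) (fst_le_mx _ _)
    · exact wt_bd _ hbd (mn_le _ hi) (le_mx _ hi)
  have hinj : ∀ x y, Pat X Y N (q x) (q y) → x = y := by
    rintro ⟨τ, k⟩ ⟨τ', k'⟩ hp
    obtain ⟨hbd, hU, hL⟩ := (hf τ).1 k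
    obtain ⟨hbd', hU', hL'⟩ := (hf τ').1 k'
    have hτ : τ = τ' := by
      funext a
      obtain ⟨c1, c2⟩ := has_congr hp a.2
      change (hasP (2 * (f τ k).1) (fun i => 2 * (f τ k).2 i) (N a.1)
        (wt (ext τ a.1) (f τ k) (N a.1)) ↔ hasP (2 * (f τ' k').1) (fun i => 2 * (f τ' k').2 i)
        (N a.1) (wt (ext τ' a.1) (f τ' k') (N a.1))) at c1
      change (hasM (2 * (f τ k).1) (fun i => 2 * (f τ k).2 i) (N a.1)
        (wt (ext τ a.1) (f τ k) (N a.1)) ↔ hasM (2 * (f τ' k').1) (fun i => 2 * (f τ' k').2 i)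
        (N a.1) (wt (ext τ' a.1) (f τ' k') (N a.1))) at c2
      rw [hext, hext] at c1 c2
      have t : τ a = 0 ∨ τ a = 1 ∨ τ a = 2 := by
        generalize τ a = s
        fin_cases s <;> simp
      have t' : τ' a = 0 ∨ τ' a = 1 ∨ τ' a = 2 := by
        generalize τ' a = s
        fin_cases s <;> simp
      have m1 : ∀ σ : {x // x ∈ X} → Fin 3, σ a = 1 → N a.1 ∈ Us σ := fun σ h =>
        Finset.mem_image.2 ⟨a, Finset.mem_filter.2 ⟨Finset.mem_univ _, h⟩, rfl⟩
      have m2 : ∀ σ : {x // x ∈ X} → Fin 3, σ a = 2 → N a.1 ∈ Ls σ := fun σ h =>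
        Finset.mem_image.2 ⟨a, Finset.mem_filter.2 ⟨Finset.mem_univ _, h⟩, rfl⟩
      rcases t with t | t | t
      · rw [t] at c1 c2
        have k1 := type_zero (b := N a.1) hbd
        rcases t' with t' | t' | t'
        · rw [t, t']
        · rw [t'] at c1 c2
          obtain ⟨k2, k3⟩ := type_one hbd' (hU' _ (m1 τ' t'))
          exact absurd (c2.1 (k1.1 (c1.2 k2))) k3
        · rw [t'] at c1 c2
          obtain ⟨k2, k3⟩ := type_two hbd' (hL' _ (m2 τ' t'))
          exact absurd (c1.1 (k1.2 (c2.2 k3))) k2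
      · rw [t] at c1 c2
        obtain ⟨k1, k1'⟩ := type_one hbd (hU _ (m1 τ t))
        rcases t' with t' | t' | t'
        · rw [t'] at c1 c2
          have k2 := type_zero (b := N a.1) hbd'
          exact absurd (c2.2 (k2.1 (c1.1 k1))) k1'
        · rw [t, t']
        · rw [t'] at c1 c2
          obtain ⟨k2, k3⟩ := type_two hbd' (hL' _ (m2 τ' t'))
          exact absurd (c1.1 k1) k2
      · rw [t] at c1 c2
        obtain ⟨k1, k1'⟩ := type_two hbd (hL _ (m2 τ t))
        rcases t' with t' | t' | t'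
        · rw [t'] at c1 c2
          have k2 := type_zero (b := N a.1) hbd'
          exact absurd (c1.2 (k2.2 (c2.1 k1'))) k1
        · rw [t'] at c1 c2
          obtain ⟨k2, k3⟩ := type_one hbd' (hU' _ (m1 τ' t'))
          exact absurd (c1.2 k2) k1
        · rw [t, t']
    subst hτ
    have hk : k = k' := by
      apply (hf τ).2
      obtain ⟨p1, p2, p3⟩ := hp
      change Ex (2 * (f τ k).1) (2 * (f τ k').1) at p1
      have p2' : ∀ i ∈ Y, Ex (2 * (f τ k).2 i) (2 * (f τ k').2 i) := p2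
      have p3' : ∀ a : {x // x ∈ X}, Ex (wt (τ a) (f τ k) (N a.1) + 2 * (f τ k).1)
          (wt (τ a) (f τ k') (N a.1) + 2 * (f τ k').1) ∧
          ∀ i ∈ N a.1, Ex (wt (τ a) (f τ k) (N a.1) + 2 * (f τ k).2 i)
          (wt (τ a) (f τ k') (N a.1) + 2 * (f τ k').2 i) := by
        intro a
        have h3 := p3 a.1 a.2
        change Ex (wt (ext τ a.1) (f τ k) (N a.1) + 2 * (f τ k).1)
          (wt (ext τ a.1) (f τ k') (N a.1) + 2 * (f τ k').1) ∧
          ∀ i ∈ N a.1, Ex (wt (ext τ a.1) (f τ k) (N a.1) + 2 * (f τ k).2 i)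
          (wt (ext τ a.1) (f τ k') (N a.1) + 2 * (f τ k').2 i) at h3
        rw [hext τ a] at h3
        exact h3
      unfold Ex at p1 p2' p3'
      refine ⟨⟨?_, fun i hi => ?_, fun b hb => ?_⟩, ?_, fun i hi => ?_, fun b hb => ?_⟩
      · omega
      · have := p2' i hi
        omega
      · obtain ⟨a, ha, rfl⟩ := Finset.mem_image.1 hb
        have ha1 := (Finset.mem_filter.1 ha).2
        obtain ⟨h1, h2⟩ := p3' a
        have e1 : wt 1 (f τ k) (N a.1) = 8 - 2 * mx (f τ k) (N a.1) := if_pos rfl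
        have e2 : wt 1 (f τ k') (N a.1) = 8 - 2 * mx (f τ k') (N a.1) := if_pos rfl
        rw [ha1, e1, e2] at h1 h2
        refine ⟨?_, fun i hi => ?_⟩
        · rw [top0_iff, top0_iff]
          have := h1.1
          omega
        · rw [topE_iff _ hi, topE_iff _ hi]
          have := (h2 i hi).1
          omega
      · simp only [Prod.fst_neg]
        omega
      · have := p2' i hi
        simp only [Prod.snd_neg, Pi.neg_apply]
        omega
      · obtain ⟨a, ha, rfl⟩ := Finset.mem_image.1 hb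
        have ha1 := (Finset.mem_filter.1 ha).2
        obtain ⟨h1, h2⟩ := p3' a
        have e1 : wt 2 (f τ k) (N a.1) = -8 - 2 * mn (f τ k) (N a.1) := by
          unfold wt
          rw [if_neg (by decide), if_pos rfl]
        have e2 : wt 2 (f τ k') (N a.1) = -8 - 2 * mn (f τ k') (N a.1) := by
          unfold wt
          rw [if_neg (by decide), if_pos rfl]
        rw [ha1, e1, e2] at h1 h2
        unfold mn at h1 h2
        refine ⟨?_, fun i hi => ?_⟩
        · rw [top0_iff, top0_iff]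
          have := h1.2
          simp only [Prod.fst_neg]
          omega
        · rw [topE_iff _ hi, topE_iff _ hi]
          have := (h2 i hi).2
          simp only [Prod.snd_neg, Pi.neg_apply]
          omega
    rw [hk]
  have hcard : Fintype.card (({x // x ∈ X} → Fin 3) × Fin (3 ^ (Y.card + 1))) =
      3 ^ (X.card + Y.card + 1) := by
    rw [Fintype.card_prod, Fintype.card_fun, Fintype.card_fin, Fintype.card_fin,
      Fintype.card_coe, ← pow_add, add_assoc]
  let e := Fintype.equivFinOfCardEq hcard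
  exact ⟨fun k => q (e.symm k), fun k => hfeas _, fun k k' h => e.symm.injective (hinj _ _ h)⟩

end

end Pool.Agent.K3B
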