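import Pool.Agent.K3B.Defs

/-!
# The words
-/

set_option autoImplicit false

namespace Pool.Agent.K3B

open Classical in
section

variable {ι : Type}

/-- the basic word -/
noncomputable def G0 (U L : Finset (Finset ι)) (E : Finset ι) (i : ι) : ℤ :=
  if i ∈ E then (if cov U i then 3 else 4) else (if cov L i then -3 else -4)

/-- zeros instead of visible positive entries -/
noncomputable def W1 (U L : Finset (Finset ι)) (E : Finset ι) (i : ι) : ℤ :=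
  if i ∈ E then (if cov U i then 0 else 4) else (if cov L i then -3 else -4)

/-- one entry of the basic word is changed -/
noncomputable def Wc (U L : Finset (Finset ι)) (E : Finset ι) (z : ι) (c : ℤ) (i : ι) : ℤ :=
  if i = z then c else G0 U L E i

/-- one common entry is raised to the top -/
noncomputable def Wr (U L : Finset (Finset ι)) (E : Finset ι) (z : ι) (i : ι) : ℤ :=
  if i = z then 4 else
    if ¬ cov L i ∧ ∃ b ∈ U, z ∈ b ∧ i ∈ b then (if ∃ b ∈ U, i ∈ b ∧ z ∉ b then 3 else 4)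
    else G0 U L E i

/-- the words without extreme negative entries -/
noncomputable def Wf (U L : Finset (Finset ι)) (J S : Finset ι) (i : ι) : ℤ :=
  if cov U i then (if cov L i ∧ ∃ j ∈ J, cov U j ∧ ¬ cov L j then -3 else 4)
  else (if i ∈ S then -3 else 4)

/-- the words for a pure part `C` -/
noncomputable def Wp (U L : Finset (Finset ι)) (C E : Finset ι) (i : ι) : ℤ :=
  if i ∈ C then (if ∃ e ∈ C, e ∈ E then (if i ∈ E then 0 else -4) else 4) else G0 U L E i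

end

section

variable {ι : Type} {U L : Finset (Finset ι)} {J E E' S : Finset ι} {i z : ι}

theorem G0_cases (U L : Finset (Finset ι)) (E : Finset ι) (i : ι) :
    (i ∈ E ∧ cov U i ∧ G0 U L E i = 3) ∨ (i ∈ E ∧ ¬ cov U i ∧ G0 U L E i = 4) ∨
      (i ∉ E ∧ cov L i ∧ G0 U L E i = -3) ∨ (i ∉ E ∧ ¬ cov L i ∧ G0 U L E i = -4) := by
  unfold G0
  by_cases h : i ∈ E
  · by_cases h' : cov U i
    · exact Or.inl ⟨h, h', by rw [if_pos h, if_pos h']⟩
    · exact Or.inr (Or.inl ⟨h, h', by rw [if_pos h, if_neg h']⟩)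
  · by_cases h' : cov L i
    · exact Or.inr (Or.inr (Or.inl ⟨h, h', by rw [if_neg h, if_pos h']⟩))
    · exact Or.inr (Or.inr (Or.inr ⟨h, h', by rw [if_neg h, if_neg h']⟩))

theorem G0_pos : 0 < G0 U L E i ↔ i ∈ E := by
  rcases G0_cases U L E i with ⟨h, -, h'⟩ | ⟨h, -, h'⟩ | ⟨h, -, h'⟩ | ⟨h, -, h'⟩ <;>
    rw [h'] <;> simp [h]

theorem G0_le (h : cov U i) : G0 U L E i ≤ 3 := by
  rcases G0_cases U L E i with ⟨-, -, h'⟩ | ⟨-, h2, h'⟩ | ⟨-, -, h'⟩ | ⟨-, -, h'⟩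
  · omega
  · exact absurd h h2
  · omega
  · omega

theorem G0_ge (h : cov L i) : -3 ≤ G0 U L E i := by
  rcases G0_cases U L E i with ⟨-, -, h'⟩ | ⟨-, -, h'⟩ | ⟨-, -, h'⟩ | ⟨-, h2, h'⟩
  · omega
  · omega
  · omega
  · exact absurd h h2

theorem G0_four (h : G0 U L E i = 4) : i ∈ E ∧ ¬ cov U i := by
  rcases G0_cases U L E i with ⟨-, -, h'⟩ | ⟨h1, h2, h'⟩ | ⟨-, -, h'⟩ | ⟨-, -, h'⟩
  · omega
  · exact ⟨h1, h2⟩
  · omega
  · omega

theorem G0_nfour (h : G0 U L E i = -4) : i ∉ E ∧ ¬ cov L i := by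
  rcases G0_cases U L E i with ⟨-, -, h'⟩ | ⟨-, -, h'⟩ | ⟨-, -, h'⟩ | ⟨h1, h2, h'⟩
  · omega
  · omega
  · omega
  · exact ⟨h1, h2⟩

theorem G0_compl {F : Finset ι} (hF : i ∈ F ↔ i ∉ E) : G0 L U F i = - G0 U L E i := by
  unfold G0
  by_cases h : i ∈ E
  · have h' : i ∉ F := fun h' => (hF.1 h') h
    rw [if_neg h', if_pos h]
    split_ifs <;> norm_num
  · have h' : i ∈ F := hF.2 h
    rw [if_pos h', if_neg h]
    split_ifs <;> norm_num

theorem val_G0 (U L : Finset (Finset ι)) (J E : Finset ι) : Val U L J (G0 U L E) := by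
  refine ⟨?_, ?_, ?_, ?_, ?_, ?_⟩
  · intro i _
    rcases G0_cases U L E i with ⟨-, -, h'⟩ | ⟨-, -, h'⟩ | ⟨-, -, h'⟩ | ⟨-, -, h'⟩ <;> omega
  · intro b hb i hi j hj _ _ h1 _
    exact (G0_four h1).2 ⟨b, hb, hi⟩
  · intro b hb i hi j hj _ _ _ h1
    exact (G0_nfour h1).2 ⟨b, hb, hj⟩
  · intro i hi h
    rcases G0_cases U L E i with ⟨-, h2, h'⟩ | ⟨-, -, h'⟩ | ⟨-, -, h'⟩ | ⟨-, -, h'⟩
    · obtain ⟨b, hb, hib⟩ := h2
      refine Or.inr ⟨b, hb, hib, fun j hj _ => ?_⟩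
      rw [h']
      exact G0_le ⟨b, hb, hj⟩
    · exact Or.inl h'
    · omega
    · omega
  · intro i hi h
    simp only [Pi.neg_apply] at h ⊢
    rcases G0_cases U L E i with ⟨-, -, h'⟩ | ⟨-, -, h'⟩ | ⟨-, h2, h'⟩ | ⟨-, -, h'⟩
    · omega
    · omega
    · obtain ⟨b, hb, hib⟩ := h2
      refine Or.inr ⟨b, hb, hib, fun j hj _ => ?_⟩
      have := G0_ge (U := U) (E := E) (⟨b, hb, hj⟩ : cov L j)
      omega
    · left
      omega
  · intro i hi h
    rcases G0_cases U L E i with ⟨-, -, h'⟩ | ⟨-, -, h'⟩ | ⟨-, -, h'⟩ | ⟨-, -, h'⟩ <;> omega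

theorem W1_cases (U L : Finset (Finset ι)) (E : Finset ι) (i : ι) :
    (i ∈ E ∧ cov U i ∧ W1 U L E i = 0) ∨ (i ∈ E ∧ ¬ cov U i ∧ W1 U L E i = 4) ∨
      (i ∉ E ∧ cov L i ∧ W1 U L E i = -3) ∨ (i ∉ E ∧ ¬ cov L i ∧ W1 U L E i = -4) := by
  unfold W1
  by_cases h : i ∈ E
  · by_cases h' : cov U i
    · exact Or.inl ⟨h, h', by rw [if_pos h, if_pos h']⟩
    · exact Or.inr (Or.inl ⟨h, h', by rw [if_pos h, if_neg h']⟩)
  · by_cases h' : cov L i
    · exact Or.inr (Or.inr (Or.inl ⟨h, h', by rw [if_neg h, if_pos h']⟩))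
    · exact Or.inr (Or.inr (Or.inr ⟨h, h', by rw [if_neg h, if_neg h']⟩))

theorem val_W1 (hG : ∀ b ∈ L, (∃ i ∈ b, i ∈ J) → ∃ j ∈ b, j ∈ J ∧ j ∉ E) :
    Val U L J (W1 U L E) := by
  refine ⟨?_, ?_, ?_, ?_, ?_, ?_⟩
  · intro i _
    rcases W1_cases U L E i with ⟨-, -, h'⟩ | ⟨-, -, h'⟩ | ⟨-, -, h'⟩ | ⟨-, -, h'⟩ <;> omega
  · intro b hb i hi j hj _ _ h1 _
    rcases W1_cases U L E i with ⟨-, -, h'⟩ | ⟨-, h2, h'⟩ | ⟨-, -, h'⟩ | ⟨-, -, h'⟩
    · omega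
    · exact h2 ⟨b, hb, hi⟩
    · omega
    · omega
  · intro b hb i hi j hj _ _ _ h1
    rcases W1_cases U L E j with ⟨-, -, h'⟩ | ⟨-, -, h'⟩ | ⟨-, -, h'⟩ | ⟨-, h2, h'⟩
    · omega
    · omega
    · omega
    · exact h2 ⟨b, hb, hj⟩
  · intro i hi h
    rcases W1_cases U L E i with ⟨-, -, h'⟩ | ⟨-, -, h'⟩ | ⟨-, -, h'⟩ | ⟨-, -, h'⟩
    · omega
    · exact Or.inl h'
    · omega
    · omega
  · intro i hi h
    simp only [Pi.neg_apply] at h ⊢
    rcases W1_cases U L E i with ⟨-, -, h'⟩ | ⟨-, -, h'⟩ | ⟨-, h2, h'⟩ | ⟨-, -, h'⟩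
    · omega
    · omega
    · obtain ⟨b, hb, hib⟩ := h2
      refine Or.inr ⟨b, hb, hib, fun j hj _ => ?_⟩
      rcases W1_cases U L E j with ⟨-, -, h''⟩ | ⟨-, -, h''⟩ | ⟨-, -, h''⟩ | ⟨-, h3, h''⟩
      · omega
      · omega
      · omega
      · exact absurd ⟨b, hb, hj⟩ h3
    · left
      omega
  · intro i hi h
    left
    rcases W1_cases U L E i with ⟨-, h2, h'⟩ | ⟨-, -, h'⟩ | ⟨-, -, h'⟩ | ⟨-, -, h'⟩
    · obtain ⟨b, hb, hib⟩ := h2
      refine ⟨⟨b, hb, hib, fun j hj _ => ?_⟩, ?_⟩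
      · rcases W1_cases U L E j with ⟨-, -, h''⟩ | ⟨-, h3, h''⟩ | ⟨-, -, h''⟩ | ⟨-, -, h''⟩
        · omega
        · exact absurd ⟨b, hb, hj⟩ h3
        · omega
        · omega
      · rintro ⟨b', hb', hib', hall⟩
        obtain ⟨j, hj, hjJ, hjE⟩ := hG b' hb' ⟨i, hib', hi⟩
        have h4 := hall j hj hjJ
        simp only [Pi.neg_apply] at h4
        rcases W1_cases U L E j with ⟨h3, -, h''⟩ | ⟨h3, -, h''⟩ | ⟨-, -, h''⟩ | ⟨-, -, h''⟩
        · exact hjE h3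
        · exact hjE h3
        · omega
        · omega
    · omega
    · omega
    · omega

theorem Wc_self (c : ℤ) : Wc U L E z c z = c := if_pos rfl

theorem Wc_ne (c : ℤ) (h : i ≠ z) : Wc U L E z c i = G0 U L E i := if_neg h

/-- changing one positive entry to zero -/
theorem val_Wz (hE : E ⊆ J) (hz : z ∈ E) (hb : ∃ b ∈ L, z ∈ b ∧ ∀ j ∈ b, j ∈ J → j ∈ E)
    (hH : ∀ b ∈ U, z ∈ b → ∃ e ∈ b, e ∈ E ∧ e ≠ z) : Val U L J (Wc U L E z 0) := by
  refine ⟨?_, ?_, ?_, ?_, ?_, ?_⟩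
  · intro i hi
    by_cases h : i = z
    · subst h
      rw [Wc_self]
      omega
    · rw [Wc_ne _ h]
      exact (val_G0 U L J E).lv i hi
  · intro b hb i hi j hj _ _ h1 _
    by_cases h : i = z
    · subst h
      rw [Wc_self] at h1
      omega
    · rw [Wc_ne _ h] at h1
      exact (G0_four h1).2 ⟨b, hb, hi⟩
  · intro b hb i hi j hj _ _ _ h1
    by_cases h : j = z
    · subst h
      rw [Wc_self] at h1
      omega
    · rw [Wc_ne _ h] at h1
      exact (G0_nfour h1).2 ⟨b, hb, hj⟩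
  · intro i hi h
    by_cases h1 : i = z
    · subst h1
      rw [Wc_self] at h
      omega
    · rw [Wc_ne _ h1] at h ⊢
      rcases (val_G0 U L J E).visU i hi h with h2 | ⟨b, hb, hib, h2⟩
      · exact Or.inl h2
      · refine Or.inr ⟨b, hb, hib, fun j hj hjJ => ?_⟩
        by_cases h3 : j = z
        · subst h3
          rw [Wc_self]
          omega
        · rw [Wc_ne _ h3]
          exact h2 j hj hjJ
  · intro i hi h
    by_cases h1 : i = z
    · subst h1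
      simp only [Pi.neg_apply] at h
      rw [Wc_self] at h
      omega
    · have h' : 0 < (-G0 U L E) i := by
        simp only [Pi.neg_apply] at h ⊢
        rwa [Wc_ne _ h1] at h
      have e1 : (-Wc U L E z 0) i = (-G0 U L E) i := by
        simp only [Pi.neg_apply]
        rw [Wc_ne _ h1]
      rw [e1]
      rcases (val_G0 U L J E).visL i hi h' with h2 | ⟨b, hb, hib, h2⟩
      · exact Or.inl h2
      · refine Or.inr ⟨b, hb, hib, fun j hj hjJ => ?_⟩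
        by_cases h3 : j = z
        · subst h3
          simp only [Pi.neg_apply] at h' ⊢
          rw [Wc_self]
          omega
        · have := h2 j hj hjJ
          simp only [Pi.neg_apply] at this ⊢
          rw [Wc_ne _ h3]
          exact this
  · intro i hi h
    by_cases h1 : i = z
    · subst h1
      right
      constructor
      · rintro ⟨b, hbU, hib, hall⟩
        obtain ⟨e, he, heE, hez⟩ := hH b hbU hib
        have := hall e he (hE heE)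
        rw [Wc_ne _ hez] at this
        have := (G0_pos (U := U) (L := L) (E := E)).2 heE
        omega
      · obtain ⟨b, hbL, hib, hall⟩ := hb
        refine ⟨b, hbL, hib, fun j hj hjJ => ?_⟩
        simp only [Pi.neg_apply]
        by_cases h3 : j = i
        · rw [h3, Wc_self]
          omega
        · rw [Wc_ne _ h3]
          have := (G0_pos (U := U) (L := L) (E := E)).2 (hall j hj hjJ)
          omega
    · rw [Wc_ne _ h1] at h
      rcases G0_cases U L E i with ⟨-, -, h'⟩ | ⟨-, -, h'⟩ | ⟨-, -, h'⟩ | ⟨-, -, h'⟩ <;> omega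

/-- changing one positive entry to the lower level -/
theorem val_Wm (hz : z ∈ E) (h1 : ∃ b ∈ U, z ∈ b ∧ ∀ e ∈ b, e ∈ E → e = z) :
    Val U L J (Wc U L E z 2) := by
  have hle : ∀ i, cov U i → Wc U L E z 2 i ≤ 3 := by
    intro i hi
    by_cases h : i = z
    · subst h
      rw [Wc_self]
      omega
    · rw [Wc_ne _ h]
      exact G0_le hi
  have hge : ∀ i, cov L i → -3 ≤ Wc U L E z 2 i := by
    intro i hi
    by_cases h : i = z
    · subst h
      rw [Wc_self]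
      omega
    · rw [Wc_ne _ h]
      exact G0_ge hi
  refine ⟨?_, ?_, ?_, ?_, ?_, ?_⟩
  · intro i hi
    by_cases h : i = z
    · subst h
      rw [Wc_self]
      omega
    · rw [Wc_ne _ h]
      exact (val_G0 U L J E).lv i hi
  · intro b hb i hi j hj _ _ h2 _
    have := hle i ⟨b, hb, hi⟩
    omega
  · intro b hb i hi j hj _ _ _ h2
    have := hge j ⟨b, hb, hj⟩
    omega
  · intro i hi h
    by_cases h2 : i = z
    · subst h2
      right
      obtain ⟨b, hb, hib, hall⟩ := h1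
      refine ⟨b, hb, hib, fun j hj _ => ?_⟩
      rw [Wc_self]
      by_cases h3 : j = i
      · rw [h3, Wc_self]
      · rw [Wc_ne _ h3]
        have h4 : j ∉ E := fun h' => h3 (hall j hj h')
        have := (G0_pos (U := U) (L := L) (E := E) (i := j)).not.2 h4
        omega
    · rw [Wc_ne _ h2] at h ⊢
      rcases G0_cases U L E i with ⟨-, h3, h'⟩ | ⟨-, -, h'⟩ | ⟨-, -, h'⟩ | ⟨-, -, h'⟩
      · obtain ⟨b, hb, hib⟩ := h3
        refine Or.inr ⟨b, hb, hib, fun j hj _ => ?_⟩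
        rw [h']
        exact hle j ⟨b, hb, hj⟩
      · exact Or.inl h'
      · omega
      · omega
  · intro i hi h
    simp only [Pi.neg_apply] at h ⊢
    by_cases h2 : i = z
    · subst h2
      rw [Wc_self] at h
      omega
    · rw [Wc_ne _ h2] at h ⊢
      rcases G0_cases U L E i with ⟨-, -, h'⟩ | ⟨-, -, h'⟩ | ⟨-, h3, h'⟩ | ⟨-, -, h'⟩
      · omega
      · omega
      · obtain ⟨b, hb, hib⟩ := h3
        refine Or.inr ⟨b, hb, hib, fun j hj _ => ?_⟩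
        have := hge j ⟨b, hb, hj⟩
        omega
      · left
        omega
  · intro i hi h
    by_cases h2 : i = z
    · subst h2
      rw [Wc_self] at h
      omega
    · rw [Wc_ne _ h2] at h
      rcases G0_cases U L E i with ⟨-, -, h'⟩ | ⟨-, -, h'⟩ | ⟨-, -, h'⟩ | ⟨-, -, h'⟩ <;> omega

theorem nf_Wm (hE : E ⊆ J) (hz : z ∈ E) (h2 : ∃ b ∈ U, z ∈ b ∧ ∃ e ∈ b, e ∈ E ∧ e ≠ z) :
    Nf U J (Wc U L E z 2) := by
  obtain ⟨b, hb, hzb, e, he, heE, hez⟩ := h2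
  refine ⟨b, hb, ⟨z, hzb, hE hz, Wc_self 2⟩, ⟨e, he, hE heE, ?_⟩, ?_⟩
  · rw [Wc_ne _ hez]
    rcases G0_cases U L E e with ⟨-, -, h'⟩ | ⟨-, h3, h'⟩ | ⟨h3, -, h'⟩ | ⟨h3, -, h'⟩
    · exact h'
    · exact absurd ⟨b, hb, he⟩ h3
    · exact absurd heE h3
    · exact absurd heE h3
  · intro j hj _
    by_cases h : j = z
    · rw [h, Wc_self]
      omega
    · rw [Wc_ne _ h]
      exact G0_le ⟨b, hb, hj⟩

theorem Wr_cases (U L : Finset (Finset ι)) (E : Finset ι) (z i : ι) :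
    (i = z ∧ Wr U L E z i = 4) ∨
    (i ≠ z ∧ ¬ cov L i ∧ (∃ b ∈ U, z ∈ b ∧ i ∈ b) ∧ (∃ b ∈ U, i ∈ b ∧ z ∉ b) ∧
      Wr U L E z i = 3) ∨
    (i ≠ z ∧ ¬ cov L i ∧ (∃ b ∈ U, z ∈ b ∧ i ∈ b) ∧ ¬ (∃ b ∈ U, i ∈ b ∧ z ∉ b) ∧
      Wr U L E z i = 4) ∨
    (i ≠ z ∧ ¬ (¬ cov L i ∧ ∃ b ∈ U, z ∈ b ∧ i ∈ b) ∧ Wr U L E z i = G0 U L E i) := by
  unfold Wr
  by_cases h : i = z
  · exact Or.inl ⟨h, if_pos h⟩
  · rw [if_neg h]
    by_cases h2 : ¬ cov L i ∧ ∃ b ∈ U, z ∈ b ∧ i ∈ b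
    · rw [if_pos h2]
      by_cases h3 : ∃ b ∈ U, i ∈ b ∧ z ∉ b
      · rw [if_pos h3]
        exact Or.inr (Or.inl ⟨h, h2.1, h2.2, h3, rfl⟩)
      · rw [if_neg h3]
        exact Or.inr (Or.inr (Or.inl ⟨h, h2.1, h2.2, h3, rfl⟩))
    · rw [if_neg h2]
      exact Or.inr (Or.inr (Or.inr ⟨h, h2, rfl⟩))

theorem Wr_le {b : Finset ι} (hb : b ∈ U) (hzb : z ∉ b) (hi : i ∈ b) : Wr U L E z i ≤ 3 := by
  rcases Wr_cases U L E z i with ⟨h, -⟩ | ⟨-, -, -, -, h⟩ | ⟨-, -, -, h, -⟩ | ⟨-, -, h⟩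
  · rw [h] at hi
    exact absurd hi hzb
  · omega
  · exact absurd ⟨b, hb, hi, hzb⟩ h
  · rw [h]
    exact G0_le ⟨b, hb, hi⟩

theorem Wr_ge (hi : cov L i) : -3 ≤ Wr U L E z i := by
  rcases Wr_cases U L E z i with ⟨-, h⟩ | ⟨-, -, -, -, h⟩ | ⟨-, -, -, -, h⟩ | ⟨-, -, h⟩
  · omega
  · omega
  · omega
  · rw [h]
    exact G0_ge hi

theorem val_Wr (hR : ∀ b ∈ U, z ∈ b → ∀ e ∈ b, e ∈ E → e = z) :
    Val U L J (Wr U L E z) := by
  refine ⟨?_, ?_, ?_, ?_, ?_, ?_⟩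
  · intro i hi
    rcases Wr_cases U L E z i with ⟨-, h⟩ | ⟨-, -, -, -, h⟩ | ⟨-, -, -, -, h⟩ | ⟨-, -, h⟩
    · omega
    · omega
    · omega
    · rw [h]
      exact (val_G0 U L J E).lv i hi
  · intro b hb i hi j hj _ _ h1 h2
    have hzb : z ∉ b := by
      intro hzb
      rcases Wr_cases U L E z j with ⟨-, h⟩ | ⟨-, -, -, -, h⟩ | ⟨-, -, -, -, h⟩ | ⟨-, h', h⟩
      · omega
      · omega
      · omega
      · rw [h2] at h
        exact h' ⟨(G0_nfour h.symm).2, b, hb, hzb, hj⟩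
    have := Wr_le (L := L) (E := E) hb hzb hi
    omega
  · intro b hb i hi j hj _ _ h1 h2
    have := Wr_ge (U := U) (E := E) (z := z) (⟨b, hb, hj⟩ : cov L j)
    omega
  · intro i hi h0
    rcases Wr_cases U L E z i with ⟨-, h⟩ | ⟨-, -, -, ⟨b, hb, hib, hzb⟩, h⟩ | ⟨-, -, -, -, h⟩ |
      ⟨hiz, -, h⟩
    · exact Or.inl h
    · refine Or.inr ⟨b, hb, hib, fun j hj _ => ?_⟩
      rw [h]
      exact Wr_le hb hzb hj
    · exact Or.inl h
    · rw [h] at h0 ⊢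
      rcases G0_cases U L E i with ⟨hiE, h3, h'⟩ | ⟨-, -, h'⟩ | ⟨-, -, h'⟩ | ⟨-, -, h'⟩
      · obtain ⟨b, hb, hib⟩ := h3
        have hzb : z ∉ b := fun hzb => hiz (hR b hb hzb i hib hiE)
        refine Or.inr ⟨b, hb, hib, fun j hj _ => ?_⟩
        rw [h']
        exact Wr_le hb hzb hj
      · exact Or.inl h'
      · omega
      · omega
  · intro i hi h0
    simp only [Pi.neg_apply] at h0 ⊢
    rcases Wr_cases U L E z i with ⟨-, h⟩ | ⟨-, -, -, -, h⟩ | ⟨-, -, -, -, h⟩ | ⟨-, -, h⟩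
    · omega
    · omega
    · omega
    · rw [h] at h0 ⊢
      rcases G0_cases U L E i with ⟨-, -, h'⟩ | ⟨-, -, h'⟩ | ⟨-, h3, h'⟩ | ⟨-, -, h'⟩
      · omega
      · omega
      · obtain ⟨b, hb, hib⟩ := h3
        refine Or.inr ⟨b, hb, hib, fun j hj _ => ?_⟩
        have := Wr_ge (U := U) (E := E) (z := z) (⟨b, hb, hj⟩ : cov L j)
        omega
      · left
        omega
  · intro i hi h0
    rcases Wr_cases U L E z i with ⟨-, h⟩ | ⟨-, -, -, -, h⟩ | ⟨-, -, -, -, h⟩ | ⟨-, -, h⟩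
    · omega
    · omega
    · omega
    · rw [h] at h0
      rcases G0_cases U L E i with ⟨-, -, h'⟩ | ⟨-, -, h'⟩ | ⟨-, -, h'⟩ | ⟨-, -, h'⟩ <;> omega

theorem Wf_cases (U L : Finset (Finset ι)) (J S : Finset ι) (i : ι) :
    (cov U i ∧ cov L i ∧ (∃ j ∈ J, cov U j ∧ ¬ cov L j) ∧ Wf U L J S i = -3) ∨
    (cov U i ∧ ¬ (cov L i ∧ ∃ j ∈ J, cov U j ∧ ¬ cov L j) ∧ Wf U L J S i = 4) ∨
    (¬ cov U i ∧ i ∈ S ∧ Wf U L J S i = -3) ∨ (¬ cov U i ∧ i ∉ S ∧ Wf U L J S i = 4) := by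
  unfold Wf
  by_cases h : cov U i
  · rw [if_pos h]
    by_cases h2 : cov L i ∧ ∃ j ∈ J, cov U j ∧ ¬ cov L j
    · rw [if_pos h2]
      exact Or.inl ⟨h, h2.1, h2.2, rfl⟩
    · rw [if_neg h2]
      exact Or.inr (Or.inl ⟨h, h2, rfl⟩)
  · rw [if_neg h]
    by_cases h2 : i ∈ S
    · rw [if_pos h2]
      exact Or.inr (Or.inr (Or.inl ⟨h, h2, rfl⟩))
    · rw [if_neg h2]
      exact Or.inr (Or.inr (Or.inr ⟨h, h2, rfl⟩))

theorem Wf_or (U L : Finset (Finset ι)) (J S : Finset ι) (i : ι) :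
    Wf U L J S i = -3 ∨ Wf U L J S i = 4 := by
  rcases Wf_cases U L J S i with ⟨-, -, -, h⟩ | ⟨-, -, h⟩ | ⟨-, -, h⟩ | ⟨-, -, h⟩
  · exact Or.inl h
  · exact Or.inr h
  · exact Or.inl h
  · exact Or.inr h

theorem val_Wf (hc : ∀ i ∈ J, cov U i ∨ cov L i) : Val U L J (Wf U L J S) := by
  refine ⟨?_, ?_, ?_, ?_, ?_, ?_⟩
  · intro i hi
    rcases Wf_or U L J S i with h | h <;> omega
  · intro b hb i hi j hj _ _ _ h
    rcases Wf_or U L J S j with h' | h' <;> omega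
  · intro b hb i hi j hj _ _ _ h
    rcases Wf_or U L J S j with h' | h' <;> omega
  · intro i hi h
    rcases Wf_or U L J S i with h' | h'
    · omega
    · exact Or.inl h'
  · intro i hi h
    simp only [Pi.neg_apply] at h ⊢
    have hcov : cov L i := by
      rcases Wf_cases U L J S i with ⟨-, h1, -, -⟩ | ⟨-, -, h1⟩ | ⟨h1, -, -⟩ | ⟨-, -, h1⟩
      · exact h1
      · omega
      · exact (hc i hi).resolve_left h1
      · omega
    obtain ⟨b, hb, hib⟩ := hcov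
    refine Or.inr ⟨b, hb, hib, fun j hj _ => ?_⟩
    rcases Wf_or U L J S i with h' | h' <;> rcases Wf_or U L J S j with h'' | h'' <;> omega
  · intro i hi h
    rcases Wf_or U L J S i with h' | h' <;> omega

end

end Pool.Agent.K3B
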